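import Pool.Agent.H58.NSP.ConeT

/-!
Axisymmetric flows (helper58): the weight for the angular inflow.
-/

set_option autoImplicit false

open MeasureTheory Set Metric Filter Topology
open scoped ContDiff

namespace Pool.Agent.H58.NSP

open H459R3.NS W221.NS Pool.Agent.TH305.DR Pool.Agent.TH305.AX
open Pool.Agent.X96.AT (TS)

/-- The parameters. -/
lemma ang_par {μ C r₀ : ℝ} (hμ : 0 < μ) (hC : 0 < C) (hr₀ : 0 < r₀) :
    ∃ A m q G₀ ρ₁ : ℝ, 0 < A ∧ 0 < m ∧ 0 < q ∧ 0 < G₀ ∧ 0 < ρ₁ ∧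
      ∀ ξ d e P ax g : ℝ, 0 < ξ → ξ ≤ 1 → 0 < d → 0 ≤ e →
      g = A * m * q * ξ ^ q * Real.exp (-(m * ξ ^ q)) →
      -(2 - μ) * (1 - ξ) - C * √(ξ * (1 - ξ)) - e ≤ (1 - ξ) * P - ξ * ax →
      (d < r₀ → -C - e ≤ P + 2) → (r₀ ≤ d → μ - e ≤ P + 2) →
      μ - (2 + 2 * G₀ + A * m * q) * e ≤ (P + 2) * (1 + (1 - ξ) * g) + ξ * (1 - ax) * g
        - 2 * (1 - ξ) * (g * (q * (1 - m * ξ ^ q)))
        + (G₀ * (P + 2) - G₀ * (ρ₁ / (ρ₁ + d)) * ξ * (1 + (P + ax))) := by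
  obtain ⟨q, hq⟩ : ∃ q : ℝ, q = μ / 8 := ⟨_, rfl⟩
  have hq0 : 0 < q := by rw [hq]; positivity
  obtain ⟨ξ₁, hξ₁⟩ : ∃ ξ₁ : ℝ, ξ₁ = μ ^ 2 / (16 * C ^ 2 + μ ^ 2) := ⟨_, rfl⟩
  have hξ₁0 : 0 < ξ₁ := by rw [hξ₁]; positivity
  obtain ⟨J, hJ⟩ : ∃ J : ℝ, J = 2 * q + C ^ 2 := ⟨_, rfl⟩
  have hJ0 : 0 < J := by rw [hJ]; positivity
  have hps : 0 < ξ₁ ^ q := Real.rpow_pos_of_pos hξ₁0 _
  obtain ⟨m, hm⟩ : ∃ m : ℝ, m = J / (2 * q * ξ₁ ^ q) := ⟨_, rfl⟩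
  have hm0 : 0 < m := by rw [hm]; positivity
  have hmJ : 2 * q * m * ξ₁ ^ q = J := by rw [hm]; field_simp
  obtain ⟨μ₀, hμ₀⟩ : ∃ μ₀ : ℝ, μ₀ = min (μ / 2) (1 / 2) := ⟨_, rfl⟩
  have hμ₀0 : 0 < μ₀ := by rw [hμ₀]; positivity
  have hμ₀1 : μ₀ ≤ μ / 2 := by rw [hμ₀]; exact min_le_left _ _
  have hμ₀2 : μ₀ ≤ 1 / 2 := by rw [hμ₀]; exact min_le_right _ _
  obtain ⟨G₀, hG₀⟩ : ∃ G₀ : ℝ, G₀ = 1 + 2 * (2 * C + μ) / μ₀ := ⟨_, rfl⟩
  have hG₀1 : 1 ≤ G₀ := by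
    have : 0 ≤ 2 * (2 * C + μ) / μ₀ := by positivity
    rw [hG₀]
    linarith
  have hG₀0 : 0 < G₀ := by linarith
  have hG₀e : 2 * (2 * C + μ) ≤ G₀ * μ₀ := by
    have : 2 * (2 * C + μ) / μ₀ * μ₀ = 2 * (2 * C + μ) := by field_simp
    rw [hG₀, add_mul, this]
    linarith
  obtain ⟨ρ₁, hρ₁⟩ : ∃ ρ₁ : ℝ, ρ₁ = r₀ * (G₀ + 1) := ⟨_, rfl⟩
  have hρ₁0 : 0 < ρ₁ := by rw [hρ₁]; positivity
  obtain ⟨A, hA⟩ : ∃ A : ℝ, A = G₀ / (m * q * ξ₁ ^ q * Real.exp (-m)) := ⟨_, rfl⟩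
  have hA0 : 0 < A := by rw [hA]; positivity
  have hAe : A * m * q * ξ₁ ^ q * Real.exp (-m) = G₀ := by rw [hA]; field_simp
  refine ⟨A, m, q, G₀, ρ₁, hA0, hm0, hq0, hG₀0, hρ₁0, ?_⟩
  intro ξ d e P ax g hξ hξ1 hd he hg hax hnear hfar
  obtain ⟨η, hη⟩ : ∃ η : ℝ, η = ξ ^ q := ⟨_, rfl⟩
  have hη0 : 0 < η := by rw [hη]; exact Real.rpow_pos_of_pos hξ _
  have hη1 : η ≤ 1 := by rw [hη]; exact Real.rpow_le_one hξ.le hξ1 hq0.le
  rw [← hη] at hg ⊢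
  have hg0 : 0 < g := by rw [hg]; positivity
  have hgm : g ≤ A * m * q := by
    have h1 : Real.exp (-(m * η)) ≤ 1 := by
      apply Real.exp_le_one_iff.2
      have : 0 ≤ m * η := by positivity
      linarith
    have h2 : 0 ≤ A * m * q := by positivity
    rw [hg]
    calc A * m * q * η * Real.exp (-(m * η)) ≤ A * m * q * 1 * 1 := by gcongr
      _ = _ := by ring
  obtain ⟨q₁, hq₁⟩ : ∃ q₁ : ℝ, q₁ = ρ₁ / (ρ₁ + d) := ⟨_, rfl⟩
  have hq₁0 : 0 < q₁ := by rw [hq₁]; positivity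
  have hq₁1 : q₁ ≤ 1 := by
    rw [hq₁, div_le_one (by linarith)]
    linarith
  obtain ⟨y, hy⟩ : ∃ y : ℝ, y = √(ξ * (1 - ξ)) := ⟨_, rfl⟩
  have h1ξ : 0 ≤ 1 - ξ := by linarith
  have hy0 : 0 ≤ y := by rw [hy]; exact Real.sqrt_nonneg _
  have hy2 : y ^ 2 = ξ * (1 - ξ) := by rw [hy]; exact Real.sq_sqrt (mul_nonneg hξ.le h1ξ)
  rw [← hy] at hax
  have hyC : C * y ≤ ξ / 2 + C ^ 2 / 2 * (1 - ξ) := by
    have h1 : √ξ ^ 2 = ξ := Real.sq_sqrt hξ.le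
    have h2 : √(1 - ξ) ^ 2 = 1 - ξ := Real.sq_sqrt h1ξ
    have h3 : y = √ξ * √(1 - ξ) := by rw [hy, Real.sqrt_mul hξ.le]
    rw [h3]
    nlinarith [sq_nonneg (√ξ - C * √(1 - ξ))]
  obtain ⟨Gt, hGt⟩ : ∃ Gt : ℝ, Gt = G₀ * q₁ + g := ⟨_, rfl⟩
  have hGt0 : 0 < Gt := by rw [hGt]; positivity
  have hGtm : Gt ≤ G₀ + A * m * q := by
    have : G₀ * q₁ ≤ G₀ * 1 := mul_le_mul_of_nonneg_left hq₁1 hG₀0.le
    rw [hGt]
    linarith
  -- the angular part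
  have hang : Gt * (μ₀ - e) ≤ Gt * ((1 - ξ) * P - ξ * ax + 2 * (1 - ξ) + ξ)
      - 2 * (1 - ξ) * (g * (q * (1 - m * η))) := by
    have hax' := mul_le_mul_of_nonneg_left hax hGt0.le
    rcases le_or_gt ξ ξ₁ with h1 | h1
    · have h2 : C * y ≤ μ / 4 * (1 - ξ) := by
        have h3 : ξ * (16 * C ^ 2 + μ ^ 2) ≤ μ ^ 2 := by
          rw [hξ₁, le_div_iff₀ (by positivity)] at h1
          exact h1
        have h4 : (C * y) ^ 2 ≤ (μ / 4 * (1 - ξ)) ^ 2 := by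
          rw [mul_pow, hy2]
          have h5 : 0 ≤ (1 - ξ) * (μ ^ 2 - ξ * (16 * C ^ 2 + μ ^ 2)) :=
            mul_nonneg h1ξ (by linarith)
          nlinarith
        exact le_of_sq_le_sq h4 (by positivity)
      have h3 : 2 * (1 - ξ) * (g * (q * (1 - m * η))) ≤ Gt * (μ / 4 * (1 - ξ)) := by
        have h4 : 2 * (1 - ξ) * (g * (q * (1 - m * η))) ≤ 2 * (1 - ξ) * (g * (q * 1)) := by
          have : 0 < m * η := by positivity
          gcongr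
          linarith
        have h5 : g ≤ Gt := by
          rw [hGt]
          have : 0 < G₀ * q₁ := by positivity
          linarith
        have h6 : g * (μ / 4 * (1 - ξ)) ≤ Gt * (μ / 4 * (1 - ξ)) := by gcongr
        rw [hq] at h4 ⊢
        nlinarith
      have h4 : μ₀ ≤ μ * (1 - ξ) + ξ - C * y - μ / 4 * (1 - ξ) := by
        have h5 : μ₀ * (1 - ξ) ≤ μ / 2 * (1 - ξ) := by gcongr
        have h6 : μ₀ * ξ ≤ 1 / 2 * ξ := by gcongr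
        nlinarith
      have h5 := mul_le_mul_of_nonneg_left h4 hGt0.le
      nlinarith
    · have hmη : J ≤ 2 * q * m * η := by
        have h2 : ξ₁ ^ q ≤ η := by rw [hη]; exact Real.rpow_le_rpow hξ₁0.le h1.le hq0.le
        rw [← hmJ]
        gcongr
      have hgG : G₀ ≤ g := by
        have h2 : ξ₁ ^ q ≤ η := by rw [hη]; exact Real.rpow_le_rpow hξ₁0.le h1.le hq0.le
        have h5 : Real.exp (-m) ≤ Real.exp (-(m * η)) := by
          apply Real.exp_le_exp.2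
          have : m * η ≤ m * 1 := mul_le_mul_of_nonneg_left hη1 hm0.le
          linarith
        rw [← hAe, hg]
        gcongr
      have h3 : Gt * (C ^ 2 / 2 * (1 - ξ)) ≤ -(2 * (1 - ξ) * (g * (q * (1 - m * η)))) := by
        have h4 : C ^ 2 ≤ 2 * q * m * η - 2 * q := by rw [hJ] at hmη; linarith
        have h5 : C ^ 2 * ((1 - ξ) * g) ≤ (2 * q * m * η - 2 * q) * ((1 - ξ) * g) :=
          mul_le_mul_of_nonneg_right h4 (mul_nonneg h1ξ hg0.le)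
        have h6 : Gt ≤ 2 * g := by
          have : G₀ * q₁ ≤ G₀ * 1 := mul_le_mul_of_nonneg_left hq₁1 hG₀0.le
          rw [hGt]
          linarith
        have h7 : Gt * (C ^ 2 / 2 * (1 - ξ)) ≤ 2 * g * (C ^ 2 / 2 * (1 - ξ)) := by gcongr
        nlinarith
      have h4 : μ₀ ≤ μ * (1 - ξ) + ξ / 2 := by
        have h5 : μ₀ * (1 - ξ) ≤ μ / 2 * (1 - ξ) := by gcongr
        have h6 : μ₀ * ξ ≤ 1 / 2 * ξ := by gcongr
        have h7 := mul_nonneg hμ.le h1ξ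
        nlinarith
      have h5 := mul_le_mul_of_nonneg_left h4 hGt0.le
      have h6 := mul_le_mul_of_nonneg_left hyC hGt0.le
      nlinarith
  have hSe : (P + 2) * (1 + (1 - ξ) * g) + ξ * (1 - ax) * g
        - 2 * (1 - ξ) * (g * (q * (1 - m * η)))
        + (G₀ * (P + 2) - G₀ * (ρ₁ / (ρ₁ + d)) * ξ * (1 + (P + ax)))
      = (P + 2) * (1 + G₀ * (1 - q₁)) + (Gt * ((1 - ξ) * P - ξ * ax + 2 * (1 - ξ) + ξ)
      - 2 * (1 - ξ) * (g * (q * (1 - m * η)))) := by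
    rw [← hq₁, hGt]
    ring
  rw [hSe]
  have hGe : Gt * e ≤ (G₀ + A * m * q) * e := mul_le_mul_of_nonneg_right hGtm he
  have h1q : 0 ≤ 1 - q₁ := by linarith
  rcases lt_or_ge d r₀ with hlt | hge
  · have hP := hnear hlt
    have hGq : G₀ * (1 - q₁) ≤ 1 := by
      have h1 : 1 - q₁ = d / (ρ₁ + d) := by
        rw [hq₁]
        field_simp
        ring
      rw [h1, ← mul_div_assoc, div_le_one (by linarith), hρ₁]
      nlinarith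
    have hq₁h : 1 / 2 ≤ q₁ := by
      have h1 : 1 - q₁ ≤ G₀ * (1 - q₁) := by nlinarith
      by_contra hcon
      push Not at hcon
      have h2 : 1 - q₁ = d / (ρ₁ + d) := by
        rw [hq₁]
        field_simp
        ring
      have h3 : d / (ρ₁ + d) ≤ 1 / 2 := by
        rw [div_le_div_iff₀ (by linarith) (by norm_num), hρ₁]
        nlinarith
      linarith
    have hPq : -(2 * (C + e)) ≤ (P + 2) * (1 + G₀ * (1 - q₁)) := by
      have h1 : 0 ≤ G₀ * (1 - q₁) := mul_nonneg hG₀0.le h1q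
      have h2 : (-C - e) * (1 + G₀ * (1 - q₁)) ≤ (P + 2) * (1 + G₀ * (1 - q₁)) :=
        mul_le_mul_of_nonneg_right hP (by linarith)
      have h3 : (C + e) * (1 + G₀ * (1 - q₁)) ≤ (C + e) * 2 :=
        mul_le_mul_of_nonneg_left (by linarith) (by linarith)
      linarith
    have hGtl : G₀ / 2 ≤ Gt := by
      have : G₀ * (1 / 2) ≤ G₀ * q₁ := mul_le_mul_of_nonneg_left hq₁h hG₀0.le
      rw [hGt]
      linarith
    have hGtμ : G₀ / 2 * μ₀ ≤ Gt * μ₀ := mul_le_mul_of_nonneg_right hGtl hμ₀0.le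
    have hGe0 : 0 ≤ G₀ * e := mul_nonneg hG₀0.le he
    nlinarith
  · have hP := hfar hge
    have h1 : 0 ≤ G₀ * (1 - q₁) := mul_nonneg hG₀0.le h1q
    have h2 : (μ - e) * (1 + G₀ * (1 - q₁)) ≤ (P + 2) * (1 + G₀ * (1 - q₁)) :=
      mul_le_mul_of_nonneg_right hP (by linarith)
    have h3 : G₀ * (1 - q₁) * e ≤ G₀ * e := by
      have : G₀ * (1 - q₁) ≤ G₀ * 1 := mul_le_mul_of_nonneg_left (by linarith) hG₀0.le
      have := mul_le_mul_of_nonneg_right this he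
      linarith
    have h4 : 0 ≤ μ * (G₀ * (1 - q₁)) := mul_nonneg hμ.le h1
    have h5 : 0 ≤ Gt * μ₀ := by positivity
    nlinarith

end Pool.Agent.H58.NSP
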