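import Pool.Agent.H58.NSP.Ang

/-!
Axisymmetric flows (helper58): Hoelder bound of the circulation under one-sided bounds of the angular
and of the radial inflow.
-/

set_option autoImplicit false

open MeasureTheory Set Metric Filter Topology
open scoped ContDiff

namespace Pool.Agent.H58.NSP

open H459R3.NS W221.NS Pool.Agent.TH305.DR Pool.Agent.TH305.AX
open Pool.Agent.X96.AT (TS)

/-- The points at which the velocity is restricted: `|Γ| > N ρ ^ (2 κ)`; `|Γ(t', y)| ≤ |Γ(t, x)|` for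
all `t' ∈ [T₁, t]` and all `y` with `ρ(y) ≤ ρ(x)` and `r(t', y) ≥ r(t, x)`, where `r(t, x)` is the
distance of `x` to the point of height `c(t)` of the axis; `|Γ|` increases with the distance to the
axis and does not increase with the distance to the plane `x₂ = c(t)`. -/
def Ra (κ N T₁ : ℝ) (c : ℝ → ℝ) (u : ℝ → V → V) (t : ℝ) (x : V) : Prop :=
  N * sg x ^ κ < |circ (u t) x| ∧
  (∀ t' ∈ Icc T₁ t, ∀ y, sg y ≤ sg x → dsq (c t) x ≤ dsq (c t') y →
    |circ (u t') y| ≤ |circ (u t) x|) ∧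
  0 < circ (u t) x * (x 0 * pd 0 (circ (u t)) x + x 1 * pd 1 (circ (u t)) x) ∧
  (x 2 - c t) * (circ (u t) x * pd 2 (circ (u t)) x) ≤ 0

/-- The logarithm of the weight. -/
noncomputable def Hz (A m q G₀ ρ₁ a : ℝ) (x : V) : ℝ :=
  Hk A m q a x + (G₀ * Real.log (sg x)
    + -G₀ * (Real.log (dsq a x) - Real.log (ρ₁ + dsq a x)))

/-- The gradient of the logarithm of the weight. -/
noncomputable def gZ (A m q G₀ ρ₁ a : ℝ) (x : V) (j : Fin 3) : ℝ :=
  gK A m q a x j + (G₀ * (2 * cj j * x j / sg x)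
    + -G₀ * (2 * (ρ₁ / (ρ₁ + dsq a x)) * ((x j - ca a j) / dsq a x)))

section
variable {A m q G₀ ρ₁ a : ℝ} {x : V}

lemma jet_Hz (hρ : 0 < ρ₁) (hx : 0 < sg x) : Jet (Hz A m q G₀ ρ₁ a) x (gZ A m q G₀ ρ₁ a x)
    (pc₁ A m q (Real.log (sg x) - Real.log (dsq a x)) * (-2 / dsq a x)
      + pc₂ A m q (Real.log (sg x) - Real.log (dsq a x)) * (4 / sg x * (1 - sg x / dsq a x))
      + (G₀ * 0 + -G₀ * (2 / dsq a x - 6 / (ρ₁ + dsq a x)
        + 4 * dsq a x / (ρ₁ + dsq a x) ^ 2))) :=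
  (jet_Hk hx).add (((jet_ls hx).mul_left G₀).add ((jet_ld hρ (dsq_pos hx)).mul_left (-G₀)))

lemma Hz_rot (θ : ℝ) : Hz A m q G₀ ρ₁ a (rot θ x) = Hz A m q G₀ ρ₁ a x := by
  unfold Hz
  rw [Hk_rot, sg_rot, dsq_rot]

lemma rad_gZ (hx : 0 < sg x) : x 0 * gZ A m q G₀ ρ₁ a x 0 + x 1 * gZ A m q G₀ ρ₁ a x 1
    = 2 + 2 * pc₁ A m q (Real.log (sg x) - Real.log (dsq a x)) * (1 - sg x / dsq a x)
      + 2 * G₀ * (1 - ρ₁ / (ρ₁ + dsq a x) * (sg x / dsq a x)) := by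
  have c0 : cj 0 = 1 := by simp [cj]
  have c1 : cj 1 = 1 := by simp [cj]
  have hss : x 0 ^ 2 + x 1 ^ 2 = sg x := rfl
  unfold gZ gK
  rw [ca0, ca1, c0, c1]
  obtain ⟨G, hG⟩ : ∃ G, G = pc₁ A m q (Real.log (sg x) - Real.log (dsq a x)) := ⟨_, rfl⟩
  rw [← hG]
  have e : x 0 * (2 * 1 * x 0 / sg x + G * (2 * 1 * x 0 / sg x + -1 * (2 * (x 0 - 0) / dsq a x))
      + (G₀ * (2 * 1 * x 0 / sg x)
        + -G₀ * (2 * (ρ₁ / (ρ₁ + dsq a x)) * ((x 0 - 0) / dsq a x))))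
      + x 1 * (2 * 1 * x 1 / sg x + G * (2 * 1 * x 1 / sg x + -1 * (2 * (x 1 - 0) / dsq a x))
      + (G₀ * (2 * 1 * x 1 / sg x)
        + -G₀ * (2 * (ρ₁ / (ρ₁ + dsq a x)) * ((x 1 - 0) / dsq a x))))
      = (2 + 2 * G + 2 * G₀) * ((x 0 ^ 2 + x 1 ^ 2) / sg x)
        - (2 * G + 2 * G₀ * (ρ₁ / (ρ₁ + dsq a x))) * ((x 0 ^ 2 + x 1 ^ 2) / dsq a x) := by ring
  rw [e, hss, div_self hx.ne']
  ring

lemma ax_gZ (w : ℝ) (hw : w = x 2 - a) : gZ A m q G₀ ρ₁ a x 2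
    = -(2 * (pc₁ A m q (Real.log (sg x) - Real.log (dsq a x)) + G₀ * (ρ₁ / (ρ₁ + dsq a x)))
      * w / dsq a x) := by
  have c2 : cj 2 = 0 := by simp [cj]
  unfold gZ gK
  rw [ca2, c2, hw]
  ring

/-- The first order terms. -/
lemma ang_id (hρ : 0 < ρ₁) (hx : 0 < sg x) (a' G F₂ : ℝ) (v : V)
    (hG : G = pc₁ A m q (Real.log (sg x) - Real.log (dsq a x)))
    (hF : F₂ = pc₂ A m q (Real.log (sg x) - Real.log (dsq a x))) :
    (G * (-2 / dsq a x) + F₂ * (4 / sg x * (1 - sg x / dsq a x))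
        + (G₀ * 0 + -G₀ * (2 / dsq a x - 6 / (ρ₁ + dsq a x)
          + 4 * dsq a x / (ρ₁ + dsq a x) ^ 2)))
      - 2 * (x 0 * gZ A m q G₀ ρ₁ a x 0 + x 1 * gZ A m q G₀ ρ₁ a x 1) / sg x
      - ∑ j, v j * gZ A m q G₀ ρ₁ a x j
      - (G * (2 * (x 2 - a) * a' / dsq a x)
        + -G₀ * ((ρ₁ / (ρ₁ + dsq a x)) / dsq a x * (-(2 * (x 2 - a) * a'))))
      = -(2 / sg x) * ((x 0 * v 0 + x 1 * v 1 + 2) * (1 + (1 - sg x / dsq a x) * G)
        + sg x / dsq a x * (1 - (x 2 - a) * (v 2 - a')) * G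
        - 2 * (1 - sg x / dsq a x) * F₂
        + (G₀ * (x 0 * v 0 + x 1 * v 1 + 2)
          - G₀ * (ρ₁ / (ρ₁ + dsq a x)) * (sg x / dsq a x)
            * (1 + (x 0 * v 0 + x 1 * v 1 + (x 2 - a) * (v 2 - a')))))
        + G₀ * (4 * ρ₁ / (ρ₁ + dsq a x) ^ 2) := by
  have hd := dsq_pos (a := a) hx
  have hs : x 0 ^ 2 + x 1 ^ 2 = sg x := rfl
  have c0 : cj 0 = 1 := by simp [cj]
  have c1 : cj 1 = 1 := by simp [cj]
  have c2 : cj 2 = 0 := by simp [cj]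
  have h1 := cone_id (A := A) (m := m) (q := q) hx a' G F₂ v hG hF
  rw [Fin.sum_univ_three] at h1 ⊢
  unfold gZ
  rw [ca0, ca1, ca2, c0, c1, c2]
  obtain ⟨s, hs'⟩ : ∃ s, s = sg x := ⟨_, rfl⟩
  obtain ⟨d, hd'⟩ : ∃ d, d = dsq a x := ⟨_, rfl⟩
  rw [← hs'] at hs hx h1 ⊢
  rw [← hd'] at hd h1 ⊢
  have hρd : 0 < ρ₁ + d := by linarith
  obtain ⟨Q, hQ⟩ : ∃ Q, Q = ρ₁ / (ρ₁ + d) := ⟨_, rfl⟩
  have k3 : 2 / d - 6 / (ρ₁ + d) + 4 * d / (ρ₁ + d) ^ 2
      = 2 * Q / d - 4 * ρ₁ / (ρ₁ + d) ^ 2 := by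
    rw [hQ]
    field_simp
    ring
  rw [k3, ← hQ]
  have k1 : 2 * (x 0 * (G₀ * (2 * 1 * x 0 / s) + -G₀ * (2 * Q * ((x 0 - 0) / d)))
      + x 1 * (G₀ * (2 * 1 * x 1 / s) + -G₀ * (2 * Q * ((x 1 - 0) / d)))) / s
      = 4 * G₀ / s - 4 * G₀ * Q / d := by
    have e : 2 * (x 0 * (G₀ * (2 * 1 * x 0 / s) + -G₀ * (2 * Q * ((x 0 - 0) / d)))
        + x 1 * (G₀ * (2 * 1 * x 1 / s) + -G₀ * (2 * Q * ((x 1 - 0) / d)))) / s
        = 4 * G₀ * ((x 0 ^ 2 + x 1 ^ 2) / s) / s - 4 * G₀ * Q * ((x 0 ^ 2 + x 1 ^ 2) / s) / d := by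
      ring
    rw [e, hs, div_self hx.ne']
    ring
  have k2 : -(2 / s) * (G₀ * (x 0 * v 0 + x 1 * v 1 + 2)
          - G₀ * Q * (s / d) * (1 + (x 0 * v 0 + x 1 * v 1 + (x 2 - a) * (v 2 - a'))))
      = -(2 * G₀ * (x 0 * v 0 + x 1 * v 1 + 2) / s)
        + 2 * G₀ * Q * (1 + (x 0 * v 0 + x 1 * v 1 + (x 2 - a) * (v 2 - a'))) / d := by
    field_simp
    ring
  linear_combination h1 - k1 - k2

/-- The square of the gradient. -/
lemma gZ_sq (hA : 0 ≤ A) (hm : 0 ≤ m) (hq : 0 ≤ q) (hG₀ : 0 ≤ G₀) (hρ : 0 < ρ₁) (hx : 0 < sg x) :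
    ∑ j, gZ A m q G₀ ρ₁ a x j ^ 2 ≤ 4 * (1 + (A * m * q + 2 * G₀)) ^ 2 / sg x := by
  have hd := dsq_pos (a := a) hx
  obtain ⟨c, hc⟩ : ∃ c : ℝ, c = 2 / √(sg x) := ⟨_, rfl⟩
  have hsq : 0 < √(sg x) := Real.sqrt_pos.2 hx
  have hc0 : 0 < c := by rw [hc]; positivity
  have hc2 : c ^ 2 = 4 / sg x := by
    rw [hc, div_pow, Real.sq_sqrt hx.le]
    norm_num
  have h0 : ∑ j, gK A m q a x j ^ 2 ≤ ((1 + A * m * q) * c) ^ 2 := by
    rw [mul_pow, hc2]
    refine (gK_sq hA hm hq hx).trans (le_of_eq ?_)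
    ring
  have h1 : ∑ j, (G₀ * (2 * cj j * x j / sg x)) ^ 2 ≤ (G₀ * c) ^ 2 := by
    have e : ∑ j, (G₀ * (2 * cj j * x j / sg x)) ^ 2
        = G₀ ^ 2 / sg x ^ 2 * ∑ j, (2 * cj j * x j) ^ 2 := by
      rw [Finset.mul_sum]
      exact Finset.sum_congr rfl fun j _ => by ring
    rw [e, sum_sg, mul_pow, hc2]
    apply le_of_eq
    field_simp
  have h2 : ∑ j, (-G₀ * (2 * (ρ₁ / (ρ₁ + dsq a x)) * ((x j - ca a j) / dsq a x))) ^ 2
      ≤ (G₀ * c) ^ 2 := by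
    obtain ⟨Q, hQ⟩ : ∃ Q, Q = ρ₁ / (ρ₁ + dsq a x) := ⟨_, rfl⟩
    have hQ0 : 0 < Q := by rw [hQ]; positivity
    have hQ1 : Q ≤ 1 := by
      rw [hQ, div_le_one (by linarith)]
      linarith
    have e : ∑ j, (-G₀ * (2 * (ρ₁ / (ρ₁ + dsq a x)) * ((x j - ca a j) / dsq a x))) ^ 2
        = G₀ ^ 2 * Q ^ 2 / dsq a x ^ 2 * ∑ j, (2 * (x j - ca a j)) ^ 2 := by
      rw [Finset.mul_sum, ← hQ]
      exact Finset.sum_congr rfl fun j _ => by ring
    rw [e, sum_dsq, mul_pow, hc2]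
    have h3 : G₀ ^ 2 * Q ^ 2 / dsq a x ^ 2 * (4 * dsq a x) = G₀ ^ 2 * (4 * Q ^ 2 / dsq a x) := by
      field_simp
    rw [h3]
    apply mul_le_mul_of_nonneg_left _ (sq_nonneg _)
    have h4 : Q ^ 2 ≤ 1 := by nlinarith
    have h5 := sg_le_dsq a x
    calc 4 * Q ^ 2 / dsq a x ≤ 4 * 1 / dsq a x := by gcongr
      _ ≤ 4 * 1 / sg x := by gcongr
      _ = _ := by ring
  have h3 := two_vec (by positivity) (by positivity) h1 h2
  have h4 := two_vec (by positivity) (by positivity) h0 h3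
  unfold gZ
  refine h4.trans (le_of_eq ?_)
  have : (1 + A * m * q) * c + (G₀ * c + G₀ * c) = (1 + (A * m * q + 2 * G₀)) * c := by ring
  rw [this, mul_pow, hc2]
  ring

/-- The time derivative of the logarithm of the weight. -/
lemma Hz_td {c : ℝ → ℝ} {c' t : ℝ} (hρ : 0 < ρ₁) (hc : HasDerivAt c c' t) (hx : 0 < sg x) :
    HasDerivAt (fun τ => Hz A m q G₀ ρ₁ (c τ) x)
      (pc₁ A m q (Real.log (sg x) - Real.log (dsq (c t) x))
        * (2 * (x 2 - c t) * c' / dsq (c t) x)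
        + -G₀ * ((ρ₁ / (ρ₁ + dsq (c t) x)) / dsq (c t) x * (-(2 * (x 2 - c t) * c')))) t := by
  have hd := dsq_pos (a := c t) hx
  have h1 : HasDerivAt (fun τ => dsq (c τ) x) (-(2 * (x 2 - c t) * c')) t := by
    unfold dsq
    have h2 := ((hc.const_sub (x 2)).pow 2).const_add (x 0 ^ 2 + x 1 ^ 2)
    refine h2.congr_deriv ?_
    push_cast
    ring
  have h3 := (h1.log hd.ne').sub ((h1.const_add ρ₁).log (by linarith))
  have h4 := (h3.const_mul (-G₀)).const_add (G₀ * Real.log (sg x))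
  refine ((Hk_td hc hx).add h4).congr_deriv ?_
  have hmd : 0 < ρ₁ + dsq (c t) x := by linarith
  congr 1
  field_simp
  ring

end

variable {T : ℝ} {u : ℝ → V → V} {p : ℝ → V → ℝ}

/-- **Hoelder bound of the circulation.** -/
theorem angT (h : TS 1 T u p) (hT : 0 < T) {c : ℝ → ℝ} (hc : ContinuousOn c (Ico 0 T))
    (hcd : ∀ t ∈ Ioo 0 T, DifferentiableAt ℝ c t)
    {R μ C r₀ κ N M D : ℝ} (hR : 0 < R) (hμ : 0 < μ) (hC : 0 < C) (hr₀ : 0 < r₀) (hκ : 0 < κ)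
    {β b : ℝ → ℝ} (hβ : ContinuousOn β (Ico 0 T)) (hb : ContinuousOn b (Ico 0 T))
    (hβ0 : ∀ t ∈ Ico 0 T, 0 ≤ β t) (hb0 : ∀ t ∈ Ico 0 T, 0 ≤ b t)
    (hD1 : ∀ t ∈ Ico 0 T, ∫ s in (0 : ℝ)..t, β s ^ 2 ≤ D)
    (hD2 : ∀ t ∈ Ico 0 T, ∫ s in (0 : ℝ)..t, b s ≤ D)
    (hM : ∀ t ∈ Ico 0 T, ∀ x, sg x ≤ R ^ 2 → |circ (u t) x| ≤ M)
    (hax : ∀ t ∈ Ioo 0 T, ∀ x, 0 < sg x → sg x < R ^ 2 → Ra κ N 0 c u t x →
      -(2 - μ) * (x 2 - c t) ^ 2 - C * (√(sg x) * |x 2 - c t|)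
          - (β t * √(sg x) + b t * sg x) * dsq (c t) x
        ≤ (x 2 - c t) ^ 2 * (x 0 * u t x 0 + x 1 * u t x 1)
          - sg x * ((x 2 - c t) * (u t x 2 - deriv c t)))
    (hthin : ∀ t ∈ Ioo 0 T, ∀ x, 0 < sg x → sg x < R ^ 2 → Ra κ N 0 c u t x →
      r₀ ^ 2 ≤ dsq (c t) x →
      -2 + μ - β t * √(sg x) - b t * sg x ≤ x 0 * u t x 0 + x 1 * u t x 1)
    (hfat : ∀ t ∈ Ioo 0 T, ∀ x, 0 < sg x → sg x < R ^ 2 → Ra κ N 0 c u t x →
      dsq (c t) x < r₀ ^ 2 →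
      -C - β t * √(sg x) - b t * sg x ≤ x 0 * u t x 0 + x 1 * u t x 1) :
    ∃ A γ : ℝ, 0 ≤ A ∧ 0 < γ ∧ ∀ t ∈ Ico 0 T, ∀ x, 0 < sg x → sg x ≤ R ^ 2 →
      |circ (u t) x| ≤ A * sg x ^ γ := by
  obtain ⟨A, m, q, G₀, ρ₁, hA0, hm0, hq0, hG₀, hρ₁, hpar⟩ := ang_par (μ := μ) (C := C)
    (r₀ := r₀ ^ 2) hμ hC (by positivity)
  obtain ⟨Gm, hGm⟩ : ∃ Gm : ℝ, Gm = A * m * q + 2 * G₀ := ⟨_, rfl⟩
  have hGm0 : 0 < Gm := by rw [hGm]; positivity
  obtain ⟨g, hg⟩ : ∃ g : ℝ, g = min (μ / 4) (min κ (1 / 4)) := ⟨_, rfl⟩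
  have hg0 : 0 < g := by rw [hg]; positivity
  have hgμ : g ≤ μ / 4 := by rw [hg]; exact min_le_left _ _
  have hgκ : g ≤ κ := by rw [hg]; exact (min_le_right _ _).trans (min_le_left _ _)
  have hg4 : g ≤ 1 / 4 := by rw [hg]; exact (min_le_right _ _).trans (min_le_right _ _)
  obtain ⟨γ, hγe⟩ : ∃ γ : ℝ, γ = g / (1 + Gm) ^ 2 := ⟨_, rfl⟩
  have hγ : 0 < γ := by rw [hγe]; positivity
  have hγ1 : γ * (1 + Gm) ^ 2 = g := by rw [hγe]; field_simp
  have h4 : 4 * γ * (1 + Gm) ^ 2 ≤ μ := by linarith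
  obtain ⟨θ, hθ⟩ : ∃ θ : ℝ, θ = γ * (1 + G₀) := ⟨_, rfl⟩
  have hθ0 : 0 < θ := by rw [hθ]; positivity
  have hθg : θ ≤ g := by
    have h1 : 1 + G₀ ≤ (1 + Gm) ^ 2 := by
      have h2 : G₀ ≤ Gm := by
        have : 0 < A * m * q := by positivity
        rw [hGm]
        linarith
      nlinarith
    have := mul_le_mul_of_nonneg_left h1 hγ.le
    rw [hθ]
    linarith
  have hθκ : θ ≤ κ := hθg.trans hgκ
  have hθ2 : θ < 1 / 2 := by linarith
  have hR2 : 0 < R ^ 2 := by positivity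
  -- the barrier
  obtain ⟨K, hK⟩ : ∃ K : ℝ → V → ℝ, K = fun t x => γ * Hz A m q G₀ ρ₁ (c t) x := ⟨_, rfl⟩
  have hKe : ∀ t x, K t x = γ * Hz A m q G₀ ρ₁ (c t) x := fun t x => by rw [hK]
  have hKlow : ∀ t x, 0 < sg x → sg x ^ θ ≤ Real.exp (K t x) := fun t x hx => by
    rw [Real.rpow_def_of_pos hx, hKe]
    apply Real.exp_le_exp.2
    have h1 := (pc_bd (A := A) (m := m) (q := q)
      (θ := Real.log (sg x) - Real.log (dsq (c t) x)) hA0.le hm0.le).1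
    have hd := dsq_pos (a := c t) hx
    have h2 := Real.log_le_log hd (show dsq (c t) x ≤ ρ₁ + dsq (c t) x by linarith)
    have h3 := mul_nonneg hG₀.le (sub_nonneg.2 h2)
    have h4 : (1 + G₀) * Real.log (sg x) ≤ Hz A m q G₀ ρ₁ (c t) x := by
      unfold Hz Hk
      linarith
    have h5 := mul_le_mul_of_nonneg_left h4 hγ.le
    rw [hθ]
    linarith
  obtain ⟨A₁, hA₁⟩ : ∃ A₁ : ℝ, A₁ = A + G₀ * Real.log (R ^ 2 + ρ₁) := ⟨_, rfl⟩
  have hKup : ∀ t x, 0 < sg x → sg x ≤ R ^ 2 →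
      Real.exp (K t x) ≤ Real.exp (γ * A₁) * sg x ^ γ := fun t x hx hxR => by
    rw [Real.rpow_def_of_pos hx, hKe, ← Real.exp_add]
    apply Real.exp_le_exp.2
    have h1 := (pc_bd (A := A) (m := m) (q := q)
        (θ := Real.log (sg x) - Real.log (dsq (c t) x)) hA0.le hm0.le).2
    have h2 := (log_ratio hρ₁ (dsq_pos hx) hx (sg_le_dsq (c t) x) hxR).2
    have h3 := mul_le_mul_of_nonneg_left h2 hG₀.le
    have h4 : Hz A m q G₀ ρ₁ (c t) x ≤ A₁ + Real.log (sg x) := by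
      unfold Hz Hk
      rw [hA₁]
      linarith
    have h5 := mul_le_mul_of_nonneg_left h4 hγ.le
    linarith
  have hKc : ContinuousOn (fun z : ℝ × V => K z.1 z.2)
      (Ico 0 T ×ˢ {x | 0 < sg x ∧ sg x ≤ R ^ 2}) := by
    obtain ⟨Y, hY⟩ : ∃ Y : Set (ℝ × V), Y = Ico 0 T ×ˢ {x | 0 < sg x ∧ sg x ≤ R ^ 2} := ⟨_, rfl⟩
    rw [← hY]
    have hq : ContinuousOn (fun z : ℝ × V => dsq (c z.1) z.2) Y := by
      have h1 : ContinuousOn (fun z : ℝ × V => c z.1) Y :=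
        hc.comp continuous_fst.continuousOn fun z hz => by rw [hY] at hz; exact hz.1
      have c0 : ContinuousOn (fun z : ℝ × V => z.2 0) Y := by fun_prop
      have c1 : ContinuousOn (fun z : ℝ × V => z.2 1) Y := by fun_prop
      have c2 : ContinuousOn (fun z : ℝ × V => z.2 2) Y := by fun_prop
      unfold dsq
      exact ((c0.pow 2).add (c1.pow 2)).add ((c2.sub h1).pow 2)
    have hs : ContinuousOn (fun z : ℝ × V => sg z.2) Y :=
      (sm_sg.continuous.comp continuous_snd).continuousOn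
    have hpos : ∀ z ∈ Y, 0 < sg z.2 := fun z hz => by rw [hY] at hz; exact hz.2.1
    have hls := hs.log fun z hz => (hpos z hz).ne'
    have hlq := hq.log fun z hz => (dsq_pos (hpos z hz)).ne'
    have hlr := (continuousOn_const (c := ρ₁)).add hq |>.log fun z hz => by
      have h1 := dsq_pos (a := c z.1) (hpos z hz)
      show ρ₁ + dsq (c z.1) z.2 ≠ 0
      linarith
    rw [hK]
    unfold Hz Hk
    exact ContinuousOn.const_mul ((hls.add
      ((pc_cd (A := A) (m := m) (q := q)).continuous.comp_continuousOn (hls.sub hlq))).add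
      ((hls.const_mul G₀).add ((hlq.sub hlr).const_mul (-G₀)))) γ
  have hKr : ∀ t θ x, K t (rot θ x) = K t x := fun t θ x => by
    rw [hKe, hKe, Hz_rot]
  obtain ⟨G, hG⟩ : ∃ G : ℝ → V → ℝ, G = fun t x =>
    pc₁ A m q (Real.log (sg x) - Real.log (dsq (c t) x)) := ⟨_, rfl⟩
  obtain ⟨F, hF⟩ : ∃ F : ℝ → V → ℝ, F = fun t x =>
    pc₂ A m q (Real.log (sg x) - Real.log (dsq (c t) x)) := ⟨_, rfl⟩
  have hGe : ∀ t x, G t x = pc₁ A m q (Real.log (sg x) - Real.log (dsq (c t) x)) :=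
    fun t x => by rw [hG]
  have hFe : ∀ t x, F t x = pc₂ A m q (Real.log (sg x) - Real.log (dsq (c t) x)) :=
    fun t x => by rw [hF]
  have hKt : ∀ t ∈ Ioo 0 T, ∀ x, 0 < sg x → sg x < R ^ 2 → HasDerivAt (fun τ => K τ x)
      (γ * (G t x * (2 * (x 2 - c t) * deriv c t / dsq (c t) x)
        + -G₀ * ((ρ₁ / (ρ₁ + dsq (c t) x)) / dsq (c t) x
          * (-(2 * (x 2 - c t) * deriv c t))))) t := fun t ht x hx _ => by
    rw [hK, hG]
    exact (Hz_td hρ₁ (hcd t ht).hasDerivAt hx).const_mul γ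
  have hKj : ∀ t ∈ Ioo 0 T, ∀ x, 0 < sg x → sg x < R ^ 2 →
      Jet (K t) x (fun j => γ * gZ A m q G₀ ρ₁ (c t) x j)
        (γ * (G t x * (-2 / dsq (c t) x)
          + F t x * (4 / sg x * (1 - sg x / dsq (c t) x))
          + (G₀ * 0 + -G₀ * (2 / dsq (c t) x - 6 / (ρ₁ + dsq (c t) x)
            + 4 * dsq (c t) x / (ρ₁ + dsq (c t) x) ^ 2)))) := fun t _ x hx _ => by
    have h1 := (jet_Hz (A := A) (m := m) (q := q) (G₀ := G₀) (a := c t) hρ₁ hx).mul_left γ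
    rw [hK, hG, hF]
    exact h1
  -- constants
  obtain ⟨U, hU0, hU⟩ := h.b.u_bdd hT
  have hM0 : 0 ≤ M := (abs_nonneg _).trans (hM 0 ⟨le_rfl, hT⟩ 0 (by simp [sg]; positivity))
  obtain ⟨Q, hQ⟩ : ∃ Q : ℝ, Q = M / (R ^ 2) ^ θ + (|N| * (R ^ 2) ^ (κ - θ)
    + 2 * U * (R ^ 2) ^ (1 / 2 - θ)) := ⟨_, rfl⟩
  have q1 : 0 ≤ M / (R ^ 2) ^ θ := by positivity
  have q2 : 0 ≤ |N| * (R ^ 2) ^ (κ - θ) := by positivity
  have q3 : 0 ≤ 2 * U * (R ^ 2) ^ (1 / 2 - θ) := by positivity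
  have hQ0 : 0 ≤ Q := by rw [hQ]; positivity
  have hbd : ∀ t ∈ Ico 0 T, ∀ x, 0 < sg x → sg x ≤ R ^ 2 → (sg x = R ^ 2 ∨ t = 0) →
      |circ (u t) x| ≤ Q * Real.exp (K t x) := by
    intro t ht x hx hxR hor
    have h0 := mul_le_mul_of_nonneg_left (hKlow t x hx) hQ0
    refine le_trans ?_ h0
    have hsγ : 0 < sg x ^ θ := Real.rpow_pos_of_pos hx _
    rcases hor with h1 | h1
    · have h2 := hM t ht x hxR
      have h3 : 0 < (R ^ 2) ^ θ := Real.rpow_pos_of_pos hR2 _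
      rw [h1]
      calc |circ (u t) x| ≤ M := h2
        _ = M / (R ^ 2) ^ θ * (R ^ 2) ^ θ := by field_simp
        _ ≤ Q * (R ^ 2) ^ θ := by
          apply mul_le_mul_of_nonneg_right _ h3.le
          rw [hQ]
          linarith
    · have h2 := circ_le (u t) x
      have h3 := hU t (by rw [h1]; exact ⟨le_rfl, le_rfl⟩) x
      have e : √(sg x) = sg x ^ (1 / 2 - θ) * sg x ^ θ := by
        rw [← Real.rpow_add hx, Real.sqrt_eq_rpow]
        congr 1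
        ring
      have h5 : sg x ^ (1 / 2 - θ) ≤ (R ^ 2) ^ (1 / 2 - θ) :=
        Real.rpow_le_rpow hx.le hxR (by linarith)
      calc |circ (u t) x| ≤ 2 * √(sg x) * ‖u t x‖ := h2
        _ ≤ 2 * √(sg x) * U := by gcongr
        _ = 2 * U * sg x ^ (1 / 2 - θ) * sg x ^ θ := by rw [e]; ring
        _ ≤ 2 * U * (R ^ 2) ^ (1 / 2 - θ) * sg x ^ θ := by gcongr
        _ ≤ Q * sg x ^ θ := by
          apply mul_le_mul_of_nonneg_right _ hsγ.le
          rw [hQ]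
          linarith
  obtain ⟨κ₂, hκ₂⟩ : ∃ κ₂ : ℝ, κ₂ = 2 + 2 * G₀ + A * m * q := ⟨_, rfl⟩
  have hκ₂0 : 0 < κ₂ := by rw [hκ₂]; positivity
  obtain ⟨B, hB⟩ : ∃ B : ℝ → ℝ, B = fun t => γ * (κ₂ ^ 2 * β t ^ 2 / μ + 2 * κ₂ * b t
    + 4 * G₀ / ρ₁) := ⟨_, rfl⟩
  have hBc : ContinuousOn B (Ico 0 T) := by rw [hB]; fun_prop
  have hB0 : ∀ t ∈ Ico 0 T, 0 ≤ B t := fun t ht => by
    have := hb0 t ht
    rw [hB]
    positivity
  have key := cmpK h (S := R ^ 2) (A := Q) hT hKc hKr hKt hKj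
    (fun T' hT' ε hε => by
      obtain ⟨r, hr⟩ : ∃ r : ℝ, r = 1 / 2 - θ := ⟨_, rfl⟩
      have hr0 : 0 < r := by linarith
      refine ⟨ε ^ (1 / r), Real.rpow_pos_of_pos hε _, fun t ht x hx hxR hxδ => ?_⟩
      have h1 : sg x ^ r ≤ ε := by
        have := Real.rpow_le_rpow hx.le hxδ.le hr0.le
        rwa [← Real.rpow_mul hε.le, one_div_mul_cancel hr0.ne', Real.rpow_one] at this
      have h2 : √(sg x) = sg x ^ r * sg x ^ θ := by
        rw [← Real.rpow_add hx, hr, Real.sqrt_eq_rpow]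
        congr 1
        ring
      have h3 : 0 < sg x ^ θ := Real.rpow_pos_of_pos hx _
      calc √(sg x) = sg x ^ r * sg x ^ θ := h2
        _ ≤ ε * sg x ^ θ := mul_le_mul_of_nonneg_right h1 h3.le
        _ ≤ _ := mul_le_mul_of_nonneg_left (hKlow t x hx) hε.le)
    (fun T' hT' δ hδ => by
      refine ⟨δ ^ θ, Real.rpow_pos_of_pos hδ _, fun t ht x hδx hxR => ?_⟩
      exact (Real.rpow_le_rpow hδ.le hδx hθ0.le).trans (hKlow t x (hδ.trans_le hδx)))
    hBc hB0 hQ0 hbd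
    (fun t ht x hx hxR hAx hrec hgr => by
      have htI : t ∈ Ico 0 T := ⟨ht.1.le, ht.2⟩
      have hd := dsq_pos (a := c t) hx
      have hsd := sg_le_dsq (c t) x
      have hEp := Real.exp_pos (K t x)
      have hwd : (x 2 - c t) ^ 2 = dsq (c t) x - sg x := by
        unfold dsq sg
        ring
      have hGp : 0 < G t x := by
        rw [hGe]
        unfold pc₁
        positivity
      have hξ1 : sg x / dsq (c t) x ≤ 1 := (div_le_one hd).2 hsd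
      have hξ0 : 0 < sg x / dsq (c t) x := by positivity
      have r1 : N * sg x ^ κ < |circ (u t) x| := by
        refine lt_of_le_of_lt ?_ hAx
        have e : sg x ^ κ = sg x ^ (κ - θ) * sg x ^ θ := by
          rw [← Real.rpow_add hx]
          congr 1
          ring
        have h1 : sg x ^ (κ - θ) ≤ (R ^ 2) ^ (κ - θ) :=
          Real.rpow_le_rpow hx.le hxR.le (by linarith)
        have h2 : 0 < sg x ^ θ := Real.rpow_pos_of_pos hx _
        have h3 : 0 < sg x ^ κ := Real.rpow_pos_of_pos hx _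
        calc N * sg x ^ κ ≤ |N| * sg x ^ κ := mul_le_mul_of_nonneg_right (le_abs_self N) h3.le
          _ = |N| * sg x ^ (κ - θ) * sg x ^ θ := by rw [e]; ring
          _ ≤ |N| * (R ^ 2) ^ (κ - θ) * sg x ^ θ := by gcongr
          _ ≤ Q * sg x ^ θ := by
            apply mul_le_mul_of_nonneg_right _ h2.le
            rw [hQ]
            linarith
          _ ≤ _ := mul_le_mul_of_nonneg_left (hKlow t x hx) hQ0
      have r2 : ∀ t' ∈ Icc 0 t, ∀ y, sg y ≤ sg x → dsq (c t) x ≤ dsq (c t') y →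
          |circ (u t') y| ≤ |circ (u t) x| := by
        intro t' ht' y hyx hyd
        rcases eq_or_lt_of_le (sg_nonneg y) with hy | hy
        · have h0 : y 0 = 0 ∧ y 1 = 0 := by
            unfold sg at hy
            constructor <;> nlinarith [sq_nonneg (y 0), sq_nonneg (y 1)]
          have h1 : circ (u t') y = 0 := by
            unfold circ
            rw [h0.1, h0.2]
            ring
          rw [h1, abs_zero]
          exact abs_nonneg _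
        · have h1 := hrec t' ht' y hy (hyx.trans hxR.le)
          have hdy := dsq_pos (a := c t') hy
          have hls := Real.log_le_log hy hyx
          have hld := Real.log_le_log hd hyd
          have h2 : Real.log (sg y) - Real.log (dsq (c t') y)
              ≤ Real.log (sg x) - Real.log (dsq (c t) x) := by linarith
          have h5 : Real.log (dsq (c t) x) - Real.log (ρ₁ + dsq (c t) x)
              ≤ Real.log (dsq (c t') y) - Real.log (ρ₁ + dsq (c t') y) := by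
            have h6 : dsq (c t) x * (ρ₁ + dsq (c t') y) ≤ dsq (c t') y * (ρ₁ + dsq (c t) x) := by
              nlinarith
            have h7 := Real.log_le_log (mul_pos hd (by linarith)) h6
            rw [Real.log_mul hd.ne' (by linarith), Real.log_mul hdy.ne' (by linarith)] at h7
            linarith
          have h3 : Real.exp (K t' y) ≤ Real.exp (K t x) := by
            apply Real.exp_le_exp.2
            rw [hKe, hKe]
            apply mul_le_mul_of_nonneg_left _ hγ.le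
            unfold Hz Hk
            have h8 := pc_mono hA0.le hm0.le hq0.le h2
            have h9 := mul_le_mul_of_nonneg_left hls hG₀.le
            have h10 := mul_le_mul_of_nonneg_left h5 hG₀.le
            linarith
          have h4 := mul_le_mul_of_nonneg_left h3 (abs_nonneg (circ (u t) x))
          exact le_of_mul_le_mul_right (h1.trans h4) hEp
      obtain ⟨b₁, hb₁, hgr'⟩ := hgr
      have hQ1 : ρ₁ / (ρ₁ + dsq (c t) x) ≤ 1 := by
        rw [div_le_one (by linarith)]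
        linarith
      have hQ0 : 0 < ρ₁ / (ρ₁ + dsq (c t) x) := by positivity
      have r3 : 0 < circ (u t) x * (x 0 * pd 0 (circ (u t)) x + x 1 * pd 1 (circ (u t)) x) := by
        have e : circ (u t) x * (x 0 * pd 0 (circ (u t)) x + x 1 * pd 1 (circ (u t)) x)
            = b₁ * γ * (x 0 * gZ A m q G₀ ρ₁ (c t) x 0 + x 1 * gZ A m q G₀ ρ₁ (c t) x 1) := by
          linear_combination x 0 * hgr' 0 + x 1 * hgr' 1
        rw [e, rad_gZ hx, ← hGe]
        have h1 : 0 ≤ 2 * G t x * (1 - sg x / dsq (c t) x) :=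
          mul_nonneg (by positivity) (by linarith)
        have h2 : ρ₁ / (ρ₁ + dsq (c t) x) * (sg x / dsq (c t) x) ≤ 1 := by
          calc ρ₁ / (ρ₁ + dsq (c t) x) * (sg x / dsq (c t) x) ≤ 1 * 1 := by gcongr
            _ = 1 := one_mul 1
        have h3 : 0 ≤ 2 * G₀ * (1 - ρ₁ / (ρ₁ + dsq (c t) x) * (sg x / dsq (c t) x)) :=
          mul_nonneg (by positivity) (by linarith)
        have h4 : 0 < 2 + 2 * G t x * (1 - sg x / dsq (c t) x)
            + 2 * G₀ * (1 - ρ₁ / (ρ₁ + dsq (c t) x) * (sg x / dsq (c t) x)) := by linarith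
        exact mul_pos (mul_pos hb₁ hγ) h4
      have r4 : (x 2 - c t) * (circ (u t) x * pd 2 (circ (u t)) x) ≤ 0 := by
        rw [hgr' 2, ax_gZ (x 2 - c t) rfl, ← hGe]
        have e : (x 2 - c t) * (b₁ * (γ * -(2 * (G t x + G₀ * (ρ₁ / (ρ₁ + dsq (c t) x)))
            * (x 2 - c t) / dsq (c t) x)))
            = -(b₁ * γ * (2 * (G t x + G₀ * (ρ₁ / (ρ₁ + dsq (c t) x))))
              * (x 2 - c t) ^ 2 / dsq (c t) x) := by ring
        rw [e]
        have : 0 ≤ b₁ * γ * (2 * (G t x + G₀ * (ρ₁ / (ρ₁ + dsq (c t) x))))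
              * (x 2 - c t) ^ 2 / dsq (c t) x := by positivity
        linarith
      have hRk : Ra κ N 0 c u t x := ⟨r1, r2, r3, r4⟩
      have hsq : 0 < √(sg x) := Real.sqrt_pos.2 hx
      have hs2 : √(sg x) ^ 2 = sg x := Real.sq_sqrt hx.le
      have he0 : 0 ≤ β t * √(sg x) + b t * sg x := by
        have := hβ0 t htI
        have := hb0 t htI
        positivity
      have hang := cone_ang hx hsd hwd (hax t ht x hx hxR hRk)
      have hexpη : Real.exp (q * (Real.log (sg x) - Real.log (dsq (c t) x)))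
          = (sg x / dsq (c t) x) ^ q := by
        rw [Real.rpow_def_of_pos hξ0, Real.log_div hx.ne' hd.ne']
        congr 1
        ring
      have hGη : G t x = A * m * q * (sg x / dsq (c t) x) ^ q
          * Real.exp (-(m * (sg x / dsq (c t) x) ^ q)) := by
        rw [hGe]
        unfold pc₁
        rw [hexpη]
      have hFη : F t x = G t x * (q * (1 - m * (sg x / dsq (c t) x) ^ q)) := by
        rw [hFe, hGe]
        unfold pc₂
        rw [hexpη]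
      have hS := hpar (sg x / dsq (c t) x) (dsq (c t) x) (β t * √(sg x) + b t * sg x)
        (x 0 * u t x 0 + x 1 * u t x 1) ((x 2 - c t) * (u t x 2 - deriv c t)) (G t x) hξ0 hξ1 hd he0
        hGη hang
        (fun h => by
          have := hfat t ht x hx hxR hRk h
          linarith)
        (fun h => by
          have := hthin t ht x hx hxR hRk h
          linarith)
      rw [← hFη, ← hκ₂] at hS
      have hG2 := gZ_sq (A := A) (m := m) (q := q) (a := c t) hA0.le hm0.le hq0.le hG₀.le hρ₁ hx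
      rw [← hGm] at hG2
      have hineq := cone_ineq hx hμ hS hG2 hγ h4
      have hid := ang_id (A := A) (m := m) (q := q) (G₀ := G₀) hρ₁ hx (deriv c t) (G t x) (F t x)
        (u t x) (hGe t x) (hFe t x)
      have hE : G₀ * (4 * ρ₁ / (ρ₁ + dsq (c t) x) ^ 2) ≤ 4 * G₀ / ρ₁ := by
        have h1 : 4 * ρ₁ / (ρ₁ + dsq (c t) x) ^ 2 ≤ 4 / ρ₁ := by
          rw [div_le_div_iff₀ (by positivity) hρ₁]
          nlinarith
        calc G₀ * (4 * ρ₁ / (ρ₁ + dsq (c t) x) ^ 2) ≤ G₀ * (4 / ρ₁) :=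
              mul_le_mul_of_nonneg_left h1 hG₀.le
          _ = _ := by ring
      have hineq' := add_le_add hineq hE
      have h1 := mul_le_mul_of_nonneg_left hineq' hγ.le
      have e1 : ∑ j, (γ * gZ A m q G₀ ρ₁ (c t) x j) ^ 2
          = γ ^ 2 * ∑ j, gZ A m q G₀ ρ₁ (c t) x j ^ 2 := by
        rw [Finset.mul_sum]
        exact Finset.sum_congr rfl fun j _ => by ring
      have e2 : ∑ j, u t x j * (γ * gZ A m q G₀ ρ₁ (c t) x j)
          = γ * ∑ j, u t x j * gZ A m q G₀ ρ₁ (c t) x j := by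
        rw [Finset.mul_sum]
        exact Finset.sum_congr rfl fun j _ => by ring
      have e3 : B t = γ * (κ₂ ^ 2 * β t ^ 2 / μ + 2 * κ₂ * b t + 4 * G₀ / ρ₁) := by rw [hB]
      have e7 : 2 * (x 0 * (γ * gZ A m q G₀ ρ₁ (c t) x 0) + x 1 * (γ * gZ A m q G₀ ρ₁ (c t) x 1))
          / sg x
          = γ * (2 * (x 0 * gZ A m q G₀ ρ₁ (c t) x 0 + x 1 * gZ A m q G₀ ρ₁ (c t) x 1) / sg x) := by
        ring
      rw [e1, e2, e3, e7]
      have hidγ := congrArg (fun z => γ * z) hid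
      linarith)
  obtain ⟨I, hI⟩ : ∃ I : ℝ, I = γ * (κ₂ ^ 2 / μ * D + 2 * κ₂ * D + 4 * G₀ / ρ₁ * T) :=
    ⟨_, rfl⟩
  refine ⟨Q * Real.exp I * Real.exp (γ * A₁), γ, by positivity, hγ, fun t ht x hx hxR => ?_⟩
  have h1 := key t ht x hx hxR
  have h2 := hKup t x hx hxR
  have h3 : ∫ s in (0 : ℝ)..t, B s ≤ I := by
    have hsub : uIcc 0 t ⊆ Ico 0 T := by
      rw [uIcc_of_le ht.1]
      exact fun q hq => ⟨hq.1, hq.2.trans_lt ht.2⟩
    have hB' : B = fun s => γ * (κ₂ ^ 2 / μ * β s ^ 2 + 2 * κ₂ * b s + 4 * G₀ / ρ₁) := by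
      rw [hB]
      funext s
      ring
    have i1 : IntervalIntegrable (fun s => κ₂ ^ 2 / μ * β s ^ 2) volume 0 t :=
      (((hβ.pow 2).const_mul _).mono hsub).intervalIntegrable
    have i2 : IntervalIntegrable (fun s => 2 * κ₂ * b s) volume 0 t :=
      ((hb.const_mul _).mono hsub).intervalIntegrable
    rw [hB', intervalIntegral.integral_const_mul,
      intervalIntegral.integral_add (i1.add i2) (by simp), intervalIntegral.integral_add i1 i2,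
      intervalIntegral.integral_const_mul, intervalIntegral.integral_const_mul,
      intervalIntegral.integral_const, hI, smul_eq_mul, sub_zero]
    have h4 := hD1 t ht
    have h5 := hD2 t ht
    have h6 := ht.2.le
    have h7 : t * (4 * G₀ / ρ₁) ≤ 4 * G₀ / ρ₁ * T := by
      rw [mul_comm]
      gcongr
    gcongr
  have h4 : Real.exp (∫ s in (0 : ℝ)..t, B s) ≤ Real.exp I := Real.exp_le_exp.2 h3
  have hEp := Real.exp_pos (K t x)
  calc |circ (u t) x| ≤ Q * Real.exp (∫ s in (0 : ℝ)..t, B s) * Real.exp (K t x) := h1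
    _ ≤ Q * Real.exp I * Real.exp (K t x) := by gcongr
    _ ≤ Q * Real.exp I * (Real.exp (γ * A₁) * sg x ^ γ) := by gcongr
    _ = _ := by ring


end Pool.Agent.H58.NSP
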