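import Pool.Agent.H58.NSP.Top

/-!
Axisymmetric flows (helper58): comparison of the circulation with a time dependent barrier which
depends on the distance to a moving point of the axis.
-/

set_option autoImplicit false

open MeasureTheory Set Metric Filter Topology
open scoped ContDiff

namespace Pool.Agent.H58.NSP

open H459R3.NS W221.NS Pool.Agent.TH305.DR Pool.Agent.TH305.AX

variable {ν T : ℝ} {u : ℝ → V → V} {p : ℝ → V → ℝ}

lemma norm_le_of_dsq {a S R : ℝ} {x : V} (h : dsq a x ≤ S) (ha : |a| ≤ R) :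
    ‖x‖ ≤ √S + R := by
  have hR : 0 ≤ R := (abs_nonneg a).trans ha
  rw [pi_norm_le_iff_of_nonneg (by positivity)]
  have h0 : |x 0| ≤ √S := by
    apply Real.abs_le_sqrt
    unfold dsq at h
    nlinarith [sq_nonneg (x 1), sq_nonneg (x 2 - a)]
  have h1 : |x 1| ≤ √S := by
    apply Real.abs_le_sqrt
    unfold dsq at h
    nlinarith [sq_nonneg (x 0), sq_nonneg (x 2 - a)]
  have h2 : |x 2 - a| ≤ √S := by
    apply Real.abs_le_sqrt
    unfold dsq at h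
    nlinarith [sq_nonneg (x 0), sq_nonneg (x 1)]
  have h3 : |x 2| ≤ √S + R := by
    calc |x 2| = |(x 2 - a) + a| := by ring_nf
      _ ≤ |x 2 - a| + |a| := abs_add_le _ _
      _ ≤ √S + R := by linarith
  intro i
  rw [Real.norm_eq_abs]
  fin_cases i
  · exact h0.trans (by linarith)
  · exact h1.trans (by linarith)
  · exact h3

/-- Comparison of the circulation with a time dependent barrier. -/
theorem cmpS (hν : 0 < ν) (h : AxSol ν T u p) {S A : ℝ} (hS : 0 < S) {Φ : ℝ → ℝ → ℝ}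
    {a : ℝ → ℝ} (hac : ContinuousOn a (Ico 0 T)) (had : ∀ t ∈ Ioo 0 T, DifferentiableAt ℝ a t)
    (hΦ : ∀ t ∈ Ico 0 T, ∀ σ ∈ Ioc 0 S, 0 < Φ t σ)
    (hΦc : ContinuousOn (fun z : ℝ × ℝ => Φ z.1 z.2) (Ico 0 T ×ˢ Ioc 0 S))
    (h0 : ∀ T' < T, ∀ ε > 0, ∃ δ > 0, ∀ t ∈ Icc 0 T', ∀ σ ∈ Ioc 0 S, σ < δ → √σ ≤ ε * Φ t σ)
    {B : ℝ → ℝ} (hB : ContinuousOn B (Ico 0 T)) (hB0 : ∀ t ∈ Ico 0 T, 0 ≤ B t)
    (hbd : ∀ t ∈ Ico 0 T, ∀ x, dsq (a t) x = S → |circ (u t) x| ≤ A * Φ t S)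
    (hin : ∀ x, 0 < dsq (a 0) x → dsq (a 0) x ≤ S → |circ (u 0) x| ≤ A * Φ 0 (dsq (a 0) x))
    (hmaj : ∀ t ∈ Ioo 0 T, ∀ x, 0 < sg x → dsq (a t) x < S →
      A * Φ t (dsq (a t) x) < |circ (u t) x| →
      (∀ t' ∈ Icc 0 t, ∀ y, 0 < dsq (a t') y → dsq (a t') y ≤ S →
        |circ (u t') y| * Φ t (dsq (a t) x) ≤ |circ (u t) x| * Φ t' (dsq (a t') y)) →
      ∃ χ χ₁ c₂ d ζ, Maj Φ t (dsq (a t) x) χ χ₁ c₂ d ζ ∧
        4 * ν * dsq (a t) x * c₂
          - 2 * (x 0 * u t x 0 + x 1 * u t x 1 + (x 2 - a t) * (u t x 2 - deriv a t) - ν)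
            * χ₁ (dsq (a t) x)
          ≤ d + B t * Φ t (dsq (a t) x)) :
    ∀ t ∈ Ico 0 T, ∀ x, 0 < dsq (a t) x → dsq (a t) x ≤ S →
      |circ (u t) x| ≤ A * Real.exp (∫ r in (0 : ℝ)..t, B r) * Φ t (dsq (a t) x) := by
  intro t₀ ht₀ x₀ hx0 hxS
  by_contra hcon
  push Not at hcon
  obtain ⟨b, hb⟩ : ∃ b : ℝ → ℝ, b = fun τ => ∫ r in (0 : ℝ)..τ, B r := ⟨_, rfl⟩
  have hbt₀ : (∫ r in (0 : ℝ)..t₀, B r) = b t₀ := by rw [hb]
  rw [hbt₀] at hcon
  have hb0 : b 0 = 0 := by rw [hb]; simp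
  have hI : ∀ t ∈ Icc 0 t₀, t ∈ Ico 0 T := fun t ht => ⟨ht.1, ht.2.trans_lt ht₀.2⟩
  have hbn : ∀ t ∈ Icc 0 t₀, 0 ≤ b t := fun t ht => by
    rw [hb]
    exact prim_nonneg hB0 ⟨ht.1, ht.2.trans_lt ht₀.2⟩
  have hbint : ∀ t ∈ Icc 0 t₀, ∀ t' ∈ Icc 0 t, b t' ≤ b t := fun t ht t' ht' => by
    have hii : ∀ r s : ℝ, r ∈ Icc 0 t → s ∈ Icc 0 t → IntervalIntegrable B volume r s := by
      intro r s hr hs
      apply ContinuousOn.intervalIntegrable
      apply hB.mono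
      intro q hq
      have h1 : q ∈ Icc 0 t := (convex_Icc 0 t).ordConnected.uIcc_subset hr hs hq
      exact ⟨h1.1, h1.2.trans_lt (hI t ht).2⟩
    rw [hb]
    show (∫ r in (0 : ℝ)..t', B r) ≤ ∫ r in (0 : ℝ)..t, B r
    have ht0 : (0 : ℝ) ∈ Icc 0 t := ⟨le_rfl, ht.1⟩
    have htt : t ∈ Icc 0 t := ⟨ht.1, le_rfl⟩
    rw [← intervalIntegral.integral_add_adjacent_intervals (hii 0 t' ht0 ht') (hii t' t ht' htt)]
    have : 0 ≤ ∫ r in t'..t, B r := by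
      apply intervalIntegral.integral_nonneg ht'.2
      intro q hq
      exact hB0 q ⟨ht'.1.trans hq.1, hq.2.trans_lt (hI t ht).2⟩
    linarith
  have hψx : 0 < Φ t₀ (dsq (a t₀) x₀) := hΦ _ ht₀ _ ⟨hx0, hxS⟩
  have hT0 : (0 : ℝ) ∈ Ico 0 T := ⟨le_rfl, ht₀.1.trans_lt ht₀.2⟩
  have hA : 0 ≤ A := by
    obtain ⟨y, hy⟩ : ∃ y, y = x₀ + (a 0 - a t₀) • e2 := ⟨_, rfl⟩
    have hyq : dsq (a 0) y = dsq (a t₀) x₀ := by rw [hy, dsq_shift]
    have hψ0 : 0 < Φ 0 (dsq (a 0) y) := hΦ _ hT0 _ (by rw [hyq]; exact ⟨hx0, hxS⟩)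
    have h1 := (abs_nonneg _).trans (hin y (by rw [hyq]; exact hx0) (by rw [hyq]; exact hxS))
    by_contra h2
    push Not at h2
    nlinarith [mul_neg_of_neg_of_pos h2 hψ0]
  have ht00 : 0 < t₀ := by
    rcases eq_or_lt_of_le ht₀.1 with h1 | h1
    · rw [← h1, hb0, Real.exp_zero, mul_one] at hcon
      rw [← h1] at hx0 hxS
      exact absurd (hin x₀ hx0 hxS) (not_le.2 hcon)
    · exact h1
  obtain ⟨r₀, hr₀⟩ : ∃ r₀ : ℝ, r₀ = |circ (u t₀) x₀| * Real.exp (-b t₀) / Φ t₀ (dsq (a t₀) x₀) :=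
    ⟨_, rfl⟩
  have hr₀A : A < r₀ := by
    rw [hr₀, lt_div_iff₀ hψx, Real.exp_neg, ← div_eq_mul_inv, lt_div_iff₀ (Real.exp_pos _)]
    linarith
  have hr₀0 : 0 < r₀ := by linarith
  obtain ⟨ε, hε, hε2⟩ : ∃ ε : ℝ, 0 < ε ∧ A < r₀ * Real.exp (-(ε * t₀)) := by
    refine ⟨(1 - A / r₀) / (2 * t₀), ?_, ?_⟩
    · apply div_pos _ (by positivity)
      have : A / r₀ < 1 := (div_lt_one hr₀0).2 hr₀A
      linarith
    · have e1 : (1 - A / r₀) / (2 * t₀) * t₀ = (1 - A / r₀) / 2 := by field_simp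
      rw [e1]
      have h1 : 1 - (1 - A / r₀) / 2 ≤ Real.exp (-((1 - A / r₀) / 2)) := by
        have := Real.add_one_le_exp (-((1 - A / r₀) / 2))
        linarith
      have h2 : r₀ * (1 - (1 - A / r₀) / 2) ≤ r₀ * Real.exp (-((1 - A / r₀) / 2)) := by gcongr
      have h3 : r₀ * (1 - (1 - A / r₀) / 2) = (r₀ + A) / 2 := by
        field_simp
        ring
      linarith
  obtain ⟨ex, hex⟩ : ∃ ex : ℝ → ℝ, ex = fun τ => Real.exp (-b τ - ε * τ) := ⟨_, rfl⟩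
  have hexp : ∀ τ, 0 < ex τ := fun τ => by rw [hex]; exact Real.exp_pos _
  have hex1 : ∀ τ ∈ Icc 0 t₀, ex τ ≤ 1 := fun τ hτ => by
    rw [hex]
    apply Real.exp_le_one_iff.2
    have h1 := hbn τ hτ
    have h2 : 0 ≤ ε * τ := mul_nonneg hε.le hτ.1
    linarith
  have hexm : ∀ t ∈ Icc 0 t₀, ∀ t' ∈ Icc 0 t, ex t ≤ ex t' := fun t ht t' ht' => by
    rw [hex]
    apply Real.exp_le_exp.2
    have h1 := hbint t ht t' ht'
    have h2 : ε * t' ≤ ε * t := mul_le_mul_of_nonneg_left ht'.2 hε.le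
    linarith
  obtain ⟨F, hF⟩ : ∃ F : ℝ × V → ℝ, F = fun z => |circ (u z.1) z.2| * ex z.1 /
    Φ z.1 (dsq (a z.1) z.2) := ⟨_, rfl⟩
  obtain ⟨F₀, hF₀⟩ : ∃ F₀ : ℝ, F₀ = F (t₀, x₀) := ⟨_, rfl⟩
  have hF₀A : A < F₀ := by
    refine hε2.trans_le (le_of_eq ?_)
    rw [hF₀, hF, hr₀, hex]
    show _ = |circ (u t₀) x₀| * Real.exp (-b t₀ - ε * t₀) / Φ t₀ (dsq (a t₀) x₀)
    rw [sub_eq_add_neg, Real.exp_add]
    ring
  have hF₀0 : 0 < F₀ := by linarith
  obtain ⟨U, hU0, hU⟩ := u_bdd h ht₀.2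
  -- a simple bound of F
  have hFle : ∀ t ∈ Icc 0 t₀, ∀ y, 0 < dsq (a t) y → dsq (a t) y ≤ S →
      F (t, y) ≤ 2 * √(dsq (a t) y) * ‖u t y‖ / Φ t (dsq (a t) y) := by
    intro t ht y hy0 hyS
    have hψy : 0 < Φ t (dsq (a t) y) := hΦ _ (hI t ht) _ ⟨hy0, hyS⟩
    rw [hF]
    show |circ (u t) y| * ex t / Φ t (dsq (a t) y) ≤ _
    have h1 := circ_le (u t) y
    have h3 : 2 * √(sg y) * ‖u t y‖ ≤ 2 * √(dsq (a t) y) * ‖u t y‖ := by
      have := Real.sqrt_le_sqrt (sg_le_dsq (a t) y)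
      gcongr
    have h2 : |circ (u t) y| * ex t ≤ |circ (u t) y| * 1 := by
      have := hex1 t ht
      gcongr
    exact div_le_div_of_nonneg_right (by linarith) hψy.le
  -- near the point of the axis
  obtain ⟨δ, hδ, hδF⟩ : ∃ δ : ℝ, 0 < δ ∧ ∀ t ∈ Icc 0 t₀, ∀ y, 0 < dsq (a t) y →
      dsq (a t) y ≤ S → dsq (a t) y < δ → F (t, y) < F₀ := by
    obtain ⟨δ, hδ, hs⟩ := h0 t₀ ht₀.2 (F₀ / (2 * U + 1) / 2) (by positivity)
    refine ⟨δ, hδ, fun t ht y hy0 hyS hyδ => ?_⟩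
    have h3 := hs t ht (dsq (a t) y) ⟨hy0, hyS⟩ hyδ
    have hψy : 0 < Φ t (dsq (a t) y) := hΦ _ (hI t ht) _ ⟨hy0, hyS⟩
    refine (hFle t ht y hy0 hyS).trans_lt ?_
    rw [div_lt_iff₀ hψy]
    have h4 := hU t ht y
    have h5 : F₀ / (2 * U + 1) / 2 * (2 * U + 1) = F₀ / 2 := by field_simp
    calc 2 * √(dsq (a t) y) * ‖u t y‖ ≤ 2 * √(dsq (a t) y) * U := by gcongr
      _ = √(dsq (a t) y) * (2 * U) := by ring
      _ ≤ √(dsq (a t) y) * (2 * U + 1) := by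
        have := Real.sqrt_nonneg (dsq (a t) y)
        gcongr
        linarith
      _ ≤ F₀ / (2 * U + 1) / 2 * Φ t (dsq (a t) y) * (2 * U + 1) := by gcongr
      _ = F₀ / (2 * U + 1) / 2 * (2 * U + 1) * Φ t (dsq (a t) y) := by ring
      _ = F₀ / 2 * Φ t (dsq (a t) y) := by rw [h5]
      _ < F₀ * Φ t (dsq (a t) y) := by
        apply mul_lt_mul_of_pos_right _ hψy
        linarith
  obtain ⟨δ', hδ', hδ'0, hδ'S, hδ'δ⟩ : ∃ δ' : ℝ, δ' = min δ S ∧ 0 < δ' ∧ δ' ≤ S ∧ δ' ≤ δ :=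
    ⟨_, rfl, lt_min hδ hS, min_le_right _ _, min_le_left _ _⟩
  -- the compact set
  have hac₀ : ContinuousOn a (Icc 0 t₀) := hac.mono hI
  obtain ⟨Ra, hRa⟩ := isCompact_Icc.exists_bound_of_continuousOn hac₀
  obtain ⟨R, hR⟩ : ∃ R : ℝ, R = √S + Ra := ⟨_, rfl⟩
  have hqc : ContinuousOn (fun z : ℝ × V => dsq (a z.1) z.2)
      (Icc 0 t₀ ×ˢ closedBall (0 : V) R) := by
    have h1 : ContinuousOn (fun z : ℝ × V => a z.1) (Icc 0 t₀ ×ˢ closedBall (0 : V) R) :=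
      hac₀.comp continuous_fst.continuousOn fun z hz => hz.1
    have c0 : ContinuousOn (fun z : ℝ × V => z.2 0) (Icc 0 t₀ ×ˢ closedBall (0 : V) R) := by
      fun_prop
    have c1 : ContinuousOn (fun z : ℝ × V => z.2 1) (Icc 0 t₀ ×ˢ closedBall (0 : V) R) := by
      fun_prop
    have c2 : ContinuousOn (fun z : ℝ × V => z.2 2) (Icc 0 t₀ ×ˢ closedBall (0 : V) R) := by
      fun_prop
    unfold dsq
    exact ((c0.pow 2).add (c1.pow 2)).add ((c2.sub h1).pow 2)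
  obtain ⟨Kc, hKc⟩ : ∃ Kc : Set (ℝ × V), Kc = (Icc 0 t₀ ×ˢ closedBall (0 : V) R) ∩
      (fun z : ℝ × V => dsq (a z.1) z.2) ⁻¹' Icc δ' S := ⟨_, rfl⟩
  have hKcc : IsCompact Kc := by
    have hcomp : IsCompact (Icc 0 t₀ ×ˢ closedBall (0 : V) R) :=
      isCompact_Icc.prod (isCompact_closedBall _ _)
    rw [hKc]
    exact hcomp.of_isClosed_subset
      (hqc.preimage_isClosed_of_isClosed hcomp.isClosed isClosed_Icc) inter_subset_left
  have hmem : ∀ t ∈ Icc 0 t₀, ∀ y, 0 < dsq (a t) y → dsq (a t) y ≤ S → F₀ ≤ F (t, y) →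
      (t, y) ∈ Kc := by
    intro t ht y hy0 hyS hge
    have h1 : δ' ≤ dsq (a t) y := by
      by_contra hlt
      push Not at hlt
      exact absurd (hδF t ht y hy0 hyS (hlt.trans_le hδ'δ)) (not_lt.2 hge)
    have h2 : ‖y‖ ≤ R := by
      rw [hR]
      exact norm_le_of_dsq hyS (by
        have := hRa t ht
        rwa [Real.norm_eq_abs] at this)
    rw [hKc]
    exact ⟨⟨ht, by rw [mem_closedBall, dist_zero_right]; exact h2⟩, h1, hyS⟩
  have hFc : ContinuousOn F Kc := by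
    have hsub : ∀ z ∈ Kc, z.1 ∈ Icc 0 t₀ ∧ dsq (a z.1) z.2 ∈ Ioc 0 S := by
      intro z hz
      rw [hKc] at hz
      exact ⟨hz.1.1, hδ'0.trans_le hz.2.1, hz.2.2⟩
    have c1 : ContinuousOn (fun z : ℝ × V => |circ (u z.1) z.2|) Kc :=
      ((circ_cont h).mono fun z hz => ⟨⟨(hsub z hz).1.1, (hsub z hz).1.2.trans_lt ht₀.2⟩,
        trivial⟩).abs
    have c2 : ContinuousOn ex (Icc 0 t₀) := by
      rw [hex, hb]
      exact (((prim_cont hB ht₀).neg).sub (by fun_prop)).rexp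
    have c3 : ContinuousOn (fun z : ℝ × V => ex z.1) Kc :=
      c2.comp continuous_fst.continuousOn fun z hz => (hsub z hz).1
    have hqK : ContinuousOn (fun z : ℝ × V => dsq (a z.1) z.2) Kc :=
      hqc.mono (by rw [hKc]; exact inter_subset_left)
    have c4 : ContinuousOn (fun z : ℝ × V => Φ z.1 (dsq (a z.1) z.2)) Kc :=
      hΦc.comp (f := fun z : ℝ × V => (z.1, dsq (a z.1) z.2))
        (continuous_fst.continuousOn.prodMk hqK)
        fun z hz => ⟨hI _ (hsub z hz).1, (hsub z hz).2⟩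
    rw [hF]
    exact (c1.mul c3).div c4 fun z hz => (hΦ _ (hI _ (hsub z hz).1) _ (hsub z hz).2).ne'
  have hmem₀ : (t₀, x₀) ∈ Kc := hmem t₀ ⟨ht00.le, le_rfl⟩ x₀ hx0 hxS hF₀.le
  obtain ⟨⟨t, x⟩, htx, hmx⟩ := hKcc.exists_isMaxOn ⟨_, hmem₀⟩ hFc
  have hFtx : F₀ ≤ F (t, x) := by
    rw [hF₀]
    exact hmx hmem₀
  have htx' := htx
  rw [hKc] at htx'
  obtain ⟨⟨ht, -⟩, hδx, hxS'⟩ := htx'
  simp only at ht hδx hxS'
  have hx0' : 0 < dsq (a t) x := hδ'0.trans_le hδx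
  have hglob : ∀ t' ∈ Icc 0 t₀, ∀ y, 0 < dsq (a t') y → dsq (a t') y ≤ S →
      F (t', y) ≤ F (t, x) := by
    intro t' ht' y hy0 hyS
    rcases le_or_gt F₀ (F (t', y)) with h1 | h1
    · exact hmx (hmem t' ht' y hy0 hyS h1)
    · exact h1.le.trans hFtx
  have hψx' : 0 < Φ t (dsq (a t) x) := hΦ _ (hI t ht) _ ⟨hx0', hxS'⟩
  have ht0 : 0 < t := by
    rcases eq_or_lt_of_le ht.1 with h1 | h1
    · exfalso
      have h2 : F (t, x) ≤ A := by
        rw [← h1] at hψx' hx0' hxS'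
        rw [hF, ← h1]
        show |circ (u 0) x| * ex 0 / Φ 0 (dsq (a 0) x) ≤ A
        rw [div_le_iff₀ hψx']
        have h3 := hin x hx0' hxS'
        have h4 : |circ (u 0) x| * ex 0 ≤ |circ (u 0) x| * 1 := by
          have := hex1 0 ⟨le_rfl, ht00.le⟩
          gcongr
        linarith
      linarith
    · exact h1
  have htT : t ∈ Ioo 0 T := ⟨ht0, ht.2.trans_lt ht₀.2⟩
  have hxlt : dsq (a t) x < S := by
    rcases eq_or_lt_of_le hxS' with h1 | h1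
    · exfalso
      have h2 : F (t, x) ≤ A := by
        rw [hF]
        show |circ (u t) x| * ex t / Φ t (dsq (a t) x) ≤ A
        rw [div_le_iff₀ hψx']
        have h3 := hbd t (Ioo_subset_Ico_self htT) x h1
        rw [← h1] at h3
        have h4 : |circ (u t) x| * ex t ≤ |circ (u t) x| * 1 := by
          have := hex1 t ht
          gcongr
        linarith
      linarith
    · exact h1
  have hne : circ (u t) x ≠ 0 := by
    intro h1
    have h2 : F (t, x) = 0 := by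
      rw [hF]
      show |circ (u t) x| * ex t / Φ t (dsq (a t) x) = 0
      rw [h1]
      simp
    linarith
  have hsx0 : 0 < sg x := by
    rcases eq_or_lt_of_le (sg_nonneg x) with h1 | h1
    · exfalso
      apply hne
      have h2 : x 0 = 0 ∧ x 1 = 0 := by
        unfold sg at h1
        constructor <;> nlinarith [sq_nonneg (x 0), sq_nonneg (x 1)]
      unfold circ
      rw [h2.1, h2.2]
      ring
    · exact h1
  have hbig : A * Φ t (dsq (a t) x) < |circ (u t) x| := by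
    have h1 : A < |circ (u t) x| * ex t / Φ t (dsq (a t) x) := by
      have h2 : A < F (t, x) := by linarith
      rw [hF] at h2
      exact h2
    rw [lt_div_iff₀ hψx'] at h1
    have h4 : |circ (u t) x| * ex t ≤ |circ (u t) x| * 1 := by
      have := hex1 t ht
      gcongr
    linarith
  have hrec : ∀ t' ∈ Icc 0 t, ∀ y, 0 < dsq (a t') y → dsq (a t') y ≤ S →
      |circ (u t') y| * Φ t (dsq (a t) x) ≤ |circ (u t) x| * Φ t' (dsq (a t') y) := by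
    intro t' ht' y hy0 hyS
    have htt : t' ∈ Icc 0 t₀ := ⟨ht'.1, ht'.2.trans ht.2⟩
    have h1 := hglob t' htt y hy0 hyS
    have hψy : 0 < Φ t' (dsq (a t') y) := hΦ _ (hI t' htt) _ ⟨hy0, hyS⟩
    rw [hF] at h1
    have h2 : |circ (u t') y| * ex t' / Φ t' (dsq (a t') y)
      ≤ |circ (u t) x| * ex t / Φ t (dsq (a t) x) := h1
    rw [div_le_div_iff₀ hψy hψx'] at h2
    have h3 := hexp t'
    have h4 := hexm t ht t' ht'
    have h5 : |circ (u t) x| * ex t * Φ t' (dsq (a t') y)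
        ≤ |circ (u t) x| * ex t' * Φ t' (dsq (a t') y) := by
      have := abs_nonneg (circ (u t) x)
      gcongr
    by_contra h6
    push Not at h6
    have h7 := mul_lt_mul_of_pos_right h6 h3
    linarith
  have htop : ∀ y, 0 < dsq (a t) y → dsq (a t) y ≤ S →
      |circ (u t) y| * Φ t (dsq (a t) x) ≤ |circ (u t) x| * Φ t (dsq (a t) y) :=
    hrec t ⟨ht.1, le_rfl⟩
  have hat := (had t htT).hasDerivAt
  obtain ⟨θ, s, d, d', ζ, hs1, hs2, hd, hζ, hζt, hζle, hdle⟩ := top_timeS hν h htT hat hsx0 hxlt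
    hψx' hne htop (β := B t) (fun x' hsx hqx hcx => by
      have h1 := hmaj t htT x' (by rw [hsx]; exact hsx0) (by rw [hqx]; exact hxlt)
        (by rw [hcx, hqx]; exact hbig) (by rw [hcx, hqx]; exact hrec)
      rw [hqx] at h1
      exact h1)
  have hax := h.axi t (Ioo_subset_Ico_self htT)
  have hqr : ∀ τ, dsq (a τ) (rot θ x + (a τ - a t) • e2) = dsq (a t) x := by
    intro τ
    rw [dsq_shift, dsq_rot]
  have hexd : HasDerivAt ex (ex t * (-B t - ε)) t := by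
    have h1 : HasDerivAt (fun τ => -b τ - ε * τ) (-B t - ε) t := by
      rw [hb]
      have h2 := (prim_hd hB htT).neg
      have h3 : HasDerivAt (fun τ : ℝ => ε * τ) ε t := by
        simpa using (hasDerivAt_id t).const_mul ε
      exact h2.sub h3
    rw [hex]
    exact h1.exp
  have hscirc : s * circ (u t) (rot θ x + (a t - a t) • e2) = |circ (u t) x| := by
    rw [sub_self, zero_smul, add_zero, circ_rot hax, hs2]
  obtain ⟨Fs, hFs⟩ : ∃ Fs, Fs = F (t, x) := ⟨_, rfl⟩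
  have hFs' : Fs * Φ t (dsq (a t) x) = |circ (u t) x| * ex t := by
    rw [hFs, hF]
    show |circ (u t) x| * ex t / Φ t (dsq (a t) x) * Φ t (dsq (a t) x) = _
    field_simp
  have hFs0 : 0 < Fs := by rw [hFs]; linarith
  have hder := (hd.mul hexd).sub (hζ.const_mul Fs)
  have hnn := deriv_nonneg_ev hder (by
    filter_upwards [hζle, Ioo_mem_nhdsLT ht0] with τ h3 hτ
    have hτ' : τ ∈ Icc 0 t₀ := ⟨hτ.1.le, hτ.2.le.trans ht.2⟩
    have h1 := hglob τ hτ' (rot θ x + (a τ - a t) • e2) (by rw [hqr]; exact hx0')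
      (by rw [hqr]; exact hxS')
    have hψτ : 0 < Φ τ (dsq (a t) x) := hΦ _ (hI τ hτ') _ ⟨hx0', hxS'⟩
    rw [← hFs, hF] at h1
    have h2 : |circ (u τ) (rot θ x + (a τ - a t) • e2)| * ex τ
      / Φ τ (dsq (a τ) (rot θ x + (a τ - a t) • e2)) ≤ Fs := h1
    rw [hqr, div_le_iff₀ hψτ] at h2
    show s * circ (u τ) (rot θ x + (a τ - a t) • e2) * ex τ - Fs * ζ τ
      ≤ s * circ (u t) (rot θ x + (a t - a t) • e2) * ex t - Fs * ζ t
    rw [hscirc, hζt, hFs', sub_self]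
    have h4 : s * circ (u τ) (rot θ x + (a τ - a t) • e2)
        ≤ |circ (u τ) (rot θ x + (a τ - a t) • e2)| := by
      calc s * circ (u τ) (rot θ x + (a τ - a t) • e2)
          ≤ |s * circ (u τ) (rot θ x + (a τ - a t) • e2)| := le_abs_self _
        _ = |circ (u τ) (rot θ x + (a τ - a t) • e2)| := by rw [abs_mul, hs1, one_mul]
    have h5 := mul_le_mul_of_nonneg_right h4 (hexp τ).le
    have h6 := mul_le_mul_of_nonneg_left h3 hFs0.le
    linarith)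
  rw [hscirc] at hnn
  have hpos : 0 < |circ (u t) x| := abs_pos.2 hne
  have h6 := mul_le_mul_of_nonneg_right hdle (hexp t).le
  have h7 : 0 < |circ (u t) x| * ex t * ε * Φ t (dsq (a t) x) :=
    mul_pos (mul_pos (mul_pos hpos (hexp t)) hε) hψx'
  have h8 := mul_nonneg hnn hψx'.le
  have h9 : Fs * d' * Φ t (dsq (a t) x) = |circ (u t) x| * ex t * d' := by
    rw [← hFs']
    ring
  linarith

end Pool.Agent.H58.NSP
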