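import Pool.Agent.H58.NSP.Jet
import Pool.Graph.R_pool_sql_team_seeded_64922ed1.X96.AT.Fel2

/-!
Axisymmetric flows (helper58): comparison of the circulation in a cylinder with a weight which is
only invariant under rotations.
-/

set_option autoImplicit false

open MeasureTheory Set Metric Filter Topology
open scoped ContDiff

namespace Pool.Agent.H58.NSP

open H459R3.NS W221.NS Pool.Agent.TH305.DR Pool.Agent.TH305.AX
open Pool.Agent.X96.AT (TS)

variable {T : ℝ} {u : ℝ → V → V} {p : ℝ → V → ℝ}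

/-- The exponential of a function with given second order data. -/
lemma Jet.cexp {f : V → ℝ} {x : V} {g : Fin 3 → ℝ} {l : ℝ} (h : Jet f x g l) (c : ℝ) :
    Jet (fun y => c * Real.exp (f y)) x (fun j => c * Real.exp (f x) * g j)
      (c * Real.exp (f x) * (l + ∑ j, g j ^ 2)) := by
  have h1 := (h.comp (φ := Real.exp) (φ₁ := Real.exp) Real.contDiff_exp.contDiffAt
    (Eventually.of_forall fun r => Real.hasDerivAt_exp r) (Real.hasDerivAt_exp _)).mul_left c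
  exact h1.congr (fun j => by ring) (by ring)

/-- Comparison of the circulation with a weight. -/
theorem cmpK (h : TS 1 T u p) {S A : ℝ} (hT : 0 < T) {K K' : ℝ → V → ℝ} {B : ℝ → ℝ}
    (hKc : ContinuousOn (fun z : ℝ × V => K z.1 z.2) (Ico 0 T ×ˢ {x | 0 < sg x ∧ sg x ≤ S}))
    (hKr : ∀ t θ x, K t (rot θ x) = K t x)
    (hKt : ∀ t ∈ Ioo 0 T, ∀ x, 0 < sg x → sg x < S → HasDerivAt (fun τ => K τ x) (K' t x) t)
    {G : ℝ → V → Fin 3 → ℝ} {L : ℝ → V → ℝ}
    (hKj : ∀ t ∈ Ioo 0 T, ∀ x, 0 < sg x → sg x < S → Jet (K t) x (G t x) (L t x))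
    (hKa : ∀ T' < T, ∀ ε > 0, ∃ δ > 0, ∀ t ∈ Icc 0 T', ∀ x, 0 < sg x → sg x ≤ S → sg x < δ →
      √(sg x) ≤ ε * Real.exp (K t x))
    (hKl : ∀ T' < T, ∀ δ > 0, ∃ m > 0, ∀ t ∈ Icc 0 T', ∀ x, δ ≤ sg x → sg x ≤ S →
      m ≤ Real.exp (K t x))
    (hB : ContinuousOn B (Ico 0 T)) (hB0 : ∀ t ∈ Ico 0 T, 0 ≤ B t) (hA : 0 ≤ A)
    (hbd : ∀ t ∈ Ico 0 T, ∀ x, 0 < sg x → sg x ≤ S → (sg x = S ∨ t = 0) →
      |circ (u t) x| ≤ A * Real.exp (K t x))
    (hin : ∀ t ∈ Ioo 0 T, ∀ x, 0 < sg x → sg x < S →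
      A * Real.exp (K t x) < |circ (u t) x| →
      (∀ t' ∈ Icc 0 t, ∀ y, 0 < sg y → sg y ≤ S →
        |circ (u t') y| * Real.exp (K t x) ≤ |circ (u t) x| * Real.exp (K t' y)) →
      (∃ c > 0, ∀ j, circ (u t) x * pd j (circ (u t)) x = c * G t x j) →
      L t x + ∑ j, G t x j ^ 2 - 2 * (x 0 * G t x 0 + x 1 * G t x 1) / sg x
        - ∑ j, u t x j * G t x j ≤ K' t x + B t) :
    ∀ t ∈ Ico 0 T, ∀ x, 0 < sg x → sg x ≤ S →
      |circ (u t) x| ≤ A * Real.exp (∫ r in (0 : ℝ)..t, B r) * Real.exp (K t x) := by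
  intro t₀ ht₀ x₀ hx0 hxS
  by_contra hcon
  push Not at hcon
  obtain ⟨b, hb⟩ : ∃ b : ℝ → ℝ, b = fun τ => ∫ r in (0 : ℝ)..τ, B r := ⟨_, rfl⟩
  have hbt₀ : (∫ r in (0 : ℝ)..t₀, B r) = b t₀ := by rw [hb]
  rw [hbt₀] at hcon
  have hb0 : b 0 = 0 := by rw [hb]; simp
  have hI : ∀ t ∈ Icc 0 t₀, t ∈ Ico 0 T := fun t ht => ⟨ht.1, ht.2.trans_lt ht₀.2⟩
  have hbn : ∀ t ∈ Icc 0 t₀, 0 ≤ b t := fun t ht => by
    rw [hb]
    exact prim_nonneg hB0 ⟨ht.1, ht.2.trans_lt ht₀.2⟩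
  have hbint : ∀ t ∈ Icc 0 t₀, ∀ t' ∈ Icc 0 t, b t' ≤ b t := fun t ht t' ht' => by
    have hii : ∀ r s : ℝ, r ∈ Icc 0 t → s ∈ Icc 0 t → IntervalIntegrable B volume r s := by
      intro r s hr hs
      apply ContinuousOn.intervalIntegrable
      apply hB.mono
      intro q hq
      have h1 : q ∈ Icc 0 t := (convex_Icc 0 t).ordConnected.uIcc_subset hr hs hq
      exact ⟨h1.1, h1.2.trans_lt (hI t ht).2⟩
    rw [hb]
    show (∫ r in (0 : ℝ)..t', B r) ≤ ∫ r in (0 : ℝ)..t, B r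
    have ht0 : (0 : ℝ) ∈ Icc 0 t := ⟨le_rfl, ht.1⟩
    have htt : t ∈ Icc 0 t := ⟨ht.1, le_rfl⟩
    rw [← intervalIntegral.integral_add_adjacent_intervals (hii 0 t' ht0 ht') (hii t' t ht' htt)]
    have : 0 ≤ ∫ r in t'..t, B r := by
      apply intervalIntegral.integral_nonneg ht'.2
      intro q hq
      exact hB0 q ⟨ht'.1.trans hq.1, hq.2.trans_lt (hI t ht).2⟩
    linarith
  have ht00 : 0 < t₀ := by
    rcases eq_or_lt_of_le ht₀.1 with h1 | h1
    · rw [← h1, hb0, Real.exp_zero, mul_one] at hcon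
      exact absurd (hbd 0 ⟨le_rfl, hT⟩ x₀ hx0 hxS (Or.inr rfl)) (not_le.2 hcon)
    · exact h1
  obtain ⟨r₀, hr₀⟩ : ∃ r₀ : ℝ, r₀ = |circ (u t₀) x₀| * Real.exp (-(b t₀)) / Real.exp (K t₀ x₀) :=
    ⟨_, rfl⟩
  have hr₀A : A < r₀ := by
    rw [hr₀, lt_div_iff₀ (Real.exp_pos _), Real.exp_neg, ← div_eq_mul_inv, lt_div_iff₀ (Real.exp_pos _)]
    linarith
  have hr₀0 : 0 < r₀ := by linarith
  obtain ⟨ε, hε, hε2⟩ : ∃ ε : ℝ, 0 < ε ∧ A < r₀ * Real.exp (-(ε * t₀)) := by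
    refine ⟨(1 - A / r₀) / (2 * t₀), ?_, ?_⟩
    · apply div_pos _ (by positivity)
      have : A / r₀ < 1 := (div_lt_one hr₀0).2 hr₀A
      linarith
    · have e1 : (1 - A / r₀) / (2 * t₀) * t₀ = (1 - A / r₀) / 2 := by field_simp
      rw [e1]
      have h1 : 1 - (1 - A / r₀) / 2 ≤ Real.exp (-((1 - A / r₀) / 2)) := by
        have := Real.add_one_le_exp (-((1 - A / r₀) / 2))
        linarith
      have h2 : r₀ * (1 - (1 - A / r₀) / 2) ≤ r₀ * Real.exp (-((1 - A / r₀) / 2)) := by gcongr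
      have h3 : r₀ * (1 - (1 - A / r₀) / 2) = (r₀ + A) / 2 := by
        field_simp
        ring
      linarith
  obtain ⟨ex, hex⟩ : ∃ ex : ℝ → ℝ, ex = fun τ => Real.exp (-(b τ) - ε * τ) := ⟨_, rfl⟩
  have hexp : ∀ τ, 0 < ex τ := fun τ => by rw [hex]; exact Real.exp_pos _
  have hex1 : ∀ τ ∈ Icc 0 t₀, ex τ ≤ 1 := fun τ hτ => by
    rw [hex]
    apply Real.exp_le_one_iff.2
    have h1 := hbn τ hτ
    have h2 : 0 ≤ ε * τ := mul_nonneg hε.le hτ.1
    linarith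
  have hexm : ∀ t ∈ Icc 0 t₀, ∀ t' ∈ Icc 0 t, ex t ≤ ex t' := fun t ht t' ht' => by
    rw [hex]
    apply Real.exp_le_exp.2
    have h1 := hbint t ht t' ht'
    have h2 : ε * t' ≤ ε * t := mul_le_mul_of_nonneg_left ht'.2 hε.le
    linarith
  obtain ⟨F, hF⟩ : ∃ F : ℝ × V → ℝ, F = fun z => |circ (u z.1) z.2| * ex z.1 /
    Real.exp (K z.1 z.2) := ⟨_, rfl⟩
  have hFe : ∀ t y, F (t, y) = |circ (u t) y| * ex t / Real.exp (K t y) := fun t y => by rw [hF]
  obtain ⟨F₀, hF₀⟩ : ∃ F₀ : ℝ, F₀ = F (t₀, x₀) := ⟨_, rfl⟩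
  have hF₀A : A < F₀ := by
    refine hε2.trans_le (le_of_eq ?_)
    rw [hF₀, hFe, hr₀, hex]
    show _ = |circ (u t₀) x₀| * Real.exp (-(b t₀) - ε * t₀) / Real.exp (K t₀ x₀)
    rw [sub_eq_add_neg, Real.exp_add]
    ring
  have hF₀0 : 0 < F₀ := by linarith
  obtain ⟨U, hU0, hU⟩ := h.b.u_bdd ht₀.2
  -- near the axis
  obtain ⟨δ, hδ, hδF⟩ : ∃ δ : ℝ, 0 < δ ∧ ∀ t ∈ Icc 0 t₀, ∀ y, 0 < sg y → sg y ≤ S →
      sg y < δ → F (t, y) < F₀ := by
    obtain ⟨k, hk⟩ : ∃ k : ℝ, k = F₀ / (2 * U + 1) / 2 := ⟨_, rfl⟩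
    have hk0 : 0 < k := by rw [hk]; positivity
    obtain ⟨δ, hδ, hs⟩ := hKa t₀ ht₀.2 k hk0
    refine ⟨δ, hδ, fun t ht y hy0 hyS hyδ => ?_⟩
    have hEp := Real.exp_pos (K t y)
    rw [hFe, div_lt_iff₀ hEp]
    have h1 := circ_le (u t) y
    have h2 := hU t ht y
    have h3 := hs t ht y hy0 hyS hyδ
    have h8 := hex1 t ht
    have h9 : |circ (u t) y| * ex t ≤ |circ (u t) y| * 1 := by gcongr
    have h7 : k * (2 * U + 1) = F₀ / 2 := by rw [hk]; field_simp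
    have h10 : |circ (u t) y| ≤ √(sg y) * (2 * U + 1) := by
      have h11 : 2 * √(sg y) * ‖u t y‖ ≤ 2 * √(sg y) * U := by gcongr
      have := Real.sqrt_nonneg (sg y)
      nlinarith
    have h12 : √(sg y) * (2 * U + 1) ≤ k * Real.exp (K t y) * (2 * U + 1) := by
      apply mul_le_mul_of_nonneg_right h3 (by linarith)
    have h13 : k * Real.exp (K t y) * (2 * U + 1) = F₀ / 2 * Real.exp (K t y) := by
      linear_combination (Real.exp (K t y)) * h7
    have h14 : 0 < F₀ * Real.exp (K t y) := by positivity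
    linarith
  obtain ⟨m, hm, hml⟩ := hKl t₀ ht₀.2 δ hδ
  obtain ⟨Z₀, hZ₀⟩ := h.dec t₀ ht₀.2 S (F₀ * m / 2) (by positivity)
  -- the compact set
  obtain ⟨R, hR⟩ : ∃ R : ℝ, R = Z₀ := ⟨_, rfl⟩
  obtain ⟨Z, hZ⟩ : ∃ Z : Set (ℝ × V), Z = Icc 0 t₀ ×ˢ closedBall (0 : V) R := ⟨_, rfl⟩
  have hZc : IsCompact Z := by rw [hZ]; exact isCompact_Icc.prod (isCompact_closedBall _ _)
  have hsc : ContinuousOn (fun z : ℝ × V => sg z.2) Z :=
    (sm_sg.continuous.comp continuous_snd).continuousOn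
  obtain ⟨Kc, hKc'⟩ : ∃ Kc : Set (ℝ × V), Kc = Z ∩ (fun z : ℝ × V => sg z.2) ⁻¹' Icc δ S :=
    ⟨_, rfl⟩
  have hKcc : IsCompact Kc := by
    rw [hKc']
    exact hZc.of_isClosed_subset
      (hsc.preimage_isClosed_of_isClosed hZc.isClosed isClosed_Icc) inter_subset_left
  have hmem : ∀ t ∈ Icc 0 t₀, ∀ y, 0 < sg y → sg y ≤ S → F₀ ≤ F (t, y) →
      (t, y) ∈ Kc := by
    intro t ht y hy0 hyS hge
    have h1 : δ ≤ sg y := by
      by_contra hlt
      push Not at hlt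
      exact absurd (hδF t ht y hy0 hyS hlt) (not_lt.2 hge)
    have h2 : ‖y‖ ≤ R := by
      rw [hR]
      by_contra hlt
      push Not at hlt
      have h3 := hZ₀ t ht y hyS hlt.le
      have h4 := hml t ht y h1 hyS
      have hEp := Real.exp_pos (K t y)
      rw [hFe, le_div_iff₀ hEp] at hge
      have h8 := hex1 t ht
      have h9 : |circ (u t) y| * ex t ≤ |circ (u t) y| * 1 := by gcongr
      have h10 : F₀ * m ≤ F₀ * Real.exp (K t y) := by gcongr
      have h11 : 0 < F₀ * m := by positivity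
      linarith
    have h3 : (t, y) ∈ Z := by
      rw [hZ]
      exact ⟨ht, by rw [mem_closedBall, dist_zero_right]; exact h2⟩
    rw [hKc']
    exact ⟨h3, h1, hyS⟩
  have hsub : ∀ z ∈ Kc, z.1 ∈ Icc 0 t₀ ∧ 0 < sg z.2 ∧ sg z.2 ≤ S := by
    intro z hz
    rw [hKc'] at hz
    have h1 := hz.1
    rw [hZ] at h1
    exact ⟨h1.1, hδ.trans_le hz.2.1, hz.2.2⟩
  have hFc : ContinuousOn F Kc := by
    have c1 : ContinuousOn (fun z : ℝ × V => |circ (u z.1) z.2|) Kc :=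
      (h.b.circ_cont.mono fun z hz => ⟨⟨(hsub z hz).1.1, (hsub z hz).1.2.trans_lt ht₀.2⟩,
        trivial⟩).abs
    have c2 : ContinuousOn ex (Icc 0 t₀) := by
      rw [hex, hb]
      exact (((prim_cont hB ht₀).neg).sub (by fun_prop)).rexp
    have c3 : ContinuousOn (fun z : ℝ × V => ex z.1) Kc :=
      c2.comp continuous_fst.continuousOn fun z hz => (hsub z hz).1
    have c4 : ContinuousOn (fun z : ℝ × V => Real.exp (K z.1 z.2)) Kc :=
      (hKc.mono fun z hz => ⟨hI _ (hsub z hz).1, (hsub z hz).2⟩).rexp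
    rw [hF]
    exact (c1.mul c3).div c4 fun z hz => (Real.exp_pos _).ne'
  have hmem₀ : (t₀, x₀) ∈ Kc := hmem t₀ ⟨ht00.le, le_rfl⟩ x₀ hx0 hxS hF₀.le
  obtain ⟨⟨t, x⟩, htx, hmx⟩ := hKcc.exists_isMaxOn ⟨_, hmem₀⟩ hFc
  have hFtx : F₀ ≤ F (t, x) := by
    rw [hF₀]
    exact hmx hmem₀
  obtain ⟨ht, hsx0, hxS'⟩ := hsub _ htx
  simp only at ht hsx0 hxS'
  have hglob : ∀ t' ∈ Icc 0 t₀, ∀ y, 0 < sg y → sg y ≤ S →
      F (t', y) ≤ F (t, x) := by
    intro t' ht' y hy0 hyS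
    rcases le_or_gt F₀ (F (t', y)) with h1 | h1
    · exact hmx (hmem t' ht' y hy0 hyS h1)
    · exact h1.le.trans hFtx
  have hψx : 0 < Real.exp (K t x) := Real.exp_pos _
  have hnotbd : ¬(sg x = S ∨ t = 0) := by
    intro h1
    have h2 := hbd t (hI t ht) x hsx0 hxS' h1
    have h3 : F (t, x) ≤ A := by
      rw [hFe, div_le_iff₀ hψx]
      have h4 : |circ (u t) x| * ex t ≤ |circ (u t) x| * 1 := by
        have := hex1 t ht
        gcongr
      linarith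
    linarith
  push Not at hnotbd
  obtain ⟨hnS, hn0⟩ := hnotbd
  have ht0 : 0 < t := lt_of_le_of_ne ht.1 (Ne.symm hn0)
  have hxlt : sg x < S := lt_of_le_of_ne hxS' hnS
  have htT : t ∈ Ioo 0 T := ⟨ht0, ht.2.trans_lt ht₀.2⟩
  have hne : circ (u t) x ≠ 0 := by
    intro h1
    have h2 : F (t, x) = 0 := by
      rw [hFe, h1]
      simp
    linarith
  have hpos : 0 < |circ (u t) x| := abs_pos.2 hne
  have hbig : A * Real.exp (K t x) < |circ (u t) x| := by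
    have h1 : A < |circ (u t) x| * ex t / Real.exp (K t x) := by
      rw [← hFe]
      linarith
    rw [lt_div_iff₀ hψx] at h1
    have h4 : |circ (u t) x| * ex t ≤ |circ (u t) x| * 1 := by
      have := hex1 t ht
      gcongr
    linarith
  have hrec : ∀ t' ∈ Icc 0 t, ∀ y, 0 < sg y → sg y ≤ S →
      |circ (u t') y| * Real.exp (K t x) ≤ |circ (u t) x| * Real.exp (K t' y) := by
    intro t' ht' y hy0 hyS
    have htt : t' ∈ Icc 0 t₀ := ⟨ht'.1, ht'.2.trans ht.2⟩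
    have h1 := hglob t' htt y hy0 hyS
    have hψy : 0 < Real.exp (K t' y) := Real.exp_pos _
    rw [hFe, hFe, div_le_div_iff₀ hψy hψx] at h1
    have h3 := hexp t'
    have h4 := hexm t ht t' ht'
    have h5 : |circ (u t) x| * ex t * Real.exp (K t' y)
        ≤ |circ (u t) x| * ex t' * Real.exp (K t' y) := by
      gcongr
    by_contra h6
    push Not at h6
    have h7 := mul_lt_mul_of_pos_right h6 h3
    linarith
  have hax := h.b.axi t (Ioo_subset_Ico_self htT)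
  obtain ⟨s, hs1, hs2⟩ : ∃ s : ℝ, |s| = 1 ∧ s * circ (u t) x = |circ (u t) x| := by
    rcases le_total 0 (circ (u t) x) with h1 | h1
    · exact ⟨1, by simp, by rw [abs_of_nonneg h1, one_mul]⟩
    · exact ⟨-1, by simp, by rw [abs_of_nonpos h1]; ring⟩
  have hscl : ∀ v : V → V, ∀ x, s * circ v x ≤ |circ v x| := by
    intro v x
    calc s * circ v x ≤ |s * circ v x| := le_abs_self _
      _ = |circ v x| := by rw [abs_mul, hs1, one_mul]
  obtain ⟨c, hc⟩ : ∃ c : ℝ, c = |circ (u t) x| / Real.exp (K t x) := ⟨_, rfl⟩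
  have hc0 : 0 < c := by rw [hc]; exact div_pos hpos hψx
  have hcx : c * Real.exp (K t x) = |circ (u t) x| := by rw [hc]; field_simp
  have hle : ∀ y, 0 < sg y → sg y ≤ S →
      |circ (u t) y| ≤ c * Real.exp (K t y) := by
    intro y hy0 hyS
    have := hrec t ⟨ht.1, le_rfl⟩ y hy0 hyS
    rw [hc, div_mul_eq_mul_div, le_div_iff₀ hψx]
    exact this
  have hlm : ∀ θ, IsLocalMax (fun y => s * circ (u t) y - c * Real.exp (K t y)) (rot θ x) := by
    intro θ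
    have h1 : ∀ᶠ y in 𝓝 (rot θ x), sg y ∈ Ioo 0 S :=
      ev_sg (P := fun r => r ∈ Ioo 0 S) (by rw [sg_rot]; exact Ioo_mem_nhds hsx0 hxlt)
    filter_upwards [h1] with y hy
    rw [circ_rot hax, hKr, hs2, hcx, sub_self]
    have h4 := (hscl (u t) y).trans (hle y hy.1 hy.2.le)
    linarith
  obtain ⟨φ, hφ⟩ := rolle (h.b.slicep htT) x
  obtain ⟨x', hx'⟩ : ∃ x', x' = rot φ x := ⟨_, rfl⟩
  have hlm' := hlm φ
  rw [← hx'] at hφ hlm'
  have hsx' : sg x' = sg x := by rw [hx', sg_rot]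
  have hcx' : circ (u t) x' = circ (u t) x := by rw [hx', circ_rot hax]
  have hOx' : ∀ τ, K τ x' = K τ x := fun τ => by rw [hx', hKr]
  have hxlt' : sg x' < S := by rw [hsx']; exact hxlt
  have hsx0' : 0 < sg x' := by rw [hsx']; exact hsx0
  have hv := h.b.slice0 (Ioo_subset_Ico_self htT)
  have hJ := hKj t htT x' hsx0' hxlt'
  have hJe := hJ.cexp c
  have htouch := touch one_pos hv hax
    (d := fun i => deriv (fun τ => u τ x' i) t) (fun i => h.b.momentum t htT x' i) hφ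
    hsx0' hJe.cd hlm'
  -- the gradient of the circulation
  have hgrad : ∀ j, circ (u t) x' * pd j (circ (u t)) x'
      = (|circ (u t) x| ^ 2) * G t x' j := by
    intro j
    have hcs := sm_circ hv
    have hsc' : ContDiff ℝ ∞ (fun y => s * circ (u t) y) := contDiff_const.mul hcs
    have hf : ContDiffAt ℝ 2 (fun y => s * circ (u t) y - c * Real.exp (K t y)) x' :=
      (hsc'.contDiffAt.of_le (by norm_cast)).sub hJe.cd
    have h1 := (max_pd hf hlm' j).1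
    rw [(pd2_sub_at hsc' hJe.cd j).1, pd_cmul, hJe.p1, hOx', hcx] at h1
    have hss : s * s = 1 := by
      have := abs_mul_abs_self s
      rw [hs1] at this
      linarith
    have h2 : s * pd j (circ (u t)) x' = |circ (u t) x| * G t x' j := by
      have h3 : (fun y => s * pd j (circ (u t)) y) x' = s * pd j (circ (u t)) x' := rfl
      rw [h3] at h1
      linarith
    have h4 : circ (u t) x' = s * |circ (u t) x| := by
      rw [hcx', ← hs2]
      linear_combination (-(circ (u t) x)) * hss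
    rw [h4]
    linear_combination |circ (u t) x| * h2
  have hcond := hin t htT x' hsx0' hxlt'
    (by rw [hOx', hcx']; exact hbig) (by rw [hOx', hcx']; exact hrec)
    ⟨|circ (u t) x| ^ 2, by positivity, hgrad⟩
  -- the time derivative
  have hexd : HasDerivAt ex (ex t * (-(B t) - ε)) t := by
    have h1 : HasDerivAt (fun τ => -(b τ) - ε * τ) (-(B t) - ε) t := by
      rw [hb]
      have h2 := (prim_hd hB htT).neg
      have h3 : HasDerivAt (fun τ : ℝ => ε * τ) ε t := by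
        simpa using (hasDerivAt_id t).const_mul ε
      exact h2.sub h3
    rw [hex]
    exact h1.exp
  obtain ⟨Fs, hFs⟩ : ∃ Fs, Fs = F (t, x) := ⟨_, rfl⟩
  have hFs' : Fs * Real.exp (K t x) = |circ (u t) x| * ex t := by
    rw [hFs, hFe]
    field_simp
  have hder := (((h.b.circ_hd htT x').const_mul s).mul hexd).sub
    (((hKt t htT x' hsx0' hxlt').exp).const_mul Fs)
  have hnn := deriv_nonneg_ev hder (by
    filter_upwards [Ioo_mem_nhdsLT ht0] with τ hτ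
    have hτ' : τ ∈ Icc 0 t₀ := ⟨hτ.1.le, hτ.2.le.trans ht.2⟩
    have h1 := hglob τ hτ' x' hsx0' (by rw [hsx']; exact hxS')
    rw [← hFs, hFe, div_le_iff₀ (Real.exp_pos _)] at h1
    show s * circ (u τ) x' * ex τ - Fs * Real.exp (K τ x')
      ≤ s * circ (u t) x' * ex t - Fs * Real.exp (K t x')
    rw [hcx', hs2, hOx' t, hFs', sub_self]
    have h5 := mul_le_mul_of_nonneg_right (hscl (u τ) x') (hexp τ).le
    linarith)
  rw [hcx', hs2, hOx' t] at hnn
  rw [hJe.lp] at htouch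
  simp only [hJe.p1, hOx', hcx] at htouch
  obtain ⟨g, hg⟩ : ∃ g, g = |circ (u t) x| := ⟨_, rfl⟩
  obtain ⟨d, hd⟩ : ∃ d, d = s * (x' 0 * deriv (fun s => u s x' 1) t
    - x' 1 * deriv (fun s => u s x' 0) t) := ⟨_, rfl⟩
  obtain ⟨e, he⟩ : ∃ e, e = ex t := ⟨_, rfl⟩
  have he0 : 0 < e := by rw [he]; exact hexp t
  have hg0 : 0 < g := by rw [hg]; exact hpos
  rw [← hd, ← hg, ← he] at hnn
  rw [← hg, ← he] at hFs'
  rw [← hg] at htouch
  have htouch' : d ≤ g * (L t x' + ∑ j, G t x' j ^ 2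
        - 2 * (x' 0 * G t x' 0 + x' 1 * G t x' 1) / sg x' - ∑ j, u t x' j * G t x' j) := by
    rw [hd]
    refine htouch.trans (le_of_eq ?_)
    rw [Fin.sum_univ_three, Fin.sum_univ_three, Fin.sum_univ_three]
    field_simp
  have k1 : 0 ≤ (d - g * B t - g * ε - g * K' t x') * e := by
    have : (d - g * B t - g * ε - g * K' t x') * e
        = d * e + g * (e * (-(B t) - ε)) - Fs * (Real.exp (K t x) * K' t x') := by
      linear_combination (-(K' t x')) * (hFs').symm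
    rw [this]
    exact hnn
  have k2 : 0 ≤ d - g * B t - g * ε - g * K' t x' := nonneg_of_mul_nonneg_left k1 he0
  have k3 := mul_le_mul_of_nonneg_left hcond hg0.le
  have k4 : 0 < g * ε := mul_pos hg0 hε
  linarith

end Pool.Agent.H58.NSP
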