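import Pool.Agent.H58.NSP.Jet

/-!
Axisymmetric flows (helper58): the weight of finitely many points of the axis.
-/

set_option autoImplicit false

open MeasureTheory Set Metric Filter Topology
open scoped ContDiff

namespace Pool.Agent.H58.NSP

open H459R3.NS W221.NS Pool.Agent.TH305.DR Pool.Agent.TH305.AX

/-- The logarithm of the weight `ρ² ∏ (R_i² / (r_i² + R_i²)) ^ l_i`, where `R_i` is the distance of
`x` to the point of height `a_i` of the axis. -/
noncomputable def Hw {k : ℕ} (l r a : Fin k → ℝ) (x : V) : ℝ :=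
  Real.log (sg x) + ∑ i, l i * (Real.log (dsq (a i) x) - Real.log (r i ^ 2 + dsq (a i) x))

/-- The gradient of the logarithm of the weight. -/
noncomputable def gW {k : ℕ} (l r a : Fin k → ℝ) (x : V) (j : Fin 3) : ℝ :=
  2 * cj j * x j / sg x + ∑ i, l i * (2 * (r i ^ 2 / (r i ^ 2 + dsq (a i) x))
    * ((x j - ca (a i) j) / dsq (a i) x))

/-- The oblique component of the velocity `v`: `ρ v_ρ` plus the sum of
`l_i (r_i² / (r_i² + R_i²)) (ρ² / R_i²) (1 + (x - a_i) · (v - a_i'))`. -/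
noncomputable def Qw {k : ℕ} (l r a a' : Fin k → ℝ) (v x : V) : ℝ :=
  x 0 * v 0 + x 1 * v 1 + ∑ i, l i * (r i ^ 2 / (r i ^ 2 + dsq (a i) x)) * (sg x / dsq (a i) x)
    * (1 + (x 0 * v 0 + x 1 * v 1 + (x 2 - a i) * (v 2 - a' i)))

section
variable {k : ℕ} {l r a : Fin k → ℝ} {x : V}

lemma Hw_rot (θ : ℝ) : Hw l r a (rot θ x) = Hw l r a x := by
  unfold Hw
  rw [sg_rot]
  simp only [dsq_rot]

lemma jet_Hw (hr : ∀ i, 0 < r i) (hx : 0 < sg x) : Jet (Hw l r a) x (gW l r a x)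
    (∑ i, l i * (2 / dsq (a i) x - 6 / (r i ^ 2 + dsq (a i) x)
      + 4 * dsq (a i) x / (r i ^ 2 + dsq (a i) x) ^ 2)) := by
  have h := (jet_ls hx).add (Jet.sum (fun i => (jet_ld (m := r i ^ 2) (a := a i)
    (by have := hr i; positivity) (dsq_pos hx)).mul_left (l i)) Finset.univ)
  exact h.congr (fun j => rfl) (zero_add _)

/-- The sum of the first order terms. -/
lemma wgt_id (hr : ∀ i, 0 < r i) (hx : 0 < sg x) (a' : Fin k → ℝ) (v : V) :
    (∑ i, l i * (2 / dsq (a i) x - 6 / (r i ^ 2 + dsq (a i) x)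
      + 4 * dsq (a i) x / (r i ^ 2 + dsq (a i) x) ^ 2))
      - 2 * (x 0 * gW l r a x 0 + x 1 * gW l r a x 1) / sg x - ∑ j, v j * gW l r a x j
      - ∑ i, l i * ((r i ^ 2 / (r i ^ 2 + dsq (a i) x)) / dsq (a i) x
        * (-(2 * (x 2 - a i) * a' i)))
      = -(2 / sg x) * (2 + Qw l r a a' v x)
        + ∑ i, l i * (-(4 * r i ^ 2 / (r i ^ 2 + dsq (a i) x) ^ 2)) := by
  have hs : x 0 ^ 2 + x 1 ^ 2 = sg x := rfl
  have c0 : cj 0 = 1 := by simp [cj]
  have c1 : cj 1 = 1 := by simp [cj]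
  have c2 : cj 2 = 0 := by simp [cj]
  have hterm : ∀ i ∈ (Finset.univ : Finset (Fin k)),
      l i * (2 / dsq (a i) x - 6 / (r i ^ 2 + dsq (a i) x)
        + 4 * dsq (a i) x / (r i ^ 2 + dsq (a i) x) ^ 2)
      - (2 / sg x) * (x 0 * (l i * (2 * (r i ^ 2 / (r i ^ 2 + dsq (a i) x))
          * ((x 0 - 0) / dsq (a i) x)))
        + x 1 * (l i * (2 * (r i ^ 2 / (r i ^ 2 + dsq (a i) x))
          * ((x 1 - 0) / dsq (a i) x))))
      - (v 0 * (l i * (2 * (r i ^ 2 / (r i ^ 2 + dsq (a i) x))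
          * ((x 0 - 0) / dsq (a i) x)))
        + v 1 * (l i * (2 * (r i ^ 2 / (r i ^ 2 + dsq (a i) x))
          * ((x 1 - 0) / dsq (a i) x)))
        + v 2 * (l i * (2 * (r i ^ 2 / (r i ^ 2 + dsq (a i) x))
          * ((x 2 - a i) / dsq (a i) x))))
      - l i * ((r i ^ 2 / (r i ^ 2 + dsq (a i) x)) / dsq (a i) x
        * (-(2 * (x 2 - a i) * a' i)))
      = -(2 / sg x) * (l i * (r i ^ 2 / (r i ^ 2 + dsq (a i) x)) * (sg x / dsq (a i) x)
          * (1 + (x 0 * v 0 + x 1 * v 1 + (x 2 - a i) * (v 2 - a' i))))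
        + l i * (-(4 * r i ^ 2 / (r i ^ 2 + dsq (a i) x) ^ 2)) := by
    intro i _
    have hd := dsq_pos (a := a i) hx
    have hm : 0 < r i ^ 2 := by have := hr i; positivity
    have hmd : 0 < r i ^ 2 + dsq (a i) x := by linarith
    obtain ⟨s, hs'⟩ : ∃ s, s = dsq (a i) x := ⟨_, rfl⟩
    obtain ⟨m, hm'⟩ : ∃ m, m = r i ^ 2 := ⟨_, rfl⟩
    rw [← hs', ← hm'] at hmd
    rw [← hs'] at hd
    rw [← hm'] at hm
    rw [← hs', ← hm']
    have k1 : (2 / sg x) * (x 0 * (l i * (2 * (m / (m + s)) * ((x 0 - 0) / s)))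
        + x 1 * (l i * (2 * (m / (m + s)) * ((x 1 - 0) / s))))
        = 4 * l i * (m / (m + s)) / s := by
      have : (2 / sg x) * (x 0 * (l i * (2 * (m / (m + s)) * ((x 0 - 0) / s)))
        + x 1 * (l i * (2 * (m / (m + s)) * ((x 1 - 0) / s))))
        = 4 * l i * (m / (m + s)) / s * ((x 0 ^ 2 + x 1 ^ 2) / sg x) := by ring
      rw [this, hs, div_self hx.ne', mul_one]
    have k2 : -(2 / sg x) * (l i * (m / (m + s)) * (sg x / s)
          * (1 + (x 0 * v 0 + x 1 * v 1 + (x 2 - a i) * (v 2 - a' i))))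
        = -2 * (l i * (m / (m + s)) / s
          * (1 + (x 0 * v 0 + x 1 * v 1 + (x 2 - a i) * (v 2 - a' i)))) := by
      field_simp
    have k3 : 2 / s - 6 / (m + s) + 4 * s / (m + s) ^ 2
        = 2 * (m / (m + s)) / s - 4 * m / (m + s) ^ 2 := by
      field_simp
      ring
    rw [k1, k2]
    linear_combination l i * k3
  have hsum := Finset.sum_congr rfl hterm
  simp only [Finset.sum_sub_distrib, Finset.sum_add_distrib, ← Finset.mul_sum] at hsum
  rw [Fin.sum_univ_three]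
  unfold gW Qw
  simp only [ca0, ca1, ca2, c0, c1, c2]
  have k0 : 2 * (x 0 * (2 * 1 * x 0 / sg x) + x 1 * (2 * 1 * x 1 / sg x)) / sg x = 4 / sg x := by
    have : 2 * (x 0 * (2 * 1 * x 0 / sg x) + x 1 * (2 * 1 * x 1 / sg x)) / sg x
        = 4 * ((x 0 ^ 2 + x 1 ^ 2) / sg x) / sg x := by ring
    rw [this, hs, div_self hx.ne', mul_one]
  linear_combination hsum - k0

/-- Two vectors. -/
lemma two_vec {f g : Fin 3 → ℝ} {A B : ℝ} (hA : 0 ≤ A) (hB : 0 ≤ B) (hf : ∑ j, f j ^ 2 ≤ A ^ 2)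
    (hg : ∑ j, g j ^ 2 ≤ B ^ 2) : ∑ j, (f j + g j) ^ 2 ≤ (A + B) ^ 2 := by
  have h1 := Finset.sum_mul_sq_le_sq_mul_sq Finset.univ f g
  have h2 : (∑ j, f j ^ 2) * ∑ j, g j ^ 2 ≤ A ^ 2 * B ^ 2 :=
    mul_le_mul hf hg (Finset.sum_nonneg fun j _ => sq_nonneg _) (sq_nonneg _)
  have h3 : ∑ j, f j * g j ≤ A * B := by
    by_contra hcon
    push Not at hcon
    have h4 : 0 ≤ A * B := mul_nonneg hA hB
    nlinarith
  have h5 : ∑ j, (f j + g j) ^ 2 = ∑ j, f j ^ 2 + 2 * ∑ j, f j * g j + ∑ j, g j ^ 2 := by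
    rw [Finset.mul_sum, ← Finset.sum_add_distrib, ← Finset.sum_add_distrib]
    exact Finset.sum_congr rfl fun j _ => by ring
  rw [h5]
  nlinarith

/-- The square of the gradient. -/
lemma gW_sq (hr : ∀ i, 0 < r i) (hx : 0 < sg x) :
    ∑ j, gW l r a x j ^ 2 ≤ 4 * (1 + ∑ i, |l i|) ^ 2 / sg x := by
  classical
  obtain ⟨c, hc⟩ : ∃ c : ℝ, c = 2 / √(sg x) := ⟨_, rfl⟩
  have hsq : 0 < √(sg x) := Real.sqrt_pos.2 hx
  have hc0 : 0 < c := by rw [hc]; positivity
  have hc2 : c ^ 2 = 4 / sg x := by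
    rw [hc, div_pow, Real.sq_sqrt hx.le]
    norm_num
  have hone : ∀ i, ∑ j, (2 * (r i ^ 2 / (r i ^ 2 + dsq (a i) x))
      * ((x j - ca (a i) j) / dsq (a i) x)) ^ 2 ≤ c ^ 2 := by
    intro i
    have hd := dsq_pos (a := a i) hx
    have hm : 0 < r i ^ 2 := by have := hr i; positivity
    obtain ⟨q, hq⟩ : ∃ q, q = r i ^ 2 / (r i ^ 2 + dsq (a i) x) := ⟨_, rfl⟩
    have hq0 : 0 < q := by rw [hq]; positivity
    have hq1 : q ≤ 1 := by
      rw [hq, div_le_one (by linarith)]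
      linarith
    have e : ∑ j, (2 * (r i ^ 2 / (r i ^ 2 + dsq (a i) x)) * ((x j - ca (a i) j) / dsq (a i) x)) ^ 2
        = q ^ 2 / dsq (a i) x ^ 2 * ∑ j, (2 * (x j - ca (a i) j)) ^ 2 := by
      rw [Finset.mul_sum, ← hq]
      exact Finset.sum_congr rfl fun j _ => by ring
    rw [e, sum_dsq, hc2]
    have h1 : q ^ 2 / dsq (a i) x ^ 2 * (4 * dsq (a i) x) = 4 * q ^ 2 / dsq (a i) x := by
      field_simp
    rw [h1]
    have h2 : q ^ 2 ≤ 1 := by nlinarith
    calc 4 * q ^ 2 / dsq (a i) x ≤ 4 * 1 / dsq (a i) x := by gcongr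
      _ ≤ 4 * 1 / sg x := by
        have := sg_le_dsq (a i) x
        gcongr
      _ = _ := by ring
  have key : ∀ s : Finset (Fin k), ∑ j, (2 * cj j * x j / sg x
      + ∑ i ∈ s, l i * (2 * (r i ^ 2 / (r i ^ 2 + dsq (a i) x))
        * ((x j - ca (a i) j) / dsq (a i) x))) ^ 2 ≤ ((1 + ∑ i ∈ s, |l i|) * c) ^ 2 := by
    intro s
    induction s using Finset.induction_on with
    | empty =>
      simp only [Finset.sum_empty, add_zero, one_mul]
      have e : ∑ j, (2 * cj j * x j / sg x) ^ 2 = (∑ j, (2 * cj j * x j) ^ 2) / sg x ^ 2 := by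
        rw [Finset.sum_div]
        exact Finset.sum_congr rfl fun j _ => by rw [div_pow]
      rw [e, sum_sg, hc2]
      apply le_of_eq
      field_simp
    | insert i s hi ih =>
      simp only [Finset.sum_insert hi]
      have h1 : ∑ j, (l i * (2 * (r i ^ 2 / (r i ^ 2 + dsq (a i) x))
          * ((x j - ca (a i) j) / dsq (a i) x))) ^ 2 ≤ (|l i| * c) ^ 2 := by
        have e : ∑ j, (l i * (2 * (r i ^ 2 / (r i ^ 2 + dsq (a i) x))
          * ((x j - ca (a i) j) / dsq (a i) x))) ^ 2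
          = l i ^ 2 * ∑ j, (2 * (r i ^ 2 / (r i ^ 2 + dsq (a i) x))
            * ((x j - ca (a i) j) / dsq (a i) x)) ^ 2 := by
          rw [Finset.mul_sum]
          exact Finset.sum_congr rfl fun j _ => by ring
        rw [e, mul_pow, sq_abs]
        exact mul_le_mul_of_nonneg_left (hone i) (sq_nonneg _)
      have h2 := two_vec (A := (1 + ∑ i ∈ s, |l i|) * c) (B := |l i| * c)
        (by have : 0 ≤ ∑ i ∈ s, |l i| := Finset.sum_nonneg fun i _ => abs_nonneg _
            positivity) (by positivity) ih h1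
      have e3 : (1 + ∑ i ∈ s, |l i|) * c + |l i| * c = (1 + (|l i| + ∑ i ∈ s, |l i|)) * c := by
        ring
      rw [e3] at h2
      refine le_trans (le_of_eq ?_) h2
      exact Finset.sum_congr rfl fun j _ => by ring
  have h := key Finset.univ
  rw [mul_pow, hc2] at h
  unfold gW
  refine h.trans (le_of_eq ?_)
  ring

/-- The ratio of the distances. -/
lemma log_ratio {m s : ℝ} (hm : 0 < m) (hs : 0 < s) {σ R : ℝ} (hσ : 0 < σ) (hσs : σ ≤ s)
    (hσR : σ ≤ R ^ 2) : 0 ≤ Real.log (m + s) - Real.log s ∧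
      Real.log (m + s) - Real.log s ≤ Real.log (R ^ 2 + m) - Real.log σ := by
  constructor
  · have := Real.log_le_log hs (by linarith : s ≤ m + s)
    linarith
  · have h1 : (m + s) * σ ≤ (R ^ 2 + m) * s := by
      have h2 : m * σ ≤ m * s := mul_le_mul_of_nonneg_left hσs hm.le
      have h3 : s * σ ≤ s * R ^ 2 := mul_le_mul_of_nonneg_left hσR hs.le
      nlinarith
    have h4 := Real.log_le_log (mul_pos (by linarith) hσ) h1
    rw [Real.log_mul (by linarith) hσ.ne', Real.log_mul (by linarith) hs.ne'] at h4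
    linarith

/-- The upper bound of the logarithm of the weight. -/
lemma Hw_up (hr : ∀ i, 0 < r i) (hx : 0 < sg x) {R : ℝ} (hxR : sg x ≤ R ^ 2) :
    Hw l r a x ≤ (1 - ∑ i, max (-l i) 0) * Real.log (sg x)
      + ∑ i, max (-l i) 0 * Real.log (R ^ 2 + r i ^ 2) := by
  have h : ∑ i, l i * (Real.log (dsq (a i) x) - Real.log (r i ^ 2 + dsq (a i) x))
      ≤ ∑ i, max (-l i) 0 * (Real.log (R ^ 2 + r i ^ 2) - Real.log (sg x)) := by
    refine Finset.sum_le_sum fun i _ => ?_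
    obtain ⟨h1, h2⟩ := log_ratio (m := r i ^ 2) (s := dsq (a i) x)
      (by have := hr i; positivity) (dsq_pos hx) hx (sg_le_dsq _ _) hxR
    have h3 : -l i ≤ max (-l i) 0 := le_max_left _ _
    have h4 : 0 ≤ max (-l i) 0 := le_max_right _ _
    have h5 := mul_le_mul_of_nonneg_right h3 h1
    have h6 := mul_le_mul_of_nonneg_left h2 h4
    linarith
  unfold Hw
  simp only [mul_sub, Finset.sum_sub_distrib] at h ⊢
  rw [← Finset.sum_mul] at h
  linarith

/-- The lower bound of the logarithm of the weight. -/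
lemma Hw_low (hr : ∀ i, 0 < r i) (hx : 0 < sg x) {R : ℝ} (hxR : sg x ≤ R ^ 2) :
    (1 + ∑ i, max (l i) 0) * Real.log (sg x) - ∑ i, max (l i) 0 * Real.log (R ^ 2 + r i ^ 2)
      ≤ Hw l r a x := by
  have h : -∑ i, max (l i) 0 * (Real.log (R ^ 2 + r i ^ 2) - Real.log (sg x))
      ≤ ∑ i, l i * (Real.log (dsq (a i) x) - Real.log (r i ^ 2 + dsq (a i) x)) := by
    rw [← Finset.sum_neg_distrib]
    refine Finset.sum_le_sum fun i _ => ?_
    obtain ⟨h1, h2⟩ := log_ratio (m := r i ^ 2) (s := dsq (a i) x)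
      (by have := hr i; positivity) (dsq_pos hx) hx (sg_le_dsq _ _) hxR
    have h3 : l i ≤ max (l i) 0 := le_max_left _ _
    have h4 : 0 ≤ max (l i) 0 := le_max_right _ _
    have h5 := mul_le_mul_of_nonneg_right h3 h1
    have h6 := mul_le_mul_of_nonneg_left h2 h4
    linarith
  unfold Hw
  simp only [mul_sub, Finset.sum_sub_distrib] at h ⊢
  rw [← Finset.sum_mul] at h
  linarith

end

end Pool.Agent.H58.NSP
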