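import Pool.Agent.H58.NSP.CmpK
import Pool.Agent.H58.NSP.Wgt

/-!
Axisymmetric flows (helper58): the circulation under a bound of the inflow in thin cones.
-/

set_option autoImplicit false

open MeasureTheory Set Metric Filter Topology
open scoped ContDiff

namespace Pool.Agent.H58.NSP

open H459R3.NS W221.NS Pool.Agent.TH305.DR Pool.Agent.TH305.AX
open Pool.Agent.X96.AT (TS)

/-- The profile of the weight. -/
noncomputable def pc (A m q θ : ℝ) : ℝ := A * (1 - Real.exp (-(m * Real.exp (q * θ))))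

/-- Its derivative. -/
noncomputable def pc₁ (A m q θ : ℝ) : ℝ :=
  A * m * q * Real.exp (q * θ) * Real.exp (-(m * Real.exp (q * θ)))

/-- Its second derivative. -/
noncomputable def pc₂ (A m q θ : ℝ) : ℝ := pc₁ A m q θ * (q * (1 - m * Real.exp (q * θ)))

section
variable {A m q θ : ℝ}

lemma eq_hd : HasDerivAt (fun θ : ℝ => Real.exp (q * θ)) (Real.exp (q * θ) * q) θ := by
  have h1 : HasDerivAt (fun θ : ℝ => q * θ) q θ := by
    simpa using (hasDerivAt_id θ).const_mul q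
  exact h1.exp

lemma eq_hd2 : HasDerivAt (fun θ : ℝ => Real.exp (-(m * Real.exp (q * θ))))
    (Real.exp (-(m * Real.exp (q * θ))) * (-(m * (Real.exp (q * θ) * q)))) θ :=
  ((eq_hd.const_mul m).neg).exp

lemma pc_hd : HasDerivAt (pc A m q) (pc₁ A m q θ) θ := by
  have h := ((eq_hd2 (m := m) (q := q) (θ := θ)).const_sub 1).const_mul A
  refine h.congr_deriv ?_
  unfold pc₁
  ring

lemma pc_hd2 : HasDerivAt (pc₁ A m q) (pc₂ A m q θ) θ := by
  have h := ((eq_hd (q := q) (θ := θ)).const_mul (A * m * q)).mul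
    (eq_hd2 (m := m) (q := q) (θ := θ))
  refine h.congr_deriv ?_
  unfold pc₂ pc₁
  ring

lemma pc_cd : ContDiff ℝ ∞ (pc A m q) := by
  unfold pc
  fun_prop

lemma pc_bd (hA : 0 ≤ A) (hm : 0 ≤ m) : 0 ≤ pc A m q θ ∧ pc A m q θ ≤ A := by
  have h1 : Real.exp (-(m * Real.exp (q * θ))) ≤ 1 := by
    apply Real.exp_le_one_iff.2
    have : 0 ≤ m * Real.exp (q * θ) := by positivity
    linarith
  have h2 := Real.exp_pos (-(m * Real.exp (q * θ)))
  unfold pc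
  constructor
  · exact mul_nonneg hA (by linarith)
  · have := mul_le_mul_of_nonneg_left (show 1 - Real.exp (-(m * Real.exp (q * θ))) ≤ 1 by linarith) hA
    linarith

lemma pc_mono (hA : 0 ≤ A) (hm : 0 ≤ m) (hq : 0 ≤ q) {θ' : ℝ} (h : θ ≤ θ') :
    pc A m q θ ≤ pc A m q θ' := by
  unfold pc
  apply mul_le_mul_of_nonneg_left _ hA
  have h1 : Real.exp (q * θ) ≤ Real.exp (q * θ') :=
    Real.exp_le_exp.2 (mul_le_mul_of_nonneg_left h hq)
  have h2 := mul_le_mul_of_nonneg_left h1 hm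
  have h3 : Real.exp (-(m * Real.exp (q * θ'))) ≤ Real.exp (-(m * Real.exp (q * θ))) :=
    Real.exp_le_exp.2 (by linarith)
  linarith

end

/-- The parameters. -/
lemma cone_par {μ C ξ₀ : ℝ} (hμ : 0 < μ) (hC : 0 < C) (hξ₀ : 0 < ξ₀) :
    ∃ A m q : ℝ, 0 < A ∧ 0 < m ∧ 0 < q ∧ ∀ ξ e P ax G : ℝ, 0 < ξ → ξ ≤ 1 → 0 ≤ e →
      G = A * m * q * ξ ^ q * Real.exp (-(m * ξ ^ q)) →
      -(2 - μ) * (1 - ξ) - C * √(ξ * (1 - ξ)) - e ≤ (1 - ξ) * P - ξ * ax →
      (ξ < ξ₀ → μ - e ≤ P + 2) → (ξ₀ ≤ ξ → -C - e ≤ P + 2) →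
      μ - (1 + A * m * q) * e ≤ (P + 2) * (1 + (1 - ξ) * G) + ξ * (1 - ax) * G
        - 2 * (1 - ξ) * (G * (q * (1 - m * ξ ^ q))) := by
  obtain ⟨q, hq⟩ : ∃ q : ℝ, q = μ / 8 := ⟨_, rfl⟩
  have hq0 : 0 < q := by rw [hq]; positivity
  obtain ⟨ξ₁, hξ₁⟩ : ∃ ξ₁ : ℝ, ξ₁ = μ ^ 2 / (16 * C ^ 2 + μ ^ 2) := ⟨_, rfl⟩
  have hξ₁0 : 0 < ξ₁ := by rw [hξ₁]; positivity
  obtain ⟨ξs, hξs⟩ : ∃ ξs : ℝ, ξs = min ξ₀ ξ₁ := ⟨_, rfl⟩
  have hξs0 : 0 < ξs := by rw [hξs]; exact lt_min hξ₀ hξ₁0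
  obtain ⟨J, hJ⟩ : ∃ J : ℝ, J = 2 * q + C ^ 2 / 2 := ⟨_, rfl⟩
  have hJ0 : 0 < J := by rw [hJ]; positivity
  have hps : 0 < ξs ^ q := Real.rpow_pos_of_pos hξs0 _
  obtain ⟨m, hm⟩ : ∃ m : ℝ, m = J / (2 * q * ξs ^ q) := ⟨_, rfl⟩
  have hm0 : 0 < m := by rw [hm]; positivity
  have hmJ : 2 * q * m * ξs ^ q = J := by rw [hm]; field_simp
  have hp0 : 0 < ξ₀ ^ q := Real.rpow_pos_of_pos hξ₀ _
  obtain ⟨A, hA⟩ : ∃ A : ℝ, A = 2 * (C + μ) / (m * q * ξ₀ ^ q * Real.exp (-m) * ξ₀) := ⟨_, rfl⟩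
  have hA0 : 0 < A := by rw [hA]; positivity
  have hAe : A * m * q * ξ₀ ^ q * Real.exp (-m) * ξ₀ = 2 * (C + μ) := by rw [hA]; field_simp
  refine ⟨A, m, q, hA0, hm0, hq0, ?_⟩
  intro ξ e P ax G hξ hξ1 he hG hax hthin hfat
  obtain ⟨η, hη⟩ : ∃ η : ℝ, η = ξ ^ q := ⟨_, rfl⟩
  have hη0 : 0 < η := by rw [hη]; exact Real.rpow_pos_of_pos hξ _
  have hη1 : η ≤ 1 := by rw [hη]; exact Real.rpow_le_one hξ.le hξ1 hq0.le
  rw [← hη] at hG ⊢
  have hG0 : 0 < G := by rw [hG]; positivity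
  have hGm : G ≤ A * m * q := by
    have h1 : Real.exp (-(m * η)) ≤ 1 := by
      apply Real.exp_le_one_iff.2
      have : 0 ≤ m * η := by positivity
      linarith
    have h2 : 0 ≤ A * m * q := by positivity
    rw [hG]
    calc A * m * q * η * Real.exp (-(m * η)) ≤ A * m * q * 1 * 1 := by gcongr
      _ = _ := by ring
  obtain ⟨y, hy⟩ : ∃ y : ℝ, y = √(ξ * (1 - ξ)) := ⟨_, rfl⟩
  have h1ξ : 0 ≤ 1 - ξ := by linarith
  have hy0 : 0 ≤ y := by rw [hy]; exact Real.sqrt_nonneg _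
  have hy2 : y ^ 2 = ξ * (1 - ξ) := by rw [hy]; exact Real.sq_sqrt (mul_nonneg hξ.le h1ξ)
  rw [← hy] at hax
  have haxG := mul_le_mul_of_nonneg_right hax hG0.le
  have hyC : C * y ≤ ξ / 2 + C ^ 2 / 2 * (1 - ξ) := by
    have h1 : √ξ ^ 2 = ξ := Real.sq_sqrt hξ.le
    have h2 : √(1 - ξ) ^ 2 = 1 - ξ := Real.sq_sqrt h1ξ
    have h3 : y = √ξ * √(1 - ξ) := by rw [hy, Real.sqrt_mul hξ.le]
    rw [h3]
    nlinarith [sq_nonneg (√ξ - C * √(1 - ξ))]
  have hbig : ξs ≤ ξ → J ≤ 2 * q * m * η := by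
    intro h
    have h1 : ξs ^ q ≤ η := by rw [hη]; exact Real.rpow_le_rpow hξs0.le h hq0.le
    rw [← hmJ]
    gcongr
  have heG : e + G * e ≤ (1 + A * m * q) * e := by
    have h3 := mul_le_mul_of_nonneg_right hGm he
    linarith
  have hSe : (P + 2) * (1 + (1 - ξ) * G) + ξ * (1 - ax) * G
        - 2 * (1 - ξ) * (G * (q * (1 - m * η)))
      = (P + 2) + ((1 - ξ) * P - ξ * ax) * G + G * (2 * (1 - ξ) + ξ - 2 * q * (1 - ξ)
        + 2 * q * (1 - ξ) * (m * η)) := by ring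
  rw [hSe]
  rcases lt_or_ge ξ ξ₀ with hlt | hge
  · have hP := hthin hlt
    have hbr : 0 ≤ μ * (1 - ξ) + ξ - C * y - 2 * q * (1 - ξ) + 2 * q * (1 - ξ) * (m * η) := by
      rcases le_or_gt ξ ξ₁ with h1 | h1
      · have h2 : C * y ≤ μ / 4 * (1 - ξ) := by
          have h3 : ξ * (16 * C ^ 2 + μ ^ 2) ≤ μ ^ 2 := by
            rw [hξ₁, le_div_iff₀ (by positivity)] at h1
            exact h1
          have h4 : (C * y) ^ 2 ≤ (μ / 4 * (1 - ξ)) ^ 2 := by
            rw [mul_pow, hy2]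
            have h5 : 0 ≤ (1 - ξ) * (μ ^ 2 - ξ * (16 * C ^ 2 + μ ^ 2)) :=
              mul_nonneg h1ξ (by linarith)
            nlinarith
          exact le_of_sq_le_sq h4 (by positivity)
        have h3 : 0 ≤ 2 * q * (1 - ξ) * (m * η) := by positivity
        rw [hq] at h3 ⊢
        nlinarith
      · have h2 : ξs ≤ ξ := by rw [hξs]; exact (min_le_right _ _).trans h1.le
        have h3 := mul_le_mul_of_nonneg_left (hbig h2) h1ξ
        rw [hJ] at h3
        nlinarith [mul_nonneg h1ξ hμ.le]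
    have hbrG := mul_nonneg hG0.le hbr
    nlinarith
  · have hP := hfat hge
    have h2 : ξs ≤ ξ := by rw [hξs]; exact (min_le_left _ _).trans hge
    have h3 := mul_le_mul_of_nonneg_left (hbig h2) h1ξ
    rw [hJ] at h3
    have hbr : ξ₀ / 2 ≤ μ * (1 - ξ) + ξ - C * y - 2 * q * (1 - ξ)
        + 2 * q * (1 - ξ) * (m * η) := by
      nlinarith [mul_nonneg h1ξ hμ.le]
    have hbrG := mul_le_mul_of_nonneg_left hbr hG0.le
    have hGl : 2 * (C + μ) ≤ G * ξ₀ := by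
      have h4 : ξ₀ ^ q ≤ η := by rw [hη]; exact Real.rpow_le_rpow hξ₀.le hge hq0.le
      have h5 : Real.exp (-m) ≤ Real.exp (-(m * η)) := by
        apply Real.exp_le_exp.2
        have : m * η ≤ m * 1 := mul_le_mul_of_nonneg_left hη1 hm0.le
        linarith
      rw [← hAe, hG]
      gcongr
    nlinarith

/-- The logarithm of the weight. -/
noncomputable def Hk (A m q a : ℝ) (x : V) : ℝ :=
  Real.log (sg x) + pc A m q (Real.log (sg x) - Real.log (dsq a x))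

/-- The gradient of the logarithm of the weight. -/
noncomputable def gK (A m q a : ℝ) (x : V) (j : Fin 3) : ℝ :=
  2 * cj j * x j / sg x + pc₁ A m q (Real.log (sg x) - Real.log (dsq a x))
    * (2 * cj j * x j / sg x + -1 * (2 * (x j - ca a j) / dsq a x))

section
variable {A m q a : ℝ} {x : V}

/-- The logarithm of the distance to a point. -/
lemma jet_ld0 (hx : 0 < dsq a x) :
    Jet (fun y => Real.log (dsq a y)) x (fun j => 2 * (x j - ca a j) / dsq a x) (2 / dsq a x) := by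
  have h1 : ∀ᶠ r in 𝓝 (dsq a x), HasDerivAt Real.log (r⁻¹) r := by
    filter_upwards [lt_mem_nhds hx] with r hr
    exact Real.hasDerivAt_log hr.ne'
  have h := (jet_dsq (x := x) (a := a)).comp (φ := Real.log) (φ₁ := fun r => r⁻¹)
    (Real.contDiffAt_log.2 hx.ne') h1 (hasDerivAt_inv hx.ne')
  refine h.congr (fun j => by ring) ?_
  rw [sum_dsq]
  field_simp
  ring

lemma sum_th (hx : 0 < sg x) :
    ∑ j, (2 * cj j * x j / sg x + -1 * (2 * (x j - ca a j) / dsq a x)) ^ 2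
      = 4 / sg x * (1 - sg x / dsq a x) := by
  have hd := dsq_pos (a := a) hx
  have hs : x 0 ^ 2 + x 1 ^ 2 = sg x := rfl
  have hd' : x 0 ^ 2 + x 1 ^ 2 + (x 2 - a) ^ 2 = dsq a x := rfl
  have c0 : cj 0 = 1 := by simp [cj]
  have c1 : cj 1 = 1 := by simp [cj]
  have c2 : cj 2 = 0 := by simp [cj]
  rw [Fin.sum_univ_three, ca0, ca1, ca2, c0, c1, c2]
  have e : (2 * 1 * x 0 / sg x + -1 * (2 * (x 0 - 0) / dsq a x)) ^ 2
      + (2 * 1 * x 1 / sg x + -1 * (2 * (x 1 - 0) / dsq a x)) ^ 2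
      + (2 * 0 * x 2 / sg x + -1 * (2 * (x 2 - a) / dsq a x)) ^ 2
      = 4 * ((x 0 ^ 2 + x 1 ^ 2) / sg x) / sg x - 8 * ((x 0 ^ 2 + x 1 ^ 2) / sg x) / dsq a x
        + 4 * ((x 0 ^ 2 + x 1 ^ 2 + (x 2 - a) ^ 2) / dsq a x) / dsq a x := by ring
  rw [e, hd', hs, div_self hx.ne', div_self hd.ne']
  field_simp
  ring

lemma jet_Hk (hx : 0 < sg x) : Jet (Hk A m q a) x (gK A m q a x)
    (pc₁ A m q (Real.log (sg x) - Real.log (dsq a x)) * (-2 / dsq a x)
      + pc₂ A m q (Real.log (sg x) - Real.log (dsq a x)) * (4 / sg x * (1 - sg x / dsq a x))) := by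
  have hd := dsq_pos (a := a) hx
  have h1 := (jet_ls hx).add ((jet_ld0 hd).mul_left (-1))
  have e : (fun y => Real.log (sg y) + -1 * Real.log (dsq a y))
      = fun y => Real.log (sg y) - Real.log (dsq a y) := by
    funext y
    ring
  rw [e] at h1
  have h2 := h1.comp (φ := pc A m q) (φ₁ := pc₁ A m q) (pc_cd.contDiffAt.of_le (by norm_cast))
    (Eventually.of_forall fun r => pc_hd) pc_hd2
  have h3 := (jet_ls hx).add h2
  refine h3.congr (fun j => rfl) ?_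
  rw [sum_th hx]
  ring

lemma Hk_rot (θ : ℝ) : Hk A m q a (rot θ x) = Hk A m q a x := by
  unfold Hk
  rw [sg_rot, dsq_rot]

/-- The first order terms. -/
lemma cone_id (hx : 0 < sg x) (a' G F₂ : ℝ) (v : V)
    (hG : G = pc₁ A m q (Real.log (sg x) - Real.log (dsq a x)))
    (hF : F₂ = pc₂ A m q (Real.log (sg x) - Real.log (dsq a x))) :
    (G * (-2 / dsq a x) + F₂ * (4 / sg x * (1 - sg x / dsq a x)))
      - 2 * (x 0 * gK A m q a x 0 + x 1 * gK A m q a x 1) / sg x - ∑ j, v j * gK A m q a x j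
      - G * (2 * (x 2 - a) * a' / dsq a x)
      = -(2 / sg x) * ((x 0 * v 0 + x 1 * v 1 + 2) * (1 + (1 - sg x / dsq a x) * G)
        + sg x / dsq a x * (1 - (x 2 - a) * (v 2 - a')) * G
        - 2 * (1 - sg x / dsq a x) * F₂) := by
  have hd := dsq_pos (a := a) hx
  have hs : x 0 ^ 2 + x 1 ^ 2 = sg x := rfl
  have c0 : cj 0 = 1 := by simp [cj]
  have c1 : cj 1 = 1 := by simp [cj]
  have c2 : cj 2 = 0 := by simp [cj]
  rw [Fin.sum_univ_three]
  unfold gK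
  rw [← hG, ca0, ca1, ca2, c0, c1, c2]
  have k1 : 2 * (x 0 * (2 * 1 * x 0 / sg x + G * (2 * 1 * x 0 / sg x + -1 * (2 * (x 0 - 0) / dsq a x)))
      + x 1 * (2 * 1 * x 1 / sg x + G * (2 * 1 * x 1 / sg x + -1 * (2 * (x 1 - 0) / dsq a x))))
        / sg x = (4 + 4 * G) / sg x - 4 * G / dsq a x := by
    have e : 2 * (x 0 * (2 * 1 * x 0 / sg x
        + G * (2 * 1 * x 0 / sg x + -1 * (2 * (x 0 - 0) / dsq a x)))
        + x 1 * (2 * 1 * x 1 / sg x
          + G * (2 * 1 * x 1 / sg x + -1 * (2 * (x 1 - 0) / dsq a x)))) / sg x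
        = (4 + 4 * G) * ((x 0 ^ 2 + x 1 ^ 2) / sg x) / sg x
          - 4 * G * ((x 0 ^ 2 + x 1 ^ 2) / sg x) / dsq a x := by ring
    rw [e, hs, div_self hx.ne']
    ring
  rw [k1]
  field_simp
  ring

/-- The square of the gradient. -/
lemma gK_sq (hA : 0 ≤ A) (hm : 0 ≤ m) (hq : 0 ≤ q) (hx : 0 < sg x) :
    ∑ j, gK A m q a x j ^ 2 ≤ 4 * (1 + A * m * q) ^ 2 / sg x := by
  have hd := dsq_pos (a := a) hx
  obtain ⟨c, hc⟩ : ∃ c : ℝ, c = 2 / √(sg x) := ⟨_, rfl⟩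
  have hsq : 0 < √(sg x) := Real.sqrt_pos.2 hx
  have hc0 : 0 < c := by rw [hc]; positivity
  have hc2 : c ^ 2 = 4 / sg x := by
    rw [hc, div_pow, Real.sq_sqrt hx.le]
    norm_num
  have hξ : sg x / dsq a x ≤ 1 := (div_le_one hd).2 (sg_le_dsq a x)
  have hξ0 : 0 < sg x / dsq a x := by positivity
  obtain ⟨G, hG⟩ : ∃ G : ℝ, G = pc₁ A m q (Real.log (sg x) - Real.log (dsq a x)) := ⟨_, rfl⟩
  have hGb : 0 ≤ G ∧ G ≤ A * m * q := by
    have h1 : Real.exp (q * (Real.log (sg x) - Real.log (dsq a x))) ≤ 1 := by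
      apply Real.exp_le_one_iff.2
      have := Real.log_le_log hx (sg_le_dsq a x)
      exact mul_nonpos_of_nonneg_of_nonpos hq (by linarith)
    have h2 : Real.exp (-(m * Real.exp (q * (Real.log (sg x) - Real.log (dsq a x))))) ≤ 1 := by
      apply Real.exp_le_one_iff.2
      have : 0 ≤ m * Real.exp (q * (Real.log (sg x) - Real.log (dsq a x))) := by positivity
      linarith
    rw [hG]
    unfold pc₁
    constructor
    · positivity
    · calc _ ≤ A * m * q * 1 * 1 := by gcongr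
        _ = _ := by ring
  have h1 : ∑ j, (2 * cj j * x j / sg x) ^ 2 ≤ c ^ 2 := by
    have e : ∑ j, (2 * cj j * x j / sg x) ^ 2 = (∑ j, (2 * cj j * x j) ^ 2) / sg x ^ 2 := by
      rw [Finset.sum_div]
      exact Finset.sum_congr rfl fun j _ => by rw [div_pow]
    rw [e, sum_sg, hc2]
    apply le_of_eq
    field_simp
  have h2 : ∑ j, (G * (2 * cj j * x j / sg x + -1 * (2 * (x j - ca a j) / dsq a x))) ^ 2
      ≤ (A * m * q * c) ^ 2 := by
    have e : ∑ j, (G * (2 * cj j * x j / sg x + -1 * (2 * (x j - ca a j) / dsq a x))) ^ 2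
        = G ^ 2 * ∑ j, (2 * cj j * x j / sg x + -1 * (2 * (x j - ca a j) / dsq a x)) ^ 2 := by
      rw [Finset.mul_sum]
      exact Finset.sum_congr rfl fun j _ => by ring
    rw [e, sum_th hx, mul_pow, hc2]
    have h3 : G ^ 2 ≤ (A * m * q) ^ 2 := pow_le_pow_left₀ hGb.1 hGb.2 2
    have h4 : 4 / sg x * (1 - sg x / dsq a x) ≤ 4 / sg x := by
      have : 0 < 4 / sg x := by positivity
      nlinarith
    have h5 : 0 ≤ 4 / sg x * (1 - sg x / dsq a x) := mul_nonneg (by positivity) (by linarith)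
    calc _ ≤ (A * m * q) ^ 2 * (4 / sg x * (1 - sg x / dsq a x)) :=
          mul_le_mul_of_nonneg_right h3 h5
      _ ≤ _ := mul_le_mul_of_nonneg_left h4 (sq_nonneg _)
  have h := two_vec hc0.le (by positivity) h1 h2
  unfold gK
  rw [← hG]
  refine h.trans (le_of_eq ?_)
  have : c + A * m * q * c = (1 + A * m * q) * c := by ring
  rw [this, mul_pow, hc2]
  ring

/-- The time derivative of the logarithm of the weight. -/
lemma Hk_td {c : ℝ → ℝ} {c' t : ℝ} (hc : HasDerivAt c c' t) (hx : 0 < sg x) :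
    HasDerivAt (fun τ => Hk A m q (c τ) x)
      (pc₁ A m q (Real.log (sg x) - Real.log (dsq (c t) x))
        * (2 * (x 2 - c t) * c' / dsq (c t) x)) t := by
  have hd := dsq_pos (a := c t) hx
  have h1 : HasDerivAt (fun τ => dsq (c τ) x) (-(2 * (x 2 - c t) * c')) t := by
    unfold dsq
    have h2 := ((hc.const_sub (x 2)).pow 2).const_add (x 0 ^ 2 + x 1 ^ 2)
    refine h2.congr_deriv ?_
    push_cast
    ring
  have h3 := (h1.log hd.ne').const_sub (Real.log (sg x))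
  have h4 := (pc_hd (A := A) (m := m) (q := q)
    (θ := Real.log (sg x) - Real.log (dsq (c t) x))).comp t h3
  refine (h4.const_add (Real.log (sg x))).congr_deriv ?_
  ring

end

end Pool.Agent.H58.NSP
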