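import Pool.Agent.H58.NSP.Cone

/-!
Axisymmetric flows (helper58): Hoelder bound of the circulation under a bound of the inflow in thin
cones.
-/

set_option autoImplicit false

open MeasureTheory Set Metric Filter Topology
open scoped ContDiff

namespace Pool.Agent.H58.NSP

open H459R3.NS W221.NS Pool.Agent.TH305.DR Pool.Agent.TH305.AX
open Pool.Agent.X96.AT (TS)

/-- The points at which the velocity is restricted: `|Γ| > N ρ ^ (2 κ)`; `|Γ(t', y)| ≤ |Γ(t, x)|` for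
all `t' ∈ [T₁, t]` and all `y` with `ρ(y) ≤ ρ(x)` and `ρ(y) / R(t', y) ≤ ρ(x) / R(t, x)`, where
`R(t, x)` is the distance of `x` to the point of height `c(t)` of the axis; `|Γ|` increases with the
distance to the axis and does not increase with the distance to the plane `x₂ = c(t)`. -/
def Rk (κ N T₁ : ℝ) (c : ℝ → ℝ) (u : ℝ → V → V) (t : ℝ) (x : V) : Prop :=
  N * sg x ^ κ < |circ (u t) x| ∧
  (∀ t' ∈ Icc T₁ t, ∀ y, sg y ≤ sg x → sg y * dsq (c t) x ≤ sg x * dsq (c t') y →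
    |circ (u t') y| ≤ |circ (u t) x|) ∧
  0 < circ (u t) x * (x 0 * pd 0 (circ (u t)) x + x 1 * pd 1 (circ (u t)) x) ∧
  (x 2 - c t) * (circ (u t) x * pd 2 (circ (u t)) x) ≤ 0

/-- The differential inequality. -/
lemma cone_ineq {s μ κ β b S G2 γ Gm : ℝ} (hs : 0 < s) (hμ : 0 < μ)
    (hS : μ - κ * (β * √s + b * s) ≤ S) (hG : G2 ≤ 4 * (1 + Gm) ^ 2 / s) (hγ : 0 < γ)
    (h4 : 4 * γ * (1 + Gm) ^ 2 ≤ μ) :
    -(2 / s) * S + γ * G2 ≤ κ ^ 2 * β ^ 2 / μ + 2 * κ * b := by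
  obtain ⟨y, hy⟩ : ∃ y, y = √s := ⟨_, rfl⟩
  have hyp : 0 < y := by rw [hy]; exact Real.sqrt_pos.2 hs
  have hy2 : y ^ 2 = s := by rw [hy]; exact Real.sq_sqrt hs.le
  rw [← hy] at hS
  have h1 : γ * G2 ≤ μ / s := by
    calc γ * G2 ≤ γ * (4 * (1 + Gm) ^ 2 / s) := mul_le_mul_of_nonneg_left hG hγ.le
      _ = 4 * γ * (1 + Gm) ^ 2 / s := by ring
      _ ≤ μ / s := div_le_div_of_nonneg_right h4 hs.le
  have h2 : -(2 / s) * S ≤ -(2 / s) * (μ - κ * (β * y + b * s)) := by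
    have h3 : 0 < 2 / s := by positivity
    nlinarith [mul_le_mul_of_nonneg_left hS h3.le]
  have h3 : -(2 / s) * (μ - κ * (β * y + b * s)) = -(2 * μ / s) + 2 * κ * β / y + 2 * κ * b := by
    rw [← hy2]
    field_simp
    ring
  have h4 : 2 * κ * β / y ≤ μ / s + κ ^ 2 * β ^ 2 / μ := by
    have h5 : 0 ≤ (μ / y - κ * β) ^ 2 / μ := by positivity
    have h6 : (μ / y - κ * β) ^ 2 / μ = μ / s - 2 * κ * β / y + κ ^ 2 * β ^ 2 / μ := by
      rw [← hy2]
      field_simp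
      ring
    linarith
  have h5 : 2 * μ / s = μ / s + μ / s := by ring
  linarith

/-- The angular terms. -/
lemma cone_ang {s d w e C μ P ax : ℝ} (hs : 0 < s) (hsd : s ≤ d) (hw : w ^ 2 = d - s)
    (hax : -(2 - μ) * w ^ 2 - C * (√s * |w|) - e * d ≤ w ^ 2 * P - s * ax) :
    -(2 - μ) * (1 - s / d) - C * √(s / d * (1 - s / d)) - e ≤ (1 - s / d) * P - s / d * ax := by
  have hd : 0 < d := hs.trans_le hsd
  have hs2 : √s ^ 2 = s := Real.sq_sqrt hs.le
  have e1 : √(s / d * (1 - s / d)) = √s * |w| / d := by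
    have : s / d * (1 - s / d) = (√s * |w| / d) ^ 2 := by
      rw [div_pow, mul_pow, sq_abs, hs2, hw]
      field_simp
    rw [this, Real.sqrt_sq (by positivity)]
  have e2 : 1 - s / d = w ^ 2 / d := by
    rw [hw]
    field_simp
  have h1 := div_le_div_of_nonneg_right hax hd.le
  have h2 : (-(2 - μ) * w ^ 2 - C * (√s * |w|) - e * d) / d
      = -(2 - μ) * (w ^ 2 / d) - C * (√s * |w| / d) - e := by
    field_simp
  have h3 : (w ^ 2 * P - s * ax) / d = w ^ 2 / d * P - s / d * ax := by ring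
  rw [e1, e2, ← h2, ← h3]
  exact h1

variable {T : ℝ} {u : ℝ → V → V} {p : ℝ → V → ℝ}

/-- **Hoelder bound of the circulation.** -/
theorem coneT (h : TS 1 T u p) (hT : 0 < T) {c : ℝ → ℝ} (hc : ContinuousOn c (Ico 0 T))
    (hcd : ∀ t ∈ Ioo 0 T, DifferentiableAt ℝ c t)
    {R μ C Z κ N M D : ℝ} (hR : 0 < R) (hμ : 0 < μ) (hC : 0 < C) (hZ : 0 ≤ Z) (hκ : 0 < κ)
    {β b : ℝ → ℝ} (hβ : ContinuousOn β (Ico 0 T)) (hb : ContinuousOn b (Ico 0 T))
    (hβ0 : ∀ t ∈ Ico 0 T, 0 ≤ β t) (hb0 : ∀ t ∈ Ico 0 T, 0 ≤ b t)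
    (hD1 : ∀ t ∈ Ico 0 T, ∫ s in (0 : ℝ)..t, β s ^ 2 ≤ D)
    (hD2 : ∀ t ∈ Ico 0 T, ∫ s in (0 : ℝ)..t, b s ≤ D)
    (hM : ∀ t ∈ Ico 0 T, ∀ x, sg x ≤ R ^ 2 → |circ (u t) x| ≤ M)
    (hax : ∀ t ∈ Ioo 0 T, ∀ x, 0 < sg x → sg x < R ^ 2 → Rk κ N 0 c u t x →
      -(2 - μ) * (x 2 - c t) ^ 2 - C * (√(sg x) * |x 2 - c t|)
          - (β t * √(sg x) + b t * sg x) * dsq (c t) x
        ≤ (x 2 - c t) ^ 2 * (x 0 * u t x 0 + x 1 * u t x 1)
          - sg x * ((x 2 - c t) * (u t x 2 - deriv c t)))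
    (hthin : ∀ t ∈ Ioo 0 T, ∀ x, 0 < sg x → sg x < R ^ 2 → Rk κ N 0 c u t x →
      Z * √(sg x) < |x 2 - c t| →
      -2 + μ - β t * √(sg x) - b t * sg x ≤ x 0 * u t x 0 + x 1 * u t x 1)
    (hfat : ∀ t ∈ Ioo 0 T, ∀ x, 0 < sg x → sg x < R ^ 2 → Rk κ N 0 c u t x →
      |x 2 - c t| ≤ Z * √(sg x) →
      -C - β t * √(sg x) - b t * sg x ≤ x 0 * u t x 0 + x 1 * u t x 1) :
    ∃ A γ : ℝ, 0 ≤ A ∧ 0 < γ ∧ ∀ t ∈ Ico 0 T, ∀ x, 0 < sg x → sg x ≤ R ^ 2 →
      |circ (u t) x| ≤ A * sg x ^ γ := by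
  obtain ⟨A, m, q, hA0, hm0, hq0, hpar⟩ := cone_par (μ := μ) (C := C) (ξ₀ := 1 / (1 + Z ^ 2)) hμ hC
    (by positivity)
  obtain ⟨Gm, hGm⟩ : ∃ Gm : ℝ, Gm = A * m * q := ⟨_, rfl⟩
  have hGm0 : 0 < Gm := by rw [hGm]; positivity
  obtain ⟨g, hg⟩ : ∃ g : ℝ, g = min (μ / 4) (min κ (1 / 4)) := ⟨_, rfl⟩
  have hg0 : 0 < g := by rw [hg]; positivity
  have hgμ : g ≤ μ / 4 := by rw [hg]; exact min_le_left _ _
  have hgκ : g ≤ κ := by rw [hg]; exact (min_le_right _ _).trans (min_le_left _ _)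
  have hg4 : g ≤ 1 / 4 := by rw [hg]; exact (min_le_right _ _).trans (min_le_right _ _)
  obtain ⟨γ, hγe⟩ : ∃ γ : ℝ, γ = g / (1 + Gm) ^ 2 := ⟨_, rfl⟩
  have hγ : 0 < γ := by rw [hγe]; positivity
  have hγ1 : γ * (1 + Gm) ^ 2 = g := by rw [hγe]; field_simp
  have h4 : 4 * γ * (1 + Gm) ^ 2 ≤ μ := by linarith
  have hγg : γ ≤ g := by
    have h1 : 1 ≤ (1 + Gm) ^ 2 := by nlinarith
    have := mul_le_mul_of_nonneg_left h1 hγ.le
    linarith
  have hγκ : γ ≤ κ := hγg.trans hgκ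
  have hγ2 : γ < 1 / 2 := by linarith
  have hR2 : 0 < R ^ 2 := by positivity
  -- the barrier
  obtain ⟨K, hK⟩ : ∃ K : ℝ → V → ℝ, K = fun t x => γ * Hk A m q (c t) x := ⟨_, rfl⟩
  have hKe : ∀ t x, K t x = γ * Hk A m q (c t) x := fun t x => by rw [hK]
  have hKlow : ∀ t x, 0 < sg x → sg x ^ γ ≤ Real.exp (K t x) := fun t x hx => by
    rw [Real.rpow_def_of_pos hx, hKe]
    apply Real.exp_le_exp.2
    unfold Hk
    have h1 := mul_nonneg hγ.le (pc_bd (A := A) (m := m) (q := q)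
      (θ := Real.log (sg x) - Real.log (dsq (c t) x)) hA0.le hm0.le).1
    linarith
  have hKup : ∀ t x, 0 < sg x → Real.exp (K t x) ≤ Real.exp (γ * A) * sg x ^ γ :=
    fun t x hx => by
      rw [Real.rpow_def_of_pos hx, hKe, ← Real.exp_add]
      apply Real.exp_le_exp.2
      unfold Hk
      have h1 := mul_le_mul_of_nonneg_left (pc_bd (A := A) (m := m) (q := q)
        (θ := Real.log (sg x) - Real.log (dsq (c t) x)) hA0.le hm0.le).2 hγ.le
      linarith
  have hKc : ContinuousOn (fun z : ℝ × V => K z.1 z.2)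
      (Ico 0 T ×ˢ {x | 0 < sg x ∧ sg x ≤ R ^ 2}) := by
    obtain ⟨Y, hY⟩ : ∃ Y : Set (ℝ × V), Y = Ico 0 T ×ˢ {x | 0 < sg x ∧ sg x ≤ R ^ 2} := ⟨_, rfl⟩
    rw [← hY]
    have hq : ContinuousOn (fun z : ℝ × V => dsq (c z.1) z.2) Y := by
      have h1 : ContinuousOn (fun z : ℝ × V => c z.1) Y :=
        hc.comp continuous_fst.continuousOn fun z hz => by rw [hY] at hz; exact hz.1
      have c0 : ContinuousOn (fun z : ℝ × V => z.2 0) Y := by fun_prop
      have c1 : ContinuousOn (fun z : ℝ × V => z.2 1) Y := by fun_prop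
      have c2 : ContinuousOn (fun z : ℝ × V => z.2 2) Y := by fun_prop
      unfold dsq
      exact ((c0.pow 2).add (c1.pow 2)).add ((c2.sub h1).pow 2)
    have hs : ContinuousOn (fun z : ℝ × V => sg z.2) Y :=
      (sm_sg.continuous.comp continuous_snd).continuousOn
    have hpos : ∀ z ∈ Y, 0 < sg z.2 := fun z hz => by rw [hY] at hz; exact hz.2.1
    have hls := hs.log fun z hz => (hpos z hz).ne'
    have hlq := hq.log fun z hz => (dsq_pos (hpos z hz)).ne'
    rw [hK]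
    unfold Hk
    exact ContinuousOn.const_mul (hls.add
      ((pc_cd (A := A) (m := m) (q := q)).continuous.comp_continuousOn (hls.sub hlq))) γ
  have hKr : ∀ t θ x, K t (rot θ x) = K t x := fun t θ x => by
    rw [hKe, hKe, Hk_rot]
  obtain ⟨G, hG⟩ : ∃ G : ℝ → V → ℝ, G = fun t x =>
    pc₁ A m q (Real.log (sg x) - Real.log (dsq (c t) x)) := ⟨_, rfl⟩
  obtain ⟨F, hF⟩ : ∃ F : ℝ → V → ℝ, F = fun t x =>
    pc₂ A m q (Real.log (sg x) - Real.log (dsq (c t) x)) := ⟨_, rfl⟩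
  have hGe : ∀ t x, G t x = pc₁ A m q (Real.log (sg x) - Real.log (dsq (c t) x)) :=
    fun t x => by rw [hG]
  have hFe : ∀ t x, F t x = pc₂ A m q (Real.log (sg x) - Real.log (dsq (c t) x)) :=
    fun t x => by rw [hF]
  have hKt : ∀ t ∈ Ioo 0 T, ∀ x, 0 < sg x → sg x < R ^ 2 → HasDerivAt (fun τ => K τ x)
      (γ * (G t x * (2 * (x 2 - c t) * deriv c t / dsq (c t) x))) t := fun t ht x hx _ => by
    rw [hK, hG]
    exact (Hk_td (hcd t ht).hasDerivAt hx).const_mul γ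
  have hKj : ∀ t ∈ Ioo 0 T, ∀ x, 0 < sg x → sg x < R ^ 2 →
      Jet (K t) x (fun j => γ * gK A m q (c t) x j)
        (γ * (G t x * (-2 / dsq (c t) x)
          + F t x * (4 / sg x * (1 - sg x / dsq (c t) x)))) := fun t _ x hx _ => by
    have h1 := (jet_Hk (A := A) (m := m) (q := q) (a := c t) hx).mul_left γ
    rw [hK, hG, hF]
    exact h1
  -- constants
  obtain ⟨U, hU0, hU⟩ := h.b.u_bdd hT
  have hM0 : 0 ≤ M := (abs_nonneg _).trans (hM 0 ⟨le_rfl, hT⟩ 0 (by simp [sg]; positivity))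
  obtain ⟨Q, hQ⟩ : ∃ Q : ℝ, Q = M / (R ^ 2) ^ γ + (|N| * (R ^ 2) ^ (κ - γ)
    + 2 * U * (R ^ 2) ^ (1 / 2 - γ)) := ⟨_, rfl⟩
  have q1 : 0 ≤ M / (R ^ 2) ^ γ := by positivity
  have q2 : 0 ≤ |N| * (R ^ 2) ^ (κ - γ) := by positivity
  have q3 : 0 ≤ 2 * U * (R ^ 2) ^ (1 / 2 - γ) := by positivity
  have hQ0 : 0 ≤ Q := by rw [hQ]; positivity
  have hbd : ∀ t ∈ Ico 0 T, ∀ x, 0 < sg x → sg x ≤ R ^ 2 → (sg x = R ^ 2 ∨ t = 0) →
      |circ (u t) x| ≤ Q * Real.exp (K t x) := by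
    intro t ht x hx hxR hor
    have h0 := mul_le_mul_of_nonneg_left (hKlow t x hx) hQ0
    refine le_trans ?_ h0
    have hsγ : 0 < sg x ^ γ := Real.rpow_pos_of_pos hx _
    rcases hor with h1 | h1
    · have h2 := hM t ht x hxR
      have h3 : 0 < (R ^ 2) ^ γ := Real.rpow_pos_of_pos hR2 _
      rw [h1]
      calc |circ (u t) x| ≤ M := h2
        _ = M / (R ^ 2) ^ γ * (R ^ 2) ^ γ := by field_simp
        _ ≤ Q * (R ^ 2) ^ γ := by
          apply mul_le_mul_of_nonneg_right _ h3.le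
          rw [hQ]
          linarith
    · have h2 := circ_le (u t) x
      have h3 := hU t (by rw [h1]; exact ⟨le_rfl, le_rfl⟩) x
      have e : √(sg x) = sg x ^ (1 / 2 - γ) * sg x ^ γ := by
        rw [← Real.rpow_add hx, Real.sqrt_eq_rpow]
        congr 1
        ring
      have h5 : sg x ^ (1 / 2 - γ) ≤ (R ^ 2) ^ (1 / 2 - γ) :=
        Real.rpow_le_rpow hx.le hxR (by linarith)
      calc |circ (u t) x| ≤ 2 * √(sg x) * ‖u t x‖ := h2
        _ ≤ 2 * √(sg x) * U := by gcongr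
        _ = 2 * U * sg x ^ (1 / 2 - γ) * sg x ^ γ := by rw [e]; ring
        _ ≤ 2 * U * (R ^ 2) ^ (1 / 2 - γ) * sg x ^ γ := by gcongr
        _ ≤ Q * sg x ^ γ := by
          apply mul_le_mul_of_nonneg_right _ hsγ.le
          rw [hQ]
          linarith
  obtain ⟨κ₂, hκ₂⟩ : ∃ κ₂ : ℝ, κ₂ = 1 + Gm := ⟨_, rfl⟩
  have hκ₂0 : 0 < κ₂ := by rw [hκ₂]; positivity
  obtain ⟨B, hB⟩ : ∃ B : ℝ → ℝ, B = fun t => γ * (κ₂ ^ 2 * β t ^ 2 / μ + 2 * κ₂ * b t) :=
    ⟨_, rfl⟩
  have hBc : ContinuousOn B (Ico 0 T) := by rw [hB]; fun_prop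
  have hB0 : ∀ t ∈ Ico 0 T, 0 ≤ B t := fun t ht => by
    have := hb0 t ht
    rw [hB]
    positivity
  have key := cmpK h (S := R ^ 2) (A := Q) hT hKc hKr hKt hKj
    (fun T' hT' ε hε => by
      obtain ⟨r, hr⟩ : ∃ r : ℝ, r = 1 / 2 - γ := ⟨_, rfl⟩
      have hr0 : 0 < r := by linarith
      refine ⟨ε ^ (1 / r), Real.rpow_pos_of_pos hε _, fun t ht x hx hxR hxδ => ?_⟩
      have h1 : sg x ^ r ≤ ε := by
        have := Real.rpow_le_rpow hx.le hxδ.le hr0.le
        rwa [← Real.rpow_mul hε.le, one_div_mul_cancel hr0.ne', Real.rpow_one] at this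
      have h2 : √(sg x) = sg x ^ r * sg x ^ γ := by
        rw [← Real.rpow_add hx, hr, Real.sqrt_eq_rpow]
        congr 1
        ring
      have h3 : 0 < sg x ^ γ := Real.rpow_pos_of_pos hx _
      calc √(sg x) = sg x ^ r * sg x ^ γ := h2
        _ ≤ ε * sg x ^ γ := mul_le_mul_of_nonneg_right h1 h3.le
        _ ≤ _ := mul_le_mul_of_nonneg_left (hKlow t x hx) hε.le)
    (fun T' hT' δ hδ => by
      refine ⟨δ ^ γ, Real.rpow_pos_of_pos hδ _, fun t ht x hδx hxR => ?_⟩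
      exact (Real.rpow_le_rpow hδ.le hδx hγ.le).trans (hKlow t x (hδ.trans_le hδx)))
    hBc hB0 hQ0 hbd
    (fun t ht x hx hxR hAx hrec hgr => by
      have htI : t ∈ Ico 0 T := ⟨ht.1.le, ht.2⟩
      have hd := dsq_pos (a := c t) hx
      have hsd := sg_le_dsq (c t) x
      have hEp := Real.exp_pos (K t x)
      have hwd : (x 2 - c t) ^ 2 = dsq (c t) x - sg x := by
        unfold dsq sg
        ring
      have hGp : 0 < G t x := by
        rw [hGe]
        unfold pc₁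
        positivity
      have hξ1 : sg x / dsq (c t) x ≤ 1 := (div_le_one hd).2 hsd
      have hξ0 : 0 < sg x / dsq (c t) x := by positivity
      have r1 : N * sg x ^ κ < |circ (u t) x| := by
        refine lt_of_le_of_lt ?_ hAx
        have e : sg x ^ κ = sg x ^ (κ - γ) * sg x ^ γ := by
          rw [← Real.rpow_add hx]
          congr 1
          ring
        have h1 : sg x ^ (κ - γ) ≤ (R ^ 2) ^ (κ - γ) :=
          Real.rpow_le_rpow hx.le hxR.le (by linarith)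
        have h2 : 0 < sg x ^ γ := Real.rpow_pos_of_pos hx _
        have h3 : 0 < sg x ^ κ := Real.rpow_pos_of_pos hx _
        calc N * sg x ^ κ ≤ |N| * sg x ^ κ := mul_le_mul_of_nonneg_right (le_abs_self N) h3.le
          _ = |N| * sg x ^ (κ - γ) * sg x ^ γ := by rw [e]; ring
          _ ≤ |N| * (R ^ 2) ^ (κ - γ) * sg x ^ γ := by gcongr
          _ ≤ Q * sg x ^ γ := by
            apply mul_le_mul_of_nonneg_right _ h2.le
            rw [hQ]
            linarith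
          _ ≤ _ := mul_le_mul_of_nonneg_left (hKlow t x hx) hQ0
      have r2 : ∀ t' ∈ Icc 0 t, ∀ y, sg y ≤ sg x → sg y * dsq (c t) x ≤ sg x * dsq (c t') y →
          |circ (u t') y| ≤ |circ (u t) x| := by
        intro t' ht' y hyx hyd
        rcases eq_or_lt_of_le (sg_nonneg y) with hy | hy
        · have h0 : y 0 = 0 ∧ y 1 = 0 := by
            unfold sg at hy
            constructor <;> nlinarith [sq_nonneg (y 0), sq_nonneg (y 1)]
          have h1 : circ (u t') y = 0 := by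
            unfold circ
            rw [h0.1, h0.2]
            ring
          rw [h1, abs_zero]
          exact abs_nonneg _
        · have h1 := hrec t' ht' y hy (hyx.trans hxR.le)
          have hdy := dsq_pos (a := c t') hy
          have h2 : Real.log (sg y) - Real.log (dsq (c t') y)
              ≤ Real.log (sg x) - Real.log (dsq (c t) x) := by
            have h3 := Real.log_le_log (mul_pos hy hd) hyd
            rw [Real.log_mul hy.ne' hd.ne', Real.log_mul hx.ne' hdy.ne'] at h3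
            linarith
          have h3 : Real.exp (K t' y) ≤ Real.exp (K t x) := by
            apply Real.exp_le_exp.2
            rw [hKe, hKe]
            apply mul_le_mul_of_nonneg_left _ hγ.le
            unfold Hk
            exact add_le_add (Real.log_le_log hy hyx) (pc_mono hA0.le hm0.le hq0.le h2)
          have h4 := mul_le_mul_of_nonneg_left h3 (abs_nonneg (circ (u t) x))
          exact le_of_mul_le_mul_right (h1.trans h4) hEp
      obtain ⟨b₁, hb₁, hgr'⟩ := hgr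
      have c0 : cj 0 = 1 := by simp [cj]
      have c1 : cj 1 = 1 := by simp [cj]
      have c2 : cj 2 = 0 := by simp [cj]
      have hss : x 0 ^ 2 + x 1 ^ 2 = sg x := rfl
      have hrad : x 0 * gK A m q (c t) x 0 + x 1 * gK A m q (c t) x 1
          = 2 + 2 * G t x * (1 - sg x / dsq (c t) x) := by
        unfold gK
        rw [← hGe, ca0, ca1, c0, c1]
        have e : x 0 * (2 * 1 * x 0 / sg x
            + G t x * (2 * 1 * x 0 / sg x + -1 * (2 * (x 0 - 0) / dsq (c t) x)))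
            + x 1 * (2 * 1 * x 1 / sg x
              + G t x * (2 * 1 * x 1 / sg x + -1 * (2 * (x 1 - 0) / dsq (c t) x)))
            = (2 + 2 * G t x) * ((x 0 ^ 2 + x 1 ^ 2) / sg x)
              - 2 * G t x * ((x 0 ^ 2 + x 1 ^ 2) / dsq (c t) x) := by ring
        rw [e, hss, div_self hx.ne']
        ring
      have r3 : 0 < circ (u t) x * (x 0 * pd 0 (circ (u t)) x + x 1 * pd 1 (circ (u t)) x) := by
        have e : circ (u t) x * (x 0 * pd 0 (circ (u t)) x + x 1 * pd 1 (circ (u t)) x)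
            = b₁ * γ * (x 0 * gK A m q (c t) x 0 + x 1 * gK A m q (c t) x 1) := by
          linear_combination x 0 * hgr' 0 + x 1 * hgr' 1
        rw [e, hrad]
        have : 0 ≤ 2 * G t x * (1 - sg x / dsq (c t) x) :=
          mul_nonneg (by positivity) (by linarith)
        positivity
      have r4 : (x 2 - c t) * (circ (u t) x * pd 2 (circ (u t)) x) ≤ 0 := by
        rw [hgr' 2]
        unfold gK
        rw [← hGe, ca2, c2]
        have e : (x 2 - c t) * (b₁ * (γ * (2 * 0 * x 2 / sg x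
            + G t x * (2 * 0 * x 2 / sg x + -1 * (2 * (x 2 - c t) / dsq (c t) x)))))
            = -(b₁ * γ * G t x * 2 * (x 2 - c t) ^ 2 / dsq (c t) x) := by ring
        rw [e]
        have : 0 ≤ b₁ * γ * G t x * 2 * (x 2 - c t) ^ 2 / dsq (c t) x := by positivity
        linarith
      have hRk : Rk κ N 0 c u t x := ⟨r1, r2, r3, r4⟩
      have hsq : 0 < √(sg x) := Real.sqrt_pos.2 hx
      have hs2 : √(sg x) ^ 2 = sg x := Real.sq_sqrt hx.le
      have he0 : 0 ≤ β t * √(sg x) + b t * sg x := by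
        have := hβ0 t htI
        have := hb0 t htI
        positivity
      have hang := cone_ang hx hsd hwd (hax t ht x hx hxR hRk)
      have hexpη : Real.exp (q * (Real.log (sg x) - Real.log (dsq (c t) x)))
          = (sg x / dsq (c t) x) ^ q := by
        rw [Real.rpow_def_of_pos hξ0, Real.log_div hx.ne' hd.ne']
        congr 1
        ring
      have hGη : G t x = A * m * q * (sg x / dsq (c t) x) ^ q
          * Real.exp (-(m * (sg x / dsq (c t) x) ^ q)) := by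
        rw [hGe]
        unfold pc₁
        rw [hexpη]
      have hFη : F t x = G t x * (q * (1 - m * (sg x / dsq (c t) x) ^ q)) := by
        rw [hFe, hGe]
        unfold pc₂
        rw [hexpη]
      have hiff : sg x / dsq (c t) x < 1 / (1 + Z ^ 2) ↔ Z * √(sg x) < |x 2 - c t| := by
        rw [div_lt_div_iff₀ hd (by positivity), ← abs_of_nonneg (mul_nonneg hZ hsq.le),
          ← sq_lt_sq, mul_pow, hs2, hwd]
        constructor <;> intro h <;> nlinarith
      have hS := hpar (sg x / dsq (c t) x) (β t * √(sg x) + b t * sg x)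
        (x 0 * u t x 0 + x 1 * u t x 1) ((x 2 - c t) * (u t x 2 - deriv c t)) (G t x) hξ0 hξ1 he0
        hGη hang
        (fun h => by
          have := hthin t ht x hx hxR hRk (hiff.1 h)
          linarith)
        (fun h => by
          have h1 : |x 2 - c t| ≤ Z * √(sg x) := by
            by_contra hcon
            push Not at hcon
            exact absurd (hiff.2 hcon) (not_lt.2 h)
          have := hfat t ht x hx hxR hRk h1
          linarith)
      rw [← hFη, ← hGm, ← hκ₂] at hS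
      have hG2 := gK_sq (A := A) (m := m) (q := q) (a := c t) hA0.le hm0.le hq0.le hx
      rw [← hGm] at hG2
      have hineq := cone_ineq hx hμ hS hG2 hγ h4
      rw [show (x 0 * u t x 0 + x 1 * u t x 1 + 2) * (1 + (1 - sg x / dsq (c t) x) * G t x)
        + sg x / dsq (c t) x * (1 - (x 2 - c t) * (u t x 2 - deriv c t)) * G t x
        - 2 * (1 - sg x / dsq (c t) x) * F t x = (x 0 * u t x 0 + x 1 * u t x 1 + 2)
          * (1 + (1 - sg x / dsq (c t) x) * G t x)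
        + sg x / dsq (c t) x * (1 - (x 2 - c t) * (u t x 2 - deriv c t)) * G t x
        - 2 * (1 - sg x / dsq (c t) x) * F t x from rfl,
        ← cone_id (A := A) (m := m) (q := q) hx (deriv c t) (G t x) (F t x) (u t x) (hGe t x)
          (hFe t x)] at hineq
      have h1 := mul_le_mul_of_nonneg_left hineq hγ.le
      have e1 : ∑ j, (γ * gK A m q (c t) x j) ^ 2 = γ ^ 2 * ∑ j, gK A m q (c t) x j ^ 2 := by
        rw [Finset.mul_sum]
        exact Finset.sum_congr rfl fun j _ => by ring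
      have e2 : ∑ j, u t x j * (γ * gK A m q (c t) x j)
          = γ * ∑ j, u t x j * gK A m q (c t) x j := by
        rw [Finset.mul_sum]
        exact Finset.sum_congr rfl fun j _ => by ring
      have e3 : B t = γ * (κ₂ ^ 2 * β t ^ 2 / μ + 2 * κ₂ * b t) := by rw [hB]
      have e7 : 2 * (x 0 * (γ * gK A m q (c t) x 0) + x 1 * (γ * gK A m q (c t) x 1)) / sg x
          = γ * (2 * (x 0 * gK A m q (c t) x 0 + x 1 * gK A m q (c t) x 1) / sg x) := by ring
      rw [e1, e2, e3, e7]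
      linarith)
  obtain ⟨I, hI⟩ : ∃ I : ℝ, I = γ * (κ₂ ^ 2 / μ * D + 2 * κ₂ * D) := ⟨_, rfl⟩
  refine ⟨Q * Real.exp I * Real.exp (γ * A), γ, by positivity, hγ, fun t ht x hx hxR => ?_⟩
  have h1 := key t ht x hx hxR
  have h2 := hKup t x hx
  have h3 : ∫ s in (0 : ℝ)..t, B s ≤ I := by
    have hsub : uIcc 0 t ⊆ Ico 0 T := by
      rw [uIcc_of_le ht.1]
      exact fun q hq => ⟨hq.1, hq.2.trans_lt ht.2⟩
    have hB' : B = fun s => γ * (κ₂ ^ 2 / μ * β s ^ 2 + 2 * κ₂ * b s) := by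
      rw [hB]
      funext s
      ring
    have i1 : IntervalIntegrable (fun s => κ₂ ^ 2 / μ * β s ^ 2) volume 0 t :=
      (((hβ.pow 2).const_mul _).mono hsub).intervalIntegrable
    have i2 : IntervalIntegrable (fun s => 2 * κ₂ * b s) volume 0 t :=
      ((hb.const_mul _).mono hsub).intervalIntegrable
    rw [hB', intervalIntegral.integral_const_mul, intervalIntegral.integral_add i1 i2,
      intervalIntegral.integral_const_mul, intervalIntegral.integral_const_mul, hI]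
    have h4 := hD1 t ht
    have h5 := hD2 t ht
    gcongr
  have h4 : Real.exp (∫ s in (0 : ℝ)..t, B s) ≤ Real.exp I := Real.exp_le_exp.2 h3
  have hEp := Real.exp_pos (K t x)
  calc |circ (u t) x| ≤ Q * Real.exp (∫ s in (0 : ℝ)..t, B s) * Real.exp (K t x) := h1
    _ ≤ Q * Real.exp I * Real.exp (K t x) := by gcongr
    _ ≤ Q * Real.exp I * (Real.exp (γ * A) * sg x ^ γ) := by gcongr
    _ = _ := by ring

/-- A power is smaller than the powers of the logarithm. -/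
lemma pow_log {γ L R s : ℝ} (hγ : 0 < γ) (hR : 0 < R) (hRL : R < L) (hs : 0 < s)
    (hsR : s ≤ R ^ 2) :
    s ^ γ ≤ L ^ (2 * γ) / (2 * γ / 3) ^ (3 : ℝ) * Real.log (L / √s) ^ (-(3 : ℝ)) := by
  have hL : 0 < L := hR.trans hRL
  obtain ⟨y, hy⟩ : ∃ y, y = √s := ⟨_, rfl⟩
  have hyp : 0 < y := by rw [hy]; exact Real.sqrt_pos.2 hs
  have hyR : y ≤ R := by rw [hy]; exact Real.sqrt_le_iff.2 ⟨hR.le, hsR⟩
  have hy2 : s = y ^ (2 : ℝ) := by
    rw [hy, Real.rpow_two, Real.sq_sqrt hs.le]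
  have hℓ : 0 < Real.log (L / y) := Real.log_pos ((one_lt_div hyp).2 (hyR.trans_lt hRL))
  rw [← hy, hy2, ← Real.rpow_mul hyp.le]
  have h1 := Real.log_le_rpow_div (x := L / y) (by positivity)
    (show 0 < 2 * γ / 3 by positivity)
  have h2 : Real.log (L / y) ^ (3 : ℝ) ≤ (L / y) ^ (2 * γ) / (2 * γ / 3) ^ (3 : ℝ) := by
    calc Real.log (L / y) ^ (3 : ℝ) ≤ ((L / y) ^ (2 * γ / 3) / (2 * γ / 3)) ^ (3 : ℝ) :=
          Real.rpow_le_rpow hℓ.le h1 (by norm_num)
      _ = _ := by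
        rw [Real.div_rpow (by positivity) (by positivity), ← Real.rpow_mul (by positivity)]
        congr 2
        ring
  have h3 : 0 < Real.log (L / y) ^ (3 : ℝ) := Real.rpow_pos_of_pos hℓ _
  rw [Real.rpow_neg hℓ.le, ← div_eq_mul_inv, le_div_iff₀ h3]
  have h4 : (L / y) ^ (2 * γ) = L ^ (2 * γ) / y ^ (2 * γ) := Real.div_rpow hL.le hyp.le _
  rw [h4] at h2
  have h5 : 0 < y ^ (2 * γ) := Real.rpow_pos_of_pos hyp _
  calc y ^ (2 * γ) * Real.log (L / y) ^ (3 : ℝ)
      ≤ y ^ (2 * γ) * (L ^ (2 * γ) / y ^ (2 * γ) / (2 * γ / 3) ^ (3 : ℝ)) := by gcongr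
    _ = _ := by field_simp

end Pool.Agent.H58.NSP
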