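import Pool.Agent.H58.NSP.CmpK
import Pool.Agent.H58.NSP.Wgt

/-!
Axisymmetric flows (helper58): logarithmic decay of the circulation at the axis under a one-sided
bound of an oblique component of the velocity.
-/

set_option autoImplicit false

open MeasureTheory Set Metric Filter Topology
open scoped ContDiff

namespace Pool.Agent.H58.NSP

open H459R3.NS W221.NS Pool.Agent.TH305.DR Pool.Agent.TH305.AX
open Pool.Agent.X96.AT (TS)

/-- The points at which the velocity is restricted: `|Γ| > N (log (L / ρ)) ^ (-α)`; the point is a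
record: `|Γ(t', y)| ≤ |Γ(t, x)|` for all `t' ∈ [T₁, t]` and all `y` of the cylinder of radius `R`
at which the weight is not larger; the gradient of `|Γ|` is a positive multiple of the gradient of
the weight. -/
def Rw {k : ℕ} (l r : Fin k → ℝ) (c : Fin k → ℝ → ℝ) (N L α R T₁ : ℝ) (u : ℝ → V → V) (t : ℝ)
    (x : V) : Prop :=
  N * Real.log (L / √(sg x)) ^ (-α) < |circ (u t) x| ∧
  (∀ t' ∈ Icc T₁ t, ∀ y, 0 < sg y → sg y ≤ R ^ 2 →
    Hw l r (fun i => c i t') y ≤ Hw l r (fun i => c i t) x → |circ (u t') y| ≤ |circ (u t) x|) ∧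
  ∃ b > 0, ∀ j, circ (u t) x * pd j (circ (u t)) x = b * gW l r (fun i => c i t) x j

/-- The differential inequality. -/
lemma crit_ineq {s ℓ ℓ₀ D σ Λ α a g₀ β b E Cm G2 Q B : ℝ} (hs : 0 < s) (hℓ₀ : 0 < ℓ₀)
    (hℓ : ℓ₀ ≤ ℓ) (hσ : 0 < σ) (hD : 2 * σ * ℓ ≤ D) (hα : 0 < α) (hg : 0 < g₀)
    (hge : g₀ = a - (1 + α) * (1 + Λ) ^ 2 / σ) (hb : 0 ≤ b) (hE : E ≤ Cm) (hCm : 0 ≤ Cm)
    (hG : G2 ≤ 4 * (1 + Λ) ^ 2 / s) (hQ : -2 + a / ℓ - β * √s - b * s ≤ Q)
    (hB : B = α / (2 * σ) * (β ^ 2 / (2 * g₀) + (2 * b + Cm) / ℓ₀)) :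
    -(2 / s) * (2 + Q) + E + (1 + α) / D * G2 ≤ D / α * B := by
  have hℓp : 0 < ℓ := hℓ₀.trans_le hℓ
  have hDp : 0 < D := lt_of_lt_of_le (by positivity) hD
  obtain ⟨y, hy⟩ : ∃ y, y = √s := ⟨_, rfl⟩
  have hyp : 0 < y := by rw [hy]; exact Real.sqrt_pos.2 hs
  have hy2 : y ^ 2 = s := by rw [hy]; exact Real.sq_sqrt hs.le
  rw [← hy] at hQ
  have h1 : (1 + α) / D * G2 ≤ (2 / s) * ((a - g₀) / ℓ) := by
    have e : (2 / s) * ((a - g₀) / ℓ) = (1 + α) / (2 * σ * ℓ) * (4 * (1 + Λ) ^ 2 / s) := by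
      rw [hge]
      field_simp
      ring
    rw [e]
    have h2 : (1 + α) / D ≤ (1 + α) / (2 * σ * ℓ) := by gcongr
    calc (1 + α) / D * G2 ≤ (1 + α) / D * (4 * (1 + Λ) ^ 2 / s) := by gcongr
      _ ≤ (1 + α) / (2 * σ * ℓ) * (4 * (1 + Λ) ^ 2 / s) := by gcongr
  have h2 : -(2 / s) * (2 + Q) ≤ -(2 / s) * (a / ℓ - β * y - b * s) := by
    have h3 : 0 < 2 / s := by positivity
    have h4 : a / ℓ - β * y - b * s ≤ 2 + Q := by linarith
    nlinarith [mul_le_mul_of_nonneg_left h4 h3.le]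
  have h3 : -(2 / s) * (a / ℓ - β * y - b * s) = -(2 / s) * (a / ℓ) + 2 * β / y + 2 * b := by
    rw [← hy2]
    field_simp
    ring
  have h4 : -(2 / s) * (g₀ / ℓ) + 2 * β / y ≤ β ^ 2 / (2 * g₀) * ℓ := by
    have h5 : 0 ≤ 2 * g₀ / ℓ * (1 / y - β * ℓ / (2 * g₀)) ^ 2 := by positivity
    have h6 : 2 * g₀ / ℓ * (1 / y - β * ℓ / (2 * g₀)) ^ 2
        = (2 / s) * (g₀ / ℓ) - 2 * β / y + β ^ 2 / (2 * g₀) * ℓ := by
      rw [← hy2]
      field_simp
      ring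
    linarith
  have h5 : (2 / s) * ((a - g₀) / ℓ) = (2 / s) * (a / ℓ) - (2 / s) * (g₀ / ℓ) := by
    rw [sub_div, mul_sub]
  have h6 : D / α * B = D / (2 * σ) * (β ^ 2 / (2 * g₀) + (2 * b + Cm) / ℓ₀) := by
    rw [hB]
    field_simp
  have h7 : ℓ ≤ D / (2 * σ) := by
    rw [le_div_iff₀ (by positivity)]
    linarith
  have h8 : 0 ≤ β ^ 2 / (2 * g₀) + (2 * b + Cm) / ℓ₀ := by positivity
  have h9 := mul_le_mul_of_nonneg_right h7 h8
  have h10 : 2 * b + Cm ≤ ℓ * ((2 * b + Cm) / ℓ₀) := by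
    rw [← mul_div_assoc, le_div_iff₀ hℓ₀, mul_comm]
    exact mul_le_mul_of_nonneg_right hℓ (by positivity)
  rw [h6]
  nlinarith

/-- The time derivative of the logarithm of the weight. -/
lemma Hw_td {k : ℕ} {l r : Fin k → ℝ} (hr : ∀ i, 0 < r i) {c : Fin k → ℝ → ℝ} {c' : Fin k → ℝ}
    {t : ℝ} (hc : ∀ i, HasDerivAt (c i) (c' i) t) {x : V} (hx : 0 < sg x) :
    HasDerivAt (fun τ => Hw l r (fun i => c i τ) x)
      (∑ i, l i * ((r i ^ 2 / (r i ^ 2 + dsq (c i t) x)) / dsq (c i t) x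
        * (-(2 * (x 2 - c i t) * c' i)))) t := by
  unfold Hw
  refine HasDerivAt.const_add _ (HasDerivAt.fun_sum fun i _ => HasDerivAt.const_mul _ ?_)
  have hd := dsq_pos (a := c i t) hx
  have hm : 0 < r i ^ 2 := by have := hr i; positivity
  have h1 : HasDerivAt (fun τ => dsq (c i τ) x) (-(2 * (x 2 - c i t) * c' i)) t := by
    unfold dsq
    have h2 := (((hc i).const_sub (x 2)).pow 2).const_add (x 0 ^ 2 + x 1 ^ 2)
    refine h2.congr_deriv ?_
    push_cast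
    ring
  have h3 := (h1.log hd.ne').sub ((h1.const_add (r i ^ 2)).log (by linarith))
  refine h3.congr_deriv ?_
  have hmd : 0 < r i ^ 2 + dsq (c i t) x := by linarith
  field_simp
  ring

/-- The distance to the axis is small compared with the powers of its logarithm. -/
lemma rho_le {α L s : ℝ} (hα : 0 < α) (hs : 0 < s) (hL : 0 < L) (hℓ : 0 < Real.log (L / √s)) :
    √s ≤ (2 * α) ^ α * √L * √(√s) * Real.log (L / √s) ^ (-α) := by
  obtain ⟨y, hy⟩ : ∃ y, y = √s := ⟨_, rfl⟩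
  have hyp : 0 < y := by rw [hy]; exact Real.sqrt_pos.2 hs
  rw [← hy] at hℓ ⊢
  have h1 : Real.log (L / y) ≤ 2 * α * (L / y) ^ (1 / (2 * α)) := by
    have := Real.log_le_rpow_div (x := L / y) (by positivity)
      (show 0 < 1 / (2 * α) by positivity)
    refine this.trans_eq ?_
    field_simp
  have h2 : Real.log (L / y) ^ α ≤ (2 * α) ^ α * √(L / y) := by
    calc Real.log (L / y) ^ α ≤ (2 * α * (L / y) ^ (1 / (2 * α))) ^ α :=
          Real.rpow_le_rpow hℓ.le h1 hα.le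
      _ = _ := by
        rw [Real.mul_rpow (by positivity) (by positivity), ← Real.rpow_mul (by positivity),
          Real.sqrt_eq_rpow]
        congr 2
        field_simp
  have h3 : 0 < Real.log (L / y) ^ α := Real.rpow_pos_of_pos hℓ _
  rw [Real.rpow_neg hℓ.le, ← div_eq_mul_inv, le_div_iff₀ h3]
  have h4 : y * √(L / y) = √L * √y := by
    rw [Real.sqrt_div hL.le]
    have h5 : √y ≠ 0 := (Real.sqrt_pos.2 hyp).ne'
    have h6 : y = √y * √y := (Real.mul_self_sqrt hyp.le).symm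
    field_simp
    rw [sq]
    exact h6
  calc y * Real.log (L / y) ^ α ≤ y * ((2 * α) ^ α * √(L / y)) := by gcongr
    _ = (2 * α) ^ α * (y * √(L / y)) := by ring
    _ = _ := by rw [h4]; ring

variable {T : ℝ} {u : ℝ → V → V} {p : ℝ → V → ℝ}

/-- **Logarithmic decay of the circulation.** -/
theorem cylO (h : TS 1 T u p) (hT : 0 < T) {k : ℕ} {l r : Fin k → ℝ} (hr : ∀ i, 0 < r i)
    {c : Fin k → ℝ → ℝ} (hc : ∀ i, ContinuousOn (c i) (Ico 0 T))
    (hcd : ∀ i, ∀ t ∈ Ioo 0 T, DifferentiableAt ℝ (c i) t)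
    {R L a α α₀ N M D₁ D₂ : ℝ} (hR : 0 < R) (hRL : R < L) (hα : 0 < α) (hα₀ : α ≤ α₀) (hN : 0 ≤ N)
    (hσ : ∑ i, max (-l i) 0 < 1)
    (ha : (1 + α) * (1 + ∑ i, |l i|) ^ 2 < a * (1 - ∑ i, max (-l i) 0))
    {β b : ℝ → ℝ} (hβ : ContinuousOn β (Ico 0 T)) (hb : ContinuousOn b (Ico 0 T))
    (hb0 : ∀ t ∈ Ico 0 T, 0 ≤ b t)
    (hD1 : ∀ t ∈ Ico 0 T, ∫ s in (0 : ℝ)..t, β s ^ 2 ≤ D₁)
    (hD2 : ∀ t ∈ Ico 0 T, ∫ s in (0 : ℝ)..t, b s ≤ D₂)
    (hM : ∀ t ∈ Ico 0 T, ∀ x, sg x ≤ R ^ 2 → |circ (u t) x| ≤ M)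
    (hcond : ∀ t ∈ Ioo 0 T, ∀ x, 0 < sg x → sg x < R ^ 2 → Rw l r c N L α₀ R 0 u t x →
      -2 + a / Real.log (L / √(sg x)) - β t * √(sg x) - b t * sg x
        ≤ Qw l r (fun i => c i t) (fun i => deriv (c i) t) (u t x) x) :
    ∃ A : ℝ, 0 ≤ A ∧ ∀ t ∈ Ico 0 T, ∀ x, 0 < sg x → sg x ≤ R ^ 2 →
      |circ (u t) x| ≤ A * Real.log (L / √(sg x)) ^ (-α) := by
  have hL : 0 < L := hR.trans hRL
  obtain ⟨σ, hσe⟩ : ∃ σ : ℝ, σ = 1 - ∑ i, max (-l i) 0 := ⟨_, rfl⟩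
  have hσ0 : 0 < σ := by rw [hσe]; linarith
  rw [← hσe] at ha
  obtain ⟨Λ, hΛ⟩ : ∃ Λ : ℝ, Λ = ∑ i, |l i| := ⟨_, rfl⟩
  rw [← hΛ] at ha
  obtain ⟨g₀, hg₀⟩ : ∃ g₀ : ℝ, g₀ = a - (1 + α) * (1 + Λ) ^ 2 / σ := ⟨_, rfl⟩
  have hg0 : 0 < g₀ := by
    have : (1 + α) * (1 + Λ) ^ 2 / σ < a := by rwa [div_lt_iff₀ hσ0]
    rw [hg₀]
    linarith
  obtain ⟨ℓ₀, hℓ₀⟩ : ∃ ℓ₀ : ℝ, ℓ₀ = Real.log (L / R) := ⟨_, rfl⟩
  have hℓ₀p : 0 < ℓ₀ := by
    rw [hℓ₀]
    exact Real.log_pos ((one_lt_div hR).2 hRL)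
  obtain ⟨ℓ, hℓ⟩ : ∃ ℓ : V → ℝ, ℓ = fun x => Real.log (L / √(sg x)) := ⟨_, rfl⟩
  have hℓx : ∀ x, Real.log (L / √(sg x)) = ℓ x := fun x => by rw [hℓ]
  have hsqR : ∀ x, sg x ≤ R ^ 2 → √(sg x) ≤ R := fun x hx => Real.sqrt_le_iff.2 ⟨hR.le, hx⟩
  have hℓge : ∀ x, 0 < sg x → sg x ≤ R ^ 2 → ℓ₀ ≤ ℓ x := fun x hx hxR => by
    rw [hℓ, hℓ₀]
    have h1 : 0 < √(sg x) := Real.sqrt_pos.2 hx
    apply Real.log_le_log (by positivity)
    have := hsqR x hxR
    gcongr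
  have hℓp : ∀ x, 0 < sg x → sg x ≤ R ^ 2 → 0 < ℓ x := fun x hx hxR =>
    hℓ₀p.trans_le (hℓge x hx hxR)
  have hlog : ∀ x, 0 < sg x → Real.log (sg x) = 2 * Real.log L - 2 * ℓ x := fun x hx => by
    rw [hℓ]
    show _ = 2 * Real.log L - 2 * Real.log (L / √(sg x))
    rw [Real.log_div hL.ne' (Real.sqrt_pos.2 hx).ne', Real.log_sqrt hx.le]
    ring
  obtain ⟨C₁, hC₁⟩ : ∃ C₁ : ℝ, C₁ = ∑ i, max (-l i) 0 * Real.log (R ^ 2 + r i ^ 2) := ⟨_, rfl⟩
  obtain ⟨C₂, hC₂⟩ : ∃ C₂ : ℝ, C₂ = ∑ i, max (l i) 0 * Real.log (R ^ 2 + r i ^ 2) := ⟨_, rfl⟩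
  obtain ⟨σ₂, hσ₂⟩ : ∃ σ₂ : ℝ, σ₂ = 1 + ∑ i, max (l i) 0 := ⟨_, rfl⟩
  have hσ₂p : 0 < σ₂ := by
    have : 0 ≤ ∑ i, max (l i) 0 := Finset.sum_nonneg fun i _ => le_max_right _ _
    rw [hσ₂]
    linarith
  obtain ⟨L₀, hL₀⟩ : ∃ L₀ : ℝ, L₀ = 2 * σ * Real.log L + C₁ := ⟨_, rfl⟩
  obtain ⟨D, hD⟩ : ∃ D : ℝ → V → ℝ, D = fun t x => L₀ - Hw l r (fun i => c i t) x := ⟨_, rfl⟩
  have hDe : ∀ t x, D t x = L₀ - Hw l r (fun i => c i t) x := fun t x => by rw [hD]
  have hDlow : ∀ t x, 0 < sg x → sg x ≤ R ^ 2 → 2 * σ * ℓ x ≤ D t x := fun t x hx hxR => by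
    have h1 := Hw_up (l := l) (a := fun i => c i t) hr hx hxR
    rw [← hσe, ← hC₁, hlog x hx] at h1
    rw [hDe, hL₀]
    linarith
  have hDp : ∀ t x, 0 < sg x → sg x ≤ R ^ 2 → 0 < D t x := fun t x hx hxR =>
    lt_of_lt_of_le (by have := hℓp x hx hxR; positivity) (hDlow t x hx hxR)
  obtain ⟨C₄, hC₄⟩ : ∃ C₄ : ℝ, C₄ = |L₀ + C₂ - 2 * σ₂ * Real.log L| := ⟨_, rfl⟩
  have hC₄0 : 0 ≤ C₄ := by rw [hC₄]; exact abs_nonneg _
  obtain ⟨C₃, hC₃⟩ : ∃ C₃ : ℝ, C₃ = 2 * σ₂ + C₄ / ℓ₀ := ⟨_, rfl⟩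
  have hC₃p : 0 < C₃ := by rw [hC₃]; positivity
  have hDup : ∀ t x, 0 < sg x → sg x ≤ R ^ 2 → D t x ≤ C₃ * ℓ x := fun t x hx hxR => by
    have h1 := Hw_low (l := l) (a := fun i => c i t) hr hx hxR
    rw [← hσ₂, ← hC₂, hlog x hx] at h1
    have h2 : C₄ ≤ C₄ / ℓ₀ * ℓ x := by
      rw [div_mul_eq_mul_div, le_div_iff₀ hℓ₀p]
      exact mul_le_mul_of_nonneg_left (hℓge x hx hxR) hC₄0
    have h3 : L₀ + C₂ - 2 * σ₂ * Real.log L ≤ C₄ := by rw [hC₄]; exact le_abs_self _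
    rw [hDe, hC₃]
    linarith
  -- the barrier
  obtain ⟨K, hK⟩ : ∃ K : ℝ → V → ℝ, K = fun t x => -α * Real.log (D t x) := ⟨_, rfl⟩
  have hKe : ∀ t x, 0 < sg x → sg x ≤ R ^ 2 → Real.exp (K t x) = D t x ^ (-α) :=
    fun t x hx hxR => by
      rw [hK, Real.rpow_def_of_pos (hDp t x hx hxR)]
      congr 1
      ring
  obtain ⟨P, hP⟩ : ∃ P : ℝ, P = C₃ ^ α := ⟨_, rfl⟩
  have hPp : 0 < P := by rw [hP]; exact Real.rpow_pos_of_pos hC₃p _
  have hKlow : ∀ t x, 0 < sg x → sg x ≤ R ^ 2 → ℓ x ^ (-α) ≤ P * Real.exp (K t x) :=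
    fun t x hx hxR => by
      have h1 := hℓp x hx hxR
      rw [hKe t x hx hxR]
      have h2 : (C₃ * ℓ x) ^ (-α) ≤ D t x ^ (-α) :=
        Real.rpow_le_rpow_of_nonpos (hDp t x hx hxR) (hDup t x hx hxR) (by linarith)
      rw [Real.mul_rpow hC₃p.le h1.le, Real.rpow_neg hC₃p.le, ← hP] at h2
      calc ℓ x ^ (-α) = P * (P⁻¹ * ℓ x ^ (-α)) := by field_simp
        _ ≤ _ := mul_le_mul_of_nonneg_left h2 hPp.le
  have hKup : ∀ t x, 0 < sg x → sg x ≤ R ^ 2 →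
      Real.exp (K t x) ≤ (2 * σ) ^ (-α) * ℓ x ^ (-α) := fun t x hx hxR => by
    have h1 := hℓp x hx hxR
    rw [hKe t x hx hxR, ← Real.mul_rpow (by positivity) h1.le]
    exact Real.rpow_le_rpow_of_nonpos (by positivity) (hDlow t x hx hxR) (by linarith)
  obtain ⟨κ₁, hκ₁⟩ : ∃ κ₁ : ℝ, κ₁ = (2 * α) ^ α * √L * P := ⟨_, rfl⟩
  have hκ₁p : 0 < κ₁ := by
    have := Real.sqrt_pos.2 hL
    rw [hκ₁]
    positivity
  have hrho : ∀ t x, 0 < sg x → sg x ≤ R ^ 2 → √(sg x) ≤ κ₁ * √(√(sg x)) * Real.exp (K t x) :=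
    fun t x hx hxR => by
      have h1 := rho_le hα hx hL (by rw [hℓx]; exact hℓp x hx hxR)
      rw [hℓx] at h1
      have h2 := hKlow t x hx hxR
      have h3 : 0 ≤ (2 * α) ^ α * √L * √(√(sg x)) := by positivity
      calc √(sg x) ≤ (2 * α) ^ α * √L * √(√(sg x)) * ℓ x ^ (-α) := h1
        _ ≤ (2 * α) ^ α * √L * √(√(sg x)) * (P * Real.exp (K t x)) :=
          mul_le_mul_of_nonneg_left h2 h3
        _ = _ := by rw [hκ₁]; ring
  -- continuity
  have hHc : ContinuousOn (fun z : ℝ × V => Hw l r (fun i => c i z.1) z.2)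
      (Ico 0 T ×ˢ {x | 0 < sg x ∧ sg x ≤ R ^ 2}) := by
    obtain ⟨Z, hZ⟩ : ∃ Z : Set (ℝ × V), Z = Ico 0 T ×ˢ {x | 0 < sg x ∧ sg x ≤ R ^ 2} := ⟨_, rfl⟩
    rw [← hZ]
    have hq : ∀ i, ContinuousOn (fun z : ℝ × V => dsq (c i z.1) z.2) Z := by
      intro i
      have h1 : ContinuousOn (fun z : ℝ × V => c i z.1) Z :=
        (hc i).comp continuous_fst.continuousOn fun z hz => by rw [hZ] at hz; exact hz.1
      have c0 : ContinuousOn (fun z : ℝ × V => z.2 0) Z := by fun_prop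
      have c1 : ContinuousOn (fun z : ℝ × V => z.2 1) Z := by fun_prop
      have c2 : ContinuousOn (fun z : ℝ × V => z.2 2) Z := by fun_prop
      unfold dsq
      exact ((c0.pow 2).add (c1.pow 2)).add ((c2.sub h1).pow 2)
    have hs : ContinuousOn (fun z : ℝ × V => sg z.2) Z :=
      (sm_sg.continuous.comp continuous_snd).continuousOn
    have hpos : ∀ z ∈ Z, 0 < sg z.2 := fun z hz => by rw [hZ] at hz; exact hz.2.1
    unfold Hw
    refine (hs.log fun z hz => (hpos z hz).ne').add (continuousOn_finsetSum _ fun i _ => ?_)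
    refine ContinuousOn.const_mul (((hq i).log fun z hz => (dsq_pos (hpos z hz)).ne').sub
      ((continuousOn_const.add (hq i)).log fun z hz => ?_)) _
    have h1 := dsq_pos (a := c i z.1) (hpos z hz)
    have h2 : 0 < r i ^ 2 := by have := hr i; positivity
    show r i ^ 2 + dsq (c i z.1) z.2 ≠ 0
    linarith
  have hKc : ContinuousOn (fun z : ℝ × V => K z.1 z.2)
      (Ico 0 T ×ˢ {x | 0 < sg x ∧ sg x ≤ R ^ 2}) := by
    rw [hK, hD]
    refine ContinuousOn.const_mul ((continuousOn_const.sub hHc).log fun z hz => ?_) _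
    have := hDp z.1 z.2 hz.2.1 hz.2.2
    rw [hDe] at this
    exact this.ne'
  have hKr : ∀ t θ x, K t (rot θ x) = K t x := fun t θ x => by
    rw [hK, hD]
    show -α * Real.log (L₀ - Hw l r (fun i => c i t) (rot θ x)) = _
    rw [Hw_rot]
  obtain ⟨H', hH'⟩ : ∃ H' : ℝ → V → ℝ, H' = fun t x =>
      ∑ i, l i * ((r i ^ 2 / (r i ^ 2 + dsq (c i t) x)) / dsq (c i t) x
        * (-(2 * (x 2 - c i t) * deriv (c i) t))) := ⟨_, rfl⟩
  have hKt : ∀ t ∈ Ioo 0 T, ∀ x, 0 < sg x → sg x < R ^ 2 →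
      HasDerivAt (fun τ => K τ x) (α / D t x * H' t x) t := fun t ht x hx hxR => by
    have h1 := Hw_td (l := l) hr (fun i => (hcd i t ht).hasDerivAt) hx
    have h2 := hDp t x hx hxR.le
    have h3 := (h1.const_sub L₀).log (by rw [← hDe]; exact h2.ne')
    have h4 := h3.const_mul (-α)
    rw [hK, hD, hH']
    rw [hDe] at h2
    refine h4.congr_deriv ?_
    ring
  obtain ⟨g, hg⟩ : ∃ g : ℝ → V → Fin 3 → ℝ, g = fun t x => gW l r (fun i => c i t) x := ⟨_, rfl⟩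
  obtain ⟨lH, hlH⟩ : ∃ lH : ℝ → V → ℝ, lH = fun t x =>
      ∑ i, l i * (2 / dsq (c i t) x - 6 / (r i ^ 2 + dsq (c i t) x)
        + 4 * dsq (c i t) x / (r i ^ 2 + dsq (c i t) x) ^ 2) := ⟨_, rfl⟩
  have hKj : ∀ t ∈ Ioo 0 T, ∀ x, 0 < sg x → sg x < R ^ 2 →
      Jet (K t) x (fun j => α / D t x * g t x j)
        (α / D t x * lH t x + α / D t x ^ 2 * ∑ j, g t x j ^ 2) := fun t ht x hx hxR => by
    have h1 := jet_Hw (l := l) (a := fun i => c i t) hr hx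
    have h2 := hDp t x hx hxR.le
    rw [hDe] at h2
    have hA : ∀ s : ℝ, s < L₀ → HasDerivAt (fun s => -α * Real.log (L₀ - s)) (α * (L₀ - s)⁻¹) s := by
      intro s hs
      have h3 : HasDerivAt (fun s : ℝ => L₀ - s) (-1) s := (hasDerivAt_id s).const_sub L₀
      refine ((h3.log (by linarith)).const_mul (-α)).congr_deriv ?_
      have : L₀ - s ≠ 0 := by linarith
      field_simp
    have h3 : ∀ᶠ s in 𝓝 (Hw l r (fun i => c i t) x),
        HasDerivAt (fun s => -α * Real.log (L₀ - s)) (α * (L₀ - s)⁻¹) s := by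
      filter_upwards [gt_mem_nhds (show Hw l r (fun i => c i t) x < L₀ by linarith)] with s hs
      exact hA s hs
    have h4 : HasDerivAt (fun s : ℝ => α * (L₀ - s)⁻¹)
        (α * ((L₀ - Hw l r (fun i => c i t) x) ^ 2)⁻¹) (Hw l r (fun i => c i t) x) := by
      have h5 : HasDerivAt (fun s : ℝ => L₀ - s) (-1) (Hw l r (fun i => c i t) x) :=
        (hasDerivAt_id _).const_sub L₀
      have h6 := ((hasDerivAt_inv h2.ne').comp (Hw l r (fun i => c i t) x) h5).const_mul α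
      refine h6.congr_deriv ?_
      ring
    have hcd2 : ContDiffAt ℝ 2 (fun s => -α * Real.log (L₀ - s)) (Hw l r (fun i => c i t) x) :=
      contDiffAt_const.mul ((contDiffAt_const.sub contDiffAt_id).log h2.ne')
    have h5 := h1.comp hcd2 h3 h4
    rw [hK, hD, hg, hlH]
    refine h5.congr (fun j => ?_) ?_
    · show α * (L₀ - Hw l r (fun i => c i t) x)⁻¹ * gW l r (fun i => c i t) x j
        = α / (L₀ - Hw l r (fun i => c i t) x) * gW l r (fun i => c i t) x j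
      rw [div_eq_mul_inv]
    · show α * (L₀ - Hw l r (fun i => c i t) x)⁻¹ * _ + α * ((L₀ - Hw l r (fun i => c i t) x) ^ 2)⁻¹
        * _ = _
      rw [div_eq_mul_inv, div_eq_mul_inv]
  -- constants
  obtain ⟨U, hU0, hU⟩ := h.b.u_bdd hT
  have hM0 : 0 ≤ M := (abs_nonneg _).trans (hM 0 ⟨le_rfl, hT⟩ 0 (by simp [sg]; positivity))
  obtain ⟨A, hA⟩ : ∃ A : ℝ, A = M * (P * ℓ₀ ^ α) + (2 * U * κ₁ * √R + N * ℓ₀ ^ (-(α₀ - α)) * P) :=
    ⟨_, rfl⟩
  have a1 : 0 ≤ M * (P * ℓ₀ ^ α) := by positivity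
  have a2 : 0 ≤ 2 * U * κ₁ * √R := by positivity
  have a3 : 0 ≤ N * ℓ₀ ^ (-(α₀ - α)) * P := by positivity
  have hA0 : 0 ≤ A := by rw [hA]; positivity
  have hbd : ∀ t ∈ Ico 0 T, ∀ x, 0 < sg x → sg x ≤ R ^ 2 → (sg x = R ^ 2 ∨ t = 0) →
      |circ (u t) x| ≤ A * Real.exp (K t x) := by
    intro t ht x hx hxR hor
    have hEp := Real.exp_pos (K t x)
    rcases hor with h1 | h1
    · have h2 := hM t ht x hxR
      have h3 := hKlow t x hx hxR
      have h4 : ℓ x = ℓ₀ := by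
        rw [hℓ, hℓ₀]
        show Real.log (L / √(sg x)) = _
        rw [h1, Real.sqrt_sq hR.le]
      rw [h4] at h3
      have h5 : 1 ≤ P * ℓ₀ ^ α * Real.exp (K t x) := by
        have h6 := mul_le_mul_of_nonneg_left h3 (Real.rpow_nonneg hℓ₀p.le α)
        rw [← Real.rpow_add hℓ₀p, add_neg_cancel, Real.rpow_zero] at h6
        linarith
      calc |circ (u t) x| ≤ M := h2
        _ ≤ M * (P * ℓ₀ ^ α * Real.exp (K t x)) := by
          have := mul_le_mul_of_nonneg_left h5 hM0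
          linarith
        _ = M * (P * ℓ₀ ^ α) * Real.exp (K t x) := by ring
        _ ≤ A * Real.exp (K t x) := by
          apply mul_le_mul_of_nonneg_right _ hEp.le
          rw [hA]
          linarith
    · have h2 := circ_le (u t) x
      have h3 := hU t (by rw [h1]; exact ⟨le_rfl, le_rfl⟩) x
      have h4 := hrho t x hx hxR
      have h5 : √(√(sg x)) ≤ √R := Real.sqrt_le_sqrt (hsqR x hxR)
      calc |circ (u t) x| ≤ 2 * √(sg x) * ‖u t x‖ := h2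
        _ ≤ 2 * √(sg x) * U := by gcongr
        _ ≤ 2 * (κ₁ * √(√(sg x)) * Real.exp (K t x)) * U := by gcongr
        _ ≤ 2 * (κ₁ * √R * Real.exp (K t x)) * U := by gcongr
        _ = 2 * U * κ₁ * √R * Real.exp (K t x) := by ring
        _ ≤ A * Real.exp (K t x) := by
          apply mul_le_mul_of_nonneg_right _ hEp.le
          rw [hA]
          linarith
  obtain ⟨Cm, hCm⟩ : ∃ Cm : ℝ, Cm = ∑ i, |l i| * (4 / r i ^ 2) := ⟨_, rfl⟩
  have hCm0 : 0 ≤ Cm := by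
    rw [hCm]
    exact Finset.sum_nonneg fun i _ => by positivity
  obtain ⟨B, hB⟩ : ∃ B : ℝ → ℝ, B = fun t => α / (2 * σ) * (β t ^ 2 / (2 * g₀)
    + (2 * b t + Cm) / ℓ₀) := ⟨_, rfl⟩
  have hBc : ContinuousOn B (Ico 0 T) := by rw [hB]; fun_prop
  have hB0 : ∀ t ∈ Ico 0 T, 0 ≤ B t := fun t ht => by
    have := hb0 t ht
    rw [hB]
    positivity
  have key := cmpK h (S := R ^ 2) (A := A) hT hKc hKr hKt hKj
    (fun T' hT' ε hε => by
      refine ⟨(ε / κ₁) ^ 4, by positivity, fun t ht x hx hxR hxδ => ?_⟩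
      have h1 := hrho t x hx hxR
      have h2 : √(√(sg x)) ≤ ε / κ₁ := by
        have h3 : √(√(sg x)) ≤ √(√((ε / κ₁) ^ 4)) :=
          Real.sqrt_le_sqrt (Real.sqrt_le_sqrt hxδ.le)
        have h4 : √(√((ε / κ₁) ^ 4)) = ε / κ₁ := by
          have : (ε / κ₁) ^ 4 = ((ε / κ₁) ^ 2) ^ 2 := by ring
          rw [this, Real.sqrt_sq (by positivity), Real.sqrt_sq (by positivity)]
        rwa [h4] at h3
      calc √(sg x) ≤ κ₁ * √(√(sg x)) * Real.exp (K t x) := h1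
        _ ≤ κ₁ * (ε / κ₁) * Real.exp (K t x) := by gcongr
        _ = _ := by field_simp)
    (fun T' hT' δ hδ => by
      refine ⟨P⁻¹ * (max ℓ₀ (Real.log (L / √δ))) ^ (-α), ?_, fun t ht x hδx hxR => ?_⟩
      · have : 0 < max ℓ₀ (Real.log (L / √δ)) := lt_max_of_lt_left hℓ₀p
        positivity
      · have hx : 0 < sg x := hδ.trans_le hδx
        have h1 := hKlow t x hx hxR
        have h2 : (max ℓ₀ (Real.log (L / √δ))) ^ (-α) ≤ ℓ x ^ (-α) := by
          apply Real.rpow_le_rpow_of_nonpos (hℓp x hx hxR) _ (by linarith)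
          refine le_trans ?_ (le_max_right _ _)
          rw [hℓ]
          have h3 : 0 < √(sg x) := Real.sqrt_pos.2 hx
          have h4 : 0 < √δ := Real.sqrt_pos.2 hδ
          apply Real.log_le_log (by positivity)
          have := Real.sqrt_le_sqrt hδx
          gcongr
        calc P⁻¹ * (max ℓ₀ (Real.log (L / √δ))) ^ (-α) ≤ P⁻¹ * (P * Real.exp (K t x)) := by
              gcongr
              exact h2.trans h1
          _ = _ := by field_simp)
    hBc hB0 hA0 hbd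
    (fun t ht x hx hxR hAx hrec hgr => by
      have hxR' := hxR.le
      have hDt := hDp t x hx hxR'
      have hEp := Real.exp_pos (K t x)
      have r1 : N * Real.log (L / √(sg x)) ^ (-α₀) < |circ (u t) x| := by
        refine lt_of_le_of_lt ?_ hAx
        rw [hℓx]
        have h1 := hℓp x hx hxR'
        have h2 := hℓge x hx hxR'
        have e : ℓ x ^ (-α₀) = ℓ x ^ (-(α₀ - α)) * ℓ x ^ (-α) := by
          rw [← Real.rpow_add h1]
          congr 1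
          ring
        have h3 : ℓ x ^ (-(α₀ - α)) ≤ ℓ₀ ^ (-(α₀ - α)) :=
          Real.rpow_le_rpow_of_nonpos hℓ₀p h2 (by linarith)
        have h4 := hKlow t x hx hxR'
        have h5 : 0 ≤ ℓ₀ ^ (-(α₀ - α)) := Real.rpow_nonneg hℓ₀p.le _
        have h6 : 0 ≤ ℓ x ^ (-α) := Real.rpow_nonneg h1.le _
        calc N * ℓ x ^ (-α₀) = N * (ℓ x ^ (-(α₀ - α)) * ℓ x ^ (-α)) := by rw [e]
          _ ≤ N * (ℓ₀ ^ (-(α₀ - α)) * (P * Real.exp (K t x))) := by gcongr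
          _ = N * ℓ₀ ^ (-(α₀ - α)) * P * Real.exp (K t x) := by ring
          _ ≤ A * Real.exp (K t x) := by
            apply mul_le_mul_of_nonneg_right _ hEp.le
            rw [hA]
            linarith
      have r2 : ∀ t' ∈ Icc 0 t, ∀ y, 0 < sg y → sg y ≤ R ^ 2 →
          Hw l r (fun i => c i t') y ≤ Hw l r (fun i => c i t) x →
          |circ (u t') y| ≤ |circ (u t) x| := by
        intro t' ht' y hy hyR hle
        have h1 := hrec t' ht' y hy hyR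
        have h2 : D t x ≤ D t' y := by rw [hDe, hDe]; linarith
        have h3 : Real.exp (K t' y) ≤ Real.exp (K t x) := by
          rw [hKe t' y hy hyR, hKe t x hx hxR']
          exact Real.rpow_le_rpow_of_nonpos hDt h2 (by linarith)
        have h4 := mul_le_mul_of_nonneg_left h3 (abs_nonneg (circ (u t) x))
        exact le_of_mul_le_mul_right (h1.trans h4) hEp
      obtain ⟨b₁, hb₁, hgr'⟩ := hgr
      have r3 : ∃ b > 0, ∀ j, circ (u t) x * pd j (circ (u t)) x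
          = b * gW l r (fun i => c i t) x j := by
        refine ⟨b₁ * (α / D t x), by positivity, fun j => ?_⟩
        rw [hgr' j, hg]
        ring
      have hc := hcond t ht x hx hxR ⟨r1, r2, r3⟩
      have hG2 := gW_sq (l := l) (a := fun i => c i t) hr hx
      rw [← hΛ] at hG2
      have hE : ∑ i, l i * (-(4 * r i ^ 2 / (r i ^ 2 + dsq (c i t) x) ^ 2)) ≤ Cm := by
        rw [hCm]
        refine Finset.sum_le_sum fun i _ => ?_
        have hd := dsq_pos (a := c i t) hx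
        have hm : 0 < r i ^ 2 := by have := hr i; positivity
        have h1 : 4 * r i ^ 2 / (r i ^ 2 + dsq (c i t) x) ^ 2 ≤ 4 / r i ^ 2 := by
          rw [div_le_div_iff₀ (by positivity) hm]
          nlinarith
        have h2 : 0 ≤ 4 * r i ^ 2 / (r i ^ 2 + dsq (c i t) x) ^ 2 := by positivity
        have h3 : -l i ≤ |l i| := neg_le_abs _
        calc l i * (-(4 * r i ^ 2 / (r i ^ 2 + dsq (c i t) x) ^ 2))
            = -l i * (4 * r i ^ 2 / (r i ^ 2 + dsq (c i t) x) ^ 2) := by ring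
          _ ≤ |l i| * (4 * r i ^ 2 / (r i ^ 2 + dsq (c i t) x) ^ 2) :=
            mul_le_mul_of_nonneg_right h3 h2
          _ ≤ _ := mul_le_mul_of_nonneg_left h1 (abs_nonneg _)
      have hid := wgt_id (l := l) (a := fun i => c i t) hr hx (fun i => deriv (c i) t) (u t x)
      have htI : t ∈ Ico 0 T := ⟨ht.1.le, ht.2⟩
      rw [hℓx] at hc
      have hineq := crit_ineq (B := B t) hx hℓ₀p (hℓge x hx hxR') hσ0 (hDlow t x hx hxR') hα hg0
        hg₀ (hb0 t htI) hE hCm0 hG2 hc (by rw [hB])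
      rw [← hid] at hineq
      have h1 := mul_le_mul_of_nonneg_left hineq (show 0 ≤ α / D t x by positivity)
      have h2 : α / D t x * (D t x / α * B t) = B t := by field_simp
      rw [h2] at h1
      have e1 : ∑ j, (α / D t x * g t x j) ^ 2 = (α / D t x) ^ 2 * ∑ j, g t x j ^ 2 := by
        rw [Finset.mul_sum]
        exact Finset.sum_congr rfl fun j _ => by ring
      have e2 : ∑ j, u t x j * (α / D t x * g t x j) = α / D t x * ∑ j, u t x j * g t x j := by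
        rw [Finset.mul_sum]
        exact Finset.sum_congr rfl fun j _ => by ring
      rw [e1, e2]
      have e3 : g t x = gW l r (fun i => c i t) x := by rw [hg]
      have e4 : lH t x = ∑ i, l i * (2 / dsq (c i t) x - 6 / (r i ^ 2 + dsq (c i t) x)
        + 4 * dsq (c i t) x / (r i ^ 2 + dsq (c i t) x) ^ 2) := by rw [hlH]
      have e5 : H' t x = ∑ i, l i * ((r i ^ 2 / (r i ^ 2 + dsq (c i t) x)) / dsq (c i t) x
        * (-(2 * (x 2 - c i t) * deriv (c i) t))) := by rw [hH']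
      rw [← e3, ← e4, ← e5] at h1
      have e6 : α / D t x ^ 2 + (α / D t x) ^ 2 = α / D t x * ((1 + α) / D t x) := by
        field_simp
      have e7 : 2 * (x 0 * (α / D t x * g t x 0) + x 1 * (α / D t x * g t x 1)) / sg x
          = α / D t x * (2 * (x 0 * g t x 0 + x 1 * g t x 1) / sg x) := by ring
      rw [e7]
      linear_combination h1 + (∑ j, g t x j ^ 2) * e6)
  obtain ⟨I, hI⟩ : ∃ I : ℝ, I = α / (2 * σ) * (D₁ / (2 * g₀) + (2 * D₂ + Cm * T) / ℓ₀) := ⟨_, rfl⟩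
  refine ⟨A * Real.exp I * (2 * σ) ^ (-α), by positivity, fun t ht x hx hxR => ?_⟩
  have h1 := key t ht x hx hxR
  have h2 := hKup t x hx hxR
  have h3 : ∫ s in (0 : ℝ)..t, B s ≤ I := by
    have hsub : uIcc 0 t ⊆ Ico 0 T := by
      rw [uIcc_of_le ht.1]
      exact fun q hq => ⟨hq.1, hq.2.trans_lt ht.2⟩
    have i1 : IntervalIntegrable (fun s => β s ^ 2 / (2 * g₀)) volume 0 t :=
      (((hβ.pow 2).div_const _).mono hsub).intervalIntegrable
    have i2 : IntervalIntegrable (fun s => 2 * b s) volume 0 t :=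
      ((hb.const_mul 2).mono hsub).intervalIntegrable
    have i3 : IntervalIntegrable (fun s => (2 * b s + Cm) / ℓ₀) volume 0 t :=
      ((((hb.const_mul 2).add continuousOn_const).div_const _).mono hsub).intervalIntegrable
    rw [hB, intervalIntegral.integral_const_mul, intervalIntegral.integral_add i1 i3,
      intervalIntegral.integral_div, intervalIntegral.integral_div,
      intervalIntegral.integral_add i2 (by simp), intervalIntegral.integral_const_mul,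
      intervalIntegral.integral_const, hI]
    have h4 := hD1 t ht
    have h5 := hD2 t ht
    have h6 : Cm * t ≤ Cm * T := mul_le_mul_of_nonneg_left ht.2.le hCm0
    have h7 : (∫ s in (0 : ℝ)..t, β s ^ 2) / (2 * g₀) ≤ D₁ / (2 * g₀) := by gcongr
    have h8 : (2 * (∫ s in (0 : ℝ)..t, b s) + (t - 0) • Cm) / ℓ₀ ≤ (2 * D₂ + Cm * T) / ℓ₀ := by
      apply div_le_div_of_nonneg_right _ hℓ₀p.le
      rw [smul_eq_mul]
      linarith
    exact mul_le_mul_of_nonneg_left (add_le_add h7 h8) (by positivity)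
  have h4 : Real.exp (∫ s in (0 : ℝ)..t, B s) ≤ Real.exp I := Real.exp_le_exp.2 h3
  have hEp := Real.exp_pos (K t x)
  rw [hℓx]
  calc |circ (u t) x| ≤ A * Real.exp (∫ s in (0 : ℝ)..t, B s) * Real.exp (K t x) := h1
    _ ≤ A * Real.exp I * Real.exp (K t x) := by gcongr
    _ ≤ A * Real.exp I * ((2 * σ) ^ (-α) * ℓ x ^ (-α)) := by gcongr
    _ = _ := by ring

end Pool.Agent.H58.NSP
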