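import Pool.Graph.R_seed8.TH305.AX.Bar5

/-!
Axisymmetric flows (helper58): the squared distance to a moving point of the axis; the derivative
of the circulation along a path parallel to the axis.
-/

set_option autoImplicit false

open MeasureTheory Set Metric Filter Topology
open scoped ContDiff

namespace Pool.Agent.H58.NSP

open H459R3.NS W221.NS Pool.Agent.TH305.DR Pool.Agent.TH305.AX

/-- The squared Euclidean distance of `x` to the point of height `a` of the axis. -/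
def dsq (a : ℝ) (x : V) : ℝ := x 0 ^ 2 + x 1 ^ 2 + (x 2 - a) ^ 2

/-- `a` for the third coordinate, `0` for the others. -/
def ca (a : ℝ) (j : Fin 3) : ℝ := if j = 2 then a else 0

lemma ca0 (a : ℝ) : ca a 0 = 0 := by simp [ca]
lemma ca1 (a : ℝ) : ca a 1 = 0 := by simp [ca]
lemma ca2 (a : ℝ) : ca a 2 = a := by simp [ca]

lemma sg_le_dsq (a : ℝ) (x : V) : sg x ≤ dsq a x := by
  unfold sg dsq
  nlinarith [sq_nonneg (x 2 - a)]

lemma dsq_nonneg (a : ℝ) (x : V) : 0 ≤ dsq a x := (sg_nonneg x).trans (sg_le_dsq a x)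

lemma dsq_rot (a θ : ℝ) (x : V) : dsq a (rot θ x) = dsq a x := by
  unfold dsq
  have h := Real.sin_sq_add_cos_sq θ
  show (Real.cos θ * x 0 - Real.sin θ * x 1) ^ 2 + (Real.sin θ * x 0 + Real.cos θ * x 1) ^ 2
    + (x 2 - a) ^ 2 = _
  linear_combination (x 0 ^ 2 + x 1 ^ 2) * h

lemma sm_dsq (a : ℝ) : ContDiff ℝ ∞ (dsq a) := by
  unfold dsq
  fun_prop

lemma dsq_hd (a : ℝ) (x : V) : HasFDerivAt (dsq a)
    ((2 * x 0) • (ContinuousLinearMap.proj (R := ℝ) (φ := fun _ : Fin 3 => ℝ) 0)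
        + (2 * x 1) • (ContinuousLinearMap.proj (R := ℝ) (φ := fun _ : Fin 3 => ℝ) 1)
        + (2 * (x 2 - a)) • (ContinuousLinearMap.proj (R := ℝ) (φ := fun _ : Fin 3 => ℝ) 2)) x := by
  have hp : ∀ i : Fin 3, HasFDerivAt (fun y : V => y i)
      (ContinuousLinearMap.proj (R := ℝ) (φ := fun _ : Fin 3 => ℝ) i) x := fun i =>
    (ContinuousLinearMap.proj (R := ℝ) (φ := fun _ : Fin 3 => ℝ) i).hasFDerivAt
  have h1 := (((hp 0).pow 2).add ((hp 1).pow 2)).add (((hp 2).sub_const a).pow 2)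
  refine h1.congr_fderiv ?_
  simp

lemma pd_dsq (a : ℝ) (j : Fin 3) (x : V) : pd j (dsq a) x = 2 * (x j - ca a j) := by
  unfold pd
  rw [(dsq_hd a x).fderiv]
  fin_cases j
  · simp [Pi.single_apply, ca]
  · simp [Pi.single_apply, ca]
  · simp [Pi.single_apply, ca]

lemma pd_cmpd {a : ℝ} {φ : ℝ → ℝ} {d : ℝ} {x : V} (h : HasDerivAt φ d (dsq a x)) (j : Fin 3) :
    pd j (fun y => φ (dsq a y)) x = d * (2 * (x j - ca a j)) := by
  have h1 := h.comp_hasFDerivAt x (dsq_hd a x)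
  rw [← pd_dsq a j x]
  unfold pd
  have e : (fun y => φ (dsq a y)) = φ ∘ dsq a := rfl
  rw [e, h1.fderiv, (dsq_hd a x).fderiv]
  simp
  ring

lemma ev_dsq {a : ℝ} {P : ℝ → Prop} {x : V} (h : ∀ᶠ r in 𝓝 (dsq a x), P r) :
    ∀ᶠ y in 𝓝 x, P (dsq a y) :=
  (sm_dsq a).continuous.continuousAt.eventually h

lemma pd_majd {a : ℝ} {χ χ₁ : ℝ → ℝ} (c : ℝ) {x : V}
    (h : HasDerivAt χ (χ₁ (dsq a x)) (dsq a x)) (j : Fin 3) :
    pd j (fun y => c * χ (dsq a y)) x = c * (χ₁ (dsq a x) * (2 * (x j - ca a j))) := by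
  rw [pd_cmul]
  show c * pd j (fun y => χ (dsq a y)) x = _
  rw [pd_cmpd h]

lemma pd2_majd {a : ℝ} {χ χ₁ : ℝ → ℝ} {c₂ : ℝ} (c : ℝ) {x : V}
    (h1 : ∀ᶠ r in 𝓝 (dsq a x), HasDerivAt χ (χ₁ r) r) (h2 : HasDerivAt χ₁ c₂ (dsq a x))
    (j : Fin 3) :
    pd j (pd j (fun y => c * χ (dsq a y))) x
      = c * (c₂ * (2 * (x j - ca a j)) ^ 2 + χ₁ (dsq a x) * 2) := by
  have hev : pd j (fun y => c * χ (dsq a y)) =ᶠ[𝓝 x]
      fun y => c * (χ₁ (dsq a y) * (2 * (y j - ca a j))) := by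
    filter_upwards [ev_dsq h1] with y hy
    exact pd_majd c hy j
  rw [Pool.Agent.W349.MF.pd_congr' hev j]
  have hA : HasFDerivAt (fun y => χ₁ (dsq a y)) _ x := h2.comp_hasFDerivAt x (dsq_hd a x)
  have hp : HasFDerivAt (fun y : V => y j)
      (ContinuousLinearMap.proj (R := ℝ) (φ := fun _ : Fin 3 => ℝ) j) x :=
    (ContinuousLinearMap.proj (R := ℝ) (φ := fun _ : Fin 3 => ℝ) j).hasFDerivAt
  have hm : HasFDerivAt (fun y : V => c * (χ₁ (dsq a y) * (2 * (y j - ca a j)))) _ x :=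
    (hA.mul ((hp.sub_const (ca a j)).const_mul 2)).const_mul c
  unfold pd
  rw [hm.fderiv]
  have e1 : (ContinuousLinearMap.proj (R := ℝ) (φ := fun _ : Fin 3 => ℝ) j)
      (Pi.single j (1 : ℝ) : V) = 1 := by simp
  have e2 : ((2 * x 0) • (ContinuousLinearMap.proj (R := ℝ) (φ := fun _ : Fin 3 => ℝ) 0)
        + (2 * x 1) • (ContinuousLinearMap.proj (R := ℝ) (φ := fun _ : Fin 3 => ℝ) 1)
        + (2 * (x 2 - a)) • (ContinuousLinearMap.proj (R := ℝ) (φ := fun _ : Fin 3 => ℝ) 2))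
      (Pi.single j (1 : ℝ) : V) = 2 * (x j - ca a j) := by
    have h3 := pd_dsq a j x
    unfold pd at h3
    rw [(dsq_hd a x).fderiv] at h3
    exact h3
  simp only [smul_apply, add_apply, smul_eq_mul] at e2 ⊢
  rw [e1, e2]
  ring

lemma lap_majd {a : ℝ} {χ χ₁ : ℝ → ℝ} {c₂ : ℝ} (c : ℝ) {x : V}
    (h1 : ∀ᶠ r in 𝓝 (dsq a x), HasDerivAt χ (χ₁ r) r) (h2 : HasDerivAt χ₁ c₂ (dsq a x)) :
    lap (fun y => c * χ (dsq a y)) x = c * (4 * dsq a x * c₂ + 6 * χ₁ (dsq a x)) := by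
  unfold lap
  rw [Fin.sum_univ_three, pd2_majd c h1 h2, pd2_majd c h1 h2, pd2_majd c h1 h2, ca0, ca1, ca2]
  have : dsq a x = x 0 ^ 2 + x 1 ^ 2 + (x 2 - a) ^ 2 := rfl
  linear_combination -(4 * c * c₂) * this

/-- The unit vector of the axis. -/
def e2 : V := Pi.single 2 1

lemma dsq_shift (a b : ℝ) (x : V) : dsq b (x + (b - a) • e2) = dsq a x := by
  unfold dsq e2
  simp [Pi.single_apply]
  ring

lemma sg_shift (c : ℝ) (x : V) : sg (x + c • e2) = sg x := by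
  unfold sg e2
  simp [Pi.single_apply]

variable {ν T : ℝ} {u : ℝ → V → V} {p : ℝ → V → ℝ}

/-- The derivative of the circulation along a path parallel to the axis. -/
lemma circ_path (h : AxSol ν T u p) {t : ℝ} (ht : t ∈ Ioo 0 T) (x : V) {a : ℝ → ℝ} {b : ℝ}
    (ha : HasDerivAt a b t) :
    HasDerivAt (fun τ => circ (u τ) (x + (a τ - a t) • e2))
      ((x 0 * deriv (fun s => u s x 1) t - x 1 * deriv (fun s => u s x 0) t)
        + b * pd 2 (circ (u t)) x) t := by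
  obtain ⟨G, hG⟩ : ∃ G : ℝ × V → ℝ, G = fun z => circ (u z.1) z.2 := ⟨_, rfl⟩
  have hGd : DifferentiableAt ℝ G (t, x) := by
    have hsm : ContDiffOn ℝ ∞ G (Ioo 0 T ×ˢ univ) := by
      have hu := h.smooth_u.mono (prod_mono (Ioo_subset_Ico_self) (subset_univ univ))
      have hi : ∀ i : Fin 3, ContDiffOn ℝ ∞ (fun z : ℝ × V => u z.1 z.2 i) (Ioo 0 T ×ˢ univ) :=
        fun i => contDiffOn_pi.1 hu i
      rw [hG]
      unfold circ
      have c0 : ContDiffOn ℝ ∞ (fun z : ℝ × V => z.2 0) (Ioo 0 T ×ˢ univ) := by fun_prop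
      have c1 : ContDiffOn ℝ ∞ (fun z : ℝ × V => z.2 1) (Ioo 0 T ×ˢ univ) := by fun_prop
      exact (c0.mul (hi 1)).sub (c1.mul (hi 0))
    exact (hsm.differentiableOn (by norm_cast) (t, x) ⟨ht, mem_univ _⟩).differentiableAt
      (prod_mem_nhds (Ioo_mem_nhds ht.1 ht.2) univ_mem)
  obtain ⟨L, hL⟩ : ∃ L : ℝ × V →L[ℝ] ℝ, HasFDerivAt G L (t, x) := ⟨_, hGd.hasFDerivAt⟩
  have h1 : L (1, 0) = x 0 * deriv (fun s => u s x 1) t - x 1 * deriv (fun s => u s x 0) t := by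
    have hp : HasDerivAt (fun τ : ℝ => ((τ, x) : ℝ × V)) (1, 0) t :=
      (hasDerivAt_id t).prodMk (hasDerivAt_const t x)
    have hc : HasDerivAt (fun τ : ℝ => circ (u τ) x) (L (1, 0)) t := by
      have := hL.comp_hasDerivAt t hp
      rw [hG] at this
      exact this
    exact hc.unique (circ_hd h ht x)
  have h2 : L (0, e2) = pd 2 (circ (u t)) x := by
    have hp : HasDerivAt (fun s : ℝ => ((t, x + s • e2) : ℝ × V)) (0, e2) 0 :=
      (hasDerivAt_const 0 t).prodMk (line_hd x e2 0)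
    have hL' : HasFDerivAt G L (t, x + (0 : ℝ) • e2) := by simpa using hL
    have hc : HasDerivAt (fun s : ℝ => circ (u t) (x + s • e2)) (L (0, e2)) 0 := by
      have := hL'.comp_hasDerivAt (0 : ℝ) hp
      rw [hG] at this
      exact this
    have hd : DifferentiableAt ℝ (circ (u t)) (x + (0 : ℝ) • e2) :=
      ((sm_circ (slice0 h (Ioo_subset_Ico_self ht))).differentiable (by norm_cast)) _
    have hc' := hd.hasFDerivAt.comp_hasDerivAt (0 : ℝ) (line_hd x e2 0)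
    have e := hc.unique hc'
    rw [e]
    show fderiv ℝ (circ (u t)) (x + (0 : ℝ) • e2) e2 = _
    rw [zero_smul, add_zero]
    rfl
  have hpath : HasDerivAt (fun τ : ℝ => ((τ, x + (a τ - a t) • e2) : ℝ × V)) (1, b • e2) t := by
    have h3 : HasDerivAt (fun τ : ℝ => x + (a τ - a t) • e2) (b • e2) t :=
      ((ha.sub_const (a t)).smul_const e2).const_add x
    exact (hasDerivAt_id t).prodMk h3
  have hL' : HasFDerivAt G L (t, x + (a t - a t) • e2) := by simpa using hL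
  have hc := hL'.comp_hasDerivAt t hpath
  rw [hG] at hc
  refine HasDerivAt.congr_deriv hc ?_
  have e : ((1 : ℝ), b • e2) = ((1 : ℝ), (0 : V)) + b • ((0 : ℝ), e2) := by
    simp
  rw [e, map_add, map_smul, h1, h2, smul_eq_mul]

end Pool.Agent.H58.NSP
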