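import Pool.Agent.H58.NSP.Obl

/-!
Axisymmetric flows (helper58): the first derivatives and the Laplacian of sums and compositions.
-/

set_option autoImplicit false

open MeasureTheory Set Metric Filter Topology
open scoped ContDiff

namespace Pool.Agent.H58.NSP

open H459R3.NS W221.NS Pool.Agent.TH305.DR Pool.Agent.TH305.AX

/-- The first derivatives and the Laplacian of a function at a point. -/
structure Jet (f : V → ℝ) (x : V) (g : Fin 3 → ℝ) (l : ℝ) : Prop where
  cd : ContDiffAt ℝ 2 f x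
  p1 : ∀ j, pd j f x = g j
  lp : lap f x = l

section
variable {f f₂ : V → ℝ} {x : V} {g g₂ : Fin 3 → ℝ} {l l₂ : ℝ}

lemma cd_diff (h : ContDiffAt ℝ 2 f x) : DifferentiableAt ℝ f x := h.differentiableAt (by norm_num)

lemma cd_ev (h : ContDiffAt ℝ 2 f x) : ∀ᶠ y in 𝓝 x, DifferentiableAt ℝ f y := by
  have h1 : ∀ᶠ y in 𝓝 x, ContDiffAt ℝ 2 f y := h.eventually (by simp)
  filter_upwards [h1] with y hy
  exact cd_diff hy

lemma cd_pd (h : ContDiffAt ℝ 2 f x) (j : Fin 3) : DifferentiableAt ℝ (pd j f) x := by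
  have h1 : ContDiffAt ℝ 1 (fderiv ℝ f) x := h.fderiv_right (by norm_num)
  exact (h1.clm_apply contDiffAt_const).differentiableAt (by norm_num)

lemma pd_add_at (h : DifferentiableAt ℝ f x) (h₂ : DifferentiableAt ℝ f₂ x) (j : Fin 3) :
    pd j (fun y => f y + f₂ y) x = pd j f x + pd j f₂ x := by
  unfold pd
  have : HasFDerivAt (fun y => f y + f₂ y) _ x := h.hasFDerivAt.add h₂.hasFDerivAt
  rw [this.fderiv]
  rfl

lemma pd_mul_at (h : DifferentiableAt ℝ f x) (h₂ : DifferentiableAt ℝ f₂ x) (j : Fin 3) :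
    pd j (fun y => f y * f₂ y) x = f x * pd j f₂ x + f₂ x * pd j f x := by
  unfold pd
  have : HasFDerivAt (fun y => f y * f₂ y) _ x := h.hasFDerivAt.mul h₂.hasFDerivAt
  rw [this.fderiv]
  rfl

lemma pd_comp_at {φ : ℝ → ℝ} {d : ℝ} (hφ : HasDerivAt φ d (f x)) (h : DifferentiableAt ℝ f x)
    (j : Fin 3) : pd j (fun y => φ (f y)) x = d * pd j f x := by
  unfold pd
  have : HasFDerivAt (fun y => φ (f y)) _ x := hφ.comp_hasFDerivAt x h.hasFDerivAt
  rw [this.fderiv]
  rfl

lemma Jet.add (h : Jet f x g l) (h₂ : Jet f₂ x g₂ l₂) :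
    Jet (fun y => f y + f₂ y) x (fun j => g j + g₂ j) (l + l₂) where
  cd := h.cd.add h₂.cd
  p1 j := by rw [pd_add_at (cd_diff h.cd) (cd_diff h₂.cd), h.p1, h₂.p1]
  lp := by
    rw [← h.lp, ← h₂.lp]
    unfold lap
    rw [← Finset.sum_add_distrib]
    refine Finset.sum_congr rfl fun j _ => ?_
    have hev : pd j (fun y => f y + f₂ y) =ᶠ[𝓝 x] fun y => pd j f y + pd j f₂ y := by
      filter_upwards [cd_ev h.cd, cd_ev h₂.cd] with y hy hy₂
      exact pd_add_at hy hy₂ j
    rw [Pool.Agent.W349.MF.pd_congr' hev j, pd_add_at (cd_pd h.cd j) (cd_pd h₂.cd j)]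

lemma Jet.mul_left (h : Jet f x g l) (c : ℝ) :
    Jet (fun y => c * f y) x (fun j => c * g j) (c * l) where
  cd := contDiffAt_const.mul h.cd
  p1 j := by rw [pd_cmul, ← h.p1]
  lp := by
    rw [← h.lp]
    unfold lap
    rw [Finset.mul_sum]
    refine Finset.sum_congr rfl fun j _ => ?_
    rw [pd_cmul, pd_cmul]

lemma Jet.comp (h : Jet f x g l) {φ φ₁ : ℝ → ℝ} {d₂ : ℝ} (hφ : ContDiffAt ℝ 2 φ (f x))
    (h1 : ∀ᶠ r in 𝓝 (f x), HasDerivAt φ (φ₁ r) r) (h2 : HasDerivAt φ₁ d₂ (f x)) :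
    Jet (fun y => φ (f y)) x (fun j => φ₁ (f x) * g j)
      (φ₁ (f x) * l + d₂ * ∑ j, g j ^ 2) where
  cd := hφ.comp x h.cd
  p1 j := by rw [pd_comp_at h1.self_of_nhds (cd_diff h.cd), h.p1]
  lp := by
    rw [← h.lp]
    unfold lap
    rw [Finset.mul_sum, Finset.mul_sum, ← Finset.sum_add_distrib]
    refine Finset.sum_congr rfl fun j _ => ?_
    have hev : pd j (fun y => φ (f y)) =ᶠ[𝓝 x] fun y => φ₁ (f y) * pd j f y := by
      filter_upwards [cd_ev h.cd, (cd_diff h.cd).continuousAt.eventually h1] with y hy hy₂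
      exact pd_comp_at hy₂ hy j
    have hd : DifferentiableAt ℝ (fun y => φ₁ (f y)) x :=
      (h2.comp_hasFDerivAt x (cd_diff h.cd).hasFDerivAt).differentiableAt
    rw [Pool.Agent.W349.MF.pd_congr' hev j, pd_mul_at hd (cd_pd h.cd j),
      pd_comp_at h2 (cd_diff h.cd), h.p1]
    ring

lemma Jet.congr (h : Jet f x g l) (hg : ∀ j, g j = g₂ j) (hl : l = l₂) : Jet f x g₂ l₂ where
  cd := h.cd
  p1 j := by rw [h.p1, hg]
  lp := by rw [h.lp, hl]

lemma Jet.zero : Jet (fun _ => (0 : ℝ)) x (fun _ => 0) 0 where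
  cd := contDiffAt_const
  p1 j := by unfold pd; simp
  lp := by
    have : ∀ j : Fin 3, pd j (fun _ : V => (0 : ℝ)) = fun _ => 0 := by
      intro j
      funext y
      unfold pd
      simp
    unfold lap
    simp [this]

lemma Jet.sum {k : ℕ} {F : Fin k → V → ℝ} {G : Fin k → Fin 3 → ℝ} {Λ : Fin k → ℝ}
    (h : ∀ i, Jet (F i) x (G i) (Λ i)) (s : Finset (Fin k)) :
    Jet (fun y => ∑ i ∈ s, F i y) x (fun j => ∑ i ∈ s, G i j) (∑ i ∈ s, Λ i) := by
  classical
  induction s using Finset.induction_on with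
  | empty => simpa using Jet.zero
  | insert i s hi ih =>
    simp only [Finset.sum_insert hi]
    exact (h i).add ih

end

section
variable {x : V} {a : ℝ}

lemma jet_sg : Jet sg x (fun j => 2 * cj j * x j) 4 where
  cd := sm_sg.contDiffAt.of_le (by norm_cast)
  p1 j := pd_sg j x
  lp := by
    have h : ∀ j : Fin 3, pd j (pd j sg) x = 2 * cj j := by
      intro j
      have e : pd j sg = fun y => 2 * cj j * y j := by
        funext y
        exact pd_sg j y
      rw [e, pd_cmul, pd_crd]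
      simp
    unfold lap
    rw [Fin.sum_univ_three, h, h, h]
    simp [cj]
    norm_num

lemma jet_dsq : Jet (dsq a) x (fun j => 2 * (x j - ca a j)) 6 where
  cd := (sm_dsq a).contDiffAt.of_le (by norm_cast)
  p1 j := pd_dsq a j x
  lp := by
    have h : ∀ j : Fin 3, pd j (pd j (dsq a)) x = 2 := by
      intro j
      have e : pd j (dsq a) = fun y => 2 * (y j + -ca a j) := by
        funext y
        rw [pd_dsq a j y]
        ring
      rw [e, pd_cmul]
      show 2 * pd j (fun y => y j + -ca a j) x = 2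
      have hc : DifferentiableAt ℝ (fun y : V => y j) x := by fun_prop
      rw [pd_add_at hc (differentiableAt_const _), pd_crd]
      unfold pd
      simp
    unfold lap
    rw [Fin.sum_univ_three, h, h, h]
    norm_num

lemma sum_sg : ∑ j, (2 * cj j * x j) ^ 2 = 4 * sg x := by
  rw [Fin.sum_univ_three]
  unfold sg
  simp [cj]
  ring

lemma sum_dsq : ∑ j, (2 * (x j - ca a j)) ^ 2 = 4 * dsq a x := by
  rw [Fin.sum_univ_three, ca0, ca1, ca2]
  unfold dsq
  ring

/-- The logarithm of the distance to the axis. -/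
lemma jet_ls (hx : 0 < sg x) :
    Jet (fun y => Real.log (sg y)) x (fun j => 2 * cj j * x j / sg x) 0 := by
  have h1 : ∀ᶠ r in 𝓝 (sg x), HasDerivAt Real.log (r⁻¹) r := by
    filter_upwards [lt_mem_nhds hx] with r hr
    exact Real.hasDerivAt_log hr.ne'
  have h := (jet_sg (x := x)).comp (φ := Real.log) (φ₁ := fun r => r⁻¹)
    (Real.contDiffAt_log.2 hx.ne') h1 (hasDerivAt_inv hx.ne')
  refine h.congr (fun j => by ring) ?_
  rw [sum_sg]
  field_simp
  ring

/-- The bounded logarithmic weight of a point. -/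
lemma jet_ld {m : ℝ} (hm : 0 < m) (hx : 0 < dsq a x) :
    Jet (fun y => Real.log (dsq a y) - Real.log (m + dsq a y)) x
      (fun j => 2 * (m / (m + dsq a x)) * ((x j - ca a j) / dsq a x))
      (2 / dsq a x - 6 / (m + dsq a x) + 4 * dsq a x / (m + dsq a x) ^ 2) := by
  have hmx : 0 < m + dsq a x := by linarith
  have hA : ∀ r : ℝ, 0 < r → HasDerivAt (fun s => Real.log s - Real.log (m + s))
      (r⁻¹ - (m + r)⁻¹) r := by
    intro r hr
    have h2 : HasDerivAt (fun s : ℝ => m + s) 1 r := (hasDerivAt_id r).const_add m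
    have h3 := h2.log (by linarith : m + r ≠ 0)
    exact ((Real.hasDerivAt_log hr.ne').sub h3).congr_deriv (by rw [one_div])
  have h1 : ∀ᶠ r in 𝓝 (dsq a x), HasDerivAt (fun s => Real.log s - Real.log (m + s))
      (r⁻¹ - (m + r)⁻¹) r := by
    filter_upwards [lt_mem_nhds hx] with r hr
    exact hA r hr
  have h2 : HasDerivAt (fun r : ℝ => r⁻¹ - (m + r)⁻¹)
      (-(dsq a x ^ 2)⁻¹ - -((m + dsq a x) ^ 2)⁻¹) (dsq a x) := by
    have h3 : HasDerivAt (fun s : ℝ => m + s) 1 (dsq a x) := (hasDerivAt_id _).const_add m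
    have h4 := (hasDerivAt_inv hmx.ne').comp (dsq a x) h3
    rw [mul_one] at h4
    exact (hasDerivAt_inv hx.ne').sub h4
  have hcd : ContDiffAt ℝ 2 (fun s => Real.log s - Real.log (m + s)) (dsq a x) :=
    (Real.contDiffAt_log.2 hx.ne').sub
      ((contDiffAt_const.add contDiffAt_id).log hmx.ne')
  have h := (jet_dsq (x := x) (a := a)).comp hcd h1 h2
  refine h.congr (fun j => ?_) ?_
  · field_simp
    ring
  · rw [sum_dsq]
    field_simp
    ring

end

end Pool.Agent.H58.NSP
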