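import Pool.Agent.H58.NSP.Cmp

/-!
Axisymmetric flows (helper58): the barrier increases with the time and with the distance.
-/

set_option autoImplicit false

open MeasureTheory Set Metric Filter Topology
open scoped ContDiff

namespace Pool.Agent.H58.NSP

open H459R3.NS W221.NS Pool.Agent.TH305.DR Pool.Agent.TH305.AX

variable {ν C α Λ γ y₁ X₁ : ℝ}

lemma gin_mono (h : Par ν C α Λ γ y₁ X₁) : MonotoneOn (gin Λ α) (Ici 0) := by
  intro x hx y hy hxy
  have hx' : (0 : ℝ) ≤ x := hx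
  unfold gin
  have h1 : x ^ (2 * α) ≤ y ^ (2 * α) := Real.rpow_le_rpow hx' hxy (by linarith [h.hα])
  have h2 := mul_le_mul_of_nonneg_left h1 h.L_pos.le
  have h3 := Real.exp_le_exp.2 (neg_le_neg h2)
  linarith

lemma gout_mono (h : Par ν C α Λ γ y₁ X₁) {x y : ℝ} (hx : y₁ ≤ x) (hxy : x ≤ y) :
    gout C γ X₁ x ≤ gout C γ X₁ y := by
  unfold gout
  have h1 : 0 ≤ x - 2 * C := by
    have := h.hy₁
    linarith
  have h2 : (x - 2 * C) ^ γ ≤ (y - 2 * C) ^ γ := Real.rpow_le_rpow h1 (by linarith) h.g_pos.le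
  exact mul_le_mul_of_nonneg_left h2 h.E1.1.le

lemma gb_mono (h : Par ν C α Λ γ y₁ X₁) : MonotoneOn (gb C α Λ γ y₁ X₁) (Ici 0) := by
  intro x hx y hy hxy
  have hx' : (0 : ℝ) ≤ x := hx
  unfold gb
  split_ifs with h1 h2 h3
  · exact gin_mono h hx hy hxy
  · have h4 : gin Λ α x ≤ gin Λ α y₁ := gin_mono h hx (show (0 : ℝ) ≤ y₁ from h.y1_pos.le) h1
    rw [gin_y1 h, ← gout_y1 h] at h4
    exact h4.trans (gout_mono h le_rfl (not_le.1 h2).le)
  · exact absurd (hxy.trans h3) h1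
  · exact gout_mono h (not_le.1 h1).le hxy

/-- The inner profile divided by the power `γ`. -/
lemma qin_mono (h : Par ν C α Λ γ y₁ X₁) {x y : ℝ} (hx : 0 < x) (hxy : x ≤ y) (hy : y ≤ y₁) :
    gin Λ α x * y ^ γ ≤ gin Λ α y * x ^ γ := by
  obtain ⟨f, hf⟩ : ∃ f : ℝ → ℝ, f = fun z => gin Λ α z * z ^ (-γ) := ⟨_, rfl⟩
  obtain ⟨f', hf'⟩ : ∃ f' : ℝ → ℝ, f' = fun z =>
      Λ * (2 * α * z ^ (2 * α - 1)) * Real.exp (-(Λ * z ^ (2 * α))) * z ^ (-γ)
        + gin Λ α z * (-γ * z ^ (-γ - 1)) := ⟨_, rfl⟩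
  have hd : ∀ z, 0 < z → HasDerivAt f (f' z) z := by
    intro z hz
    rw [hf, hf']
    exact (gin_hd hz).mul (Real.hasDerivAt_rpow_const (Or.inl hz.ne'))
  have hnn : ∀ z, 0 < z → z ≤ y₁ → 0 ≤ f' z := by
    intro z hz hz1
    obtain ⟨X, hX⟩ : ∃ X, X = Λ * z ^ (2 * α) := ⟨_, rfl⟩
    obtain ⟨E, hE⟩ : ∃ E, E = Real.exp (-X) := ⟨_, rfl⟩
    have hX0 : 0 < X := by rw [hX]; exact mul_pos h.L_pos (Real.rpow_pos_of_pos hz _)
    have hE0 : 0 < E := by rw [hE]; exact Real.exp_pos _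
    have e1 : Λ * (2 * α * z ^ (2 * α - 1)) * z = 2 * α * X := by
      rw [hX]
      have : z ^ (2 * α - 1) * z = z ^ (2 * α) := by
        rw [← Real.rpow_add_one hz.ne']
        congr 1
        ring
      linear_combination (2 * α * Λ) * this
    have e2 : z ^ (-γ - 1) * z = z ^ (-γ) := by
      rw [← Real.rpow_add_one hz.ne']
      congr 1
      ring
    have hZ : 0 < z ^ (-γ) := Real.rpow_pos_of_pos hz _
    have h1E : 1 - E ≤ X := by
      have := Real.add_one_le_exp (-X)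
      rw [← hE] at this
      linarith
    have hXX : X ≤ X₁ := by
      rw [hX, h.hX₁]
      have h1 : z ^ (2 * α) ≤ y₁ ^ (2 * α) := Real.rpow_le_rpow hz.le hz1 (by linarith [h.hα])
      exact mul_le_mul_of_nonneg_left h1 h.L_pos.le
    have hEE : Real.exp (-X₁) ≤ E := by
      rw [hE]
      exact Real.exp_le_exp.2 (by linarith)
    have hγE : γ ≤ 2 * α * E := by
      have h1 := h.hγ
      have h2 := h.y1_pos
      have h3 := h.g_pos
      have h4 : α * Real.exp (-X₁) ≤ α * E := mul_le_mul_of_nonneg_left hEE h.hα.le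
      have h5 : γ * 1 ≤ γ * (y₁ + 1) := mul_le_mul_of_nonneg_left (by linarith) h3.le
      have h6 : 0 < α * E := mul_pos h.hα hE0
      linarith
    have key : 0 ≤ f' z * z := by
      have e3 : f' z * z = z ^ (-γ) * (2 * α * X * E - γ * (1 - E)) := by
        rw [hf']
        show (Λ * (2 * α * z ^ (2 * α - 1)) * Real.exp (-(Λ * z ^ (2 * α))) * z ^ (-γ)
          + gin Λ α z * (-γ * z ^ (-γ - 1))) * z = _
        have e4 : gin Λ α z = 1 - E := by rw [hE, hX]; rfl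
        rw [e4, ← hX, ← hE]
        linear_combination (E * z ^ (-γ)) * e1 - (γ * (1 - E)) * e2
      rw [e3]
      apply mul_nonneg hZ.le
      have h7 : γ * (1 - E) ≤ γ * X := mul_le_mul_of_nonneg_left h1E h.g_pos.le
      have h8 : γ * X ≤ 2 * α * E * X := mul_le_mul_of_nonneg_right hγE hX0.le
      linarith
    exact nonneg_of_mul_nonneg_left key hz
  have hmono : MonotoneOn f (Icc x y) := by
    apply monotoneOn_of_deriv_nonneg (convex_Icc x y)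
    · intro z hz
      exact (hd z (hx.trans_le hz.1)).continuousAt.continuousWithinAt
    · intro z hz
      rw [interior_Icc] at hz
      exact (hd z (hx.trans hz.1)).differentiableAt.differentiableWithinAt
    · intro z hz
      rw [interior_Icc] at hz
      rw [(hd z (hx.trans hz.1)).deriv]
      exact hnn z (hx.trans hz.1) (hz.2.le.trans hy)
  have h1 := hmono ⟨le_rfl, hxy⟩ ⟨hxy, le_rfl⟩ hxy
  rw [hf] at h1
  have h2 : gin Λ α x * x ^ (-γ) ≤ gin Λ α y * y ^ (-γ) := h1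
  have hx1 : 0 < x ^ γ := Real.rpow_pos_of_pos hx _
  have hy1 : 0 < y ^ γ := Real.rpow_pos_of_pos (hx.trans_le hxy) _
  rw [Real.rpow_neg hx.le, Real.rpow_neg (hx.trans_le hxy).le, ← div_eq_mul_inv,
    ← div_eq_mul_inv, div_le_div_iff₀ hx1 hy1] at h2
  exact h2

lemma qout_mono (h : Par ν C α Λ γ y₁ X₁) {x y : ℝ} (hx : y₁ ≤ x) (hxy : x ≤ y) :
    gout C γ X₁ x * y ^ γ ≤ gout C γ X₁ y * x ^ γ := by
  unfold gout
  have h1 := h.hy₁
  have h2 := h.hC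
  have hx0 : 0 < x := h.y1_pos.trans_le hx
  have hx2 : 0 ≤ x - 2 * C := by linarith
  have hy2 : 0 ≤ y - 2 * C := by linarith
  have e1 : (x - 2 * C) ^ γ * y ^ γ = ((x - 2 * C) * y) ^ γ :=
    (Real.mul_rpow hx2 (hx0.le.trans hxy)).symm
  have e2 : (y - 2 * C) ^ γ * x ^ γ = ((y - 2 * C) * x) ^ γ := (Real.mul_rpow hy2 hx0.le).symm
  have h3 : ((x - 2 * C) * y) ^ γ ≤ ((y - 2 * C) * x) ^ γ := by
    apply Real.rpow_le_rpow (mul_nonneg hx2 (hx0.le.trans hxy)) _ h.g_pos.le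
    nlinarith
  rw [mul_assoc, mul_assoc, e1, e2]
  exact mul_le_mul_of_nonneg_left h3 h.E1.1.le

lemma qb_mono (h : Par ν C α Λ γ y₁ X₁) {x y : ℝ} (hx : 0 < x) (hxy : x ≤ y) :
    gb C α Λ γ y₁ X₁ x * y ^ γ ≤ gb C α Λ γ y₁ X₁ y * x ^ γ := by
  unfold gb
  split_ifs with h1 h2 h3
  · exact qin_mono h hx hxy h2
  · have h4 := qin_mono h hx h1 le_rfl
    have h5 := qout_mono h le_rfl (not_le.1 h2).le
    rw [gin_y1 h, ← gout_y1 h] at h4
    have hy1 : 0 < y₁ ^ γ := Real.rpow_pos_of_pos h.y1_pos _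
    have hyy : 0 < y ^ γ := Real.rpow_pos_of_pos (hx.trans_le hxy) _
    have hxx : 0 < x ^ γ := Real.rpow_pos_of_pos hx _
    have h6 := mul_le_mul_of_nonneg_right h4 hyy.le
    have h7 := mul_le_mul_of_nonneg_right h5 hxx.le
    have h8 : gin Λ α x * y ^ γ * y₁ ^ γ ≤ gout C γ X₁ y * x ^ γ * y₁ ^ γ := by
      calc gin Λ α x * y ^ γ * y₁ ^ γ = gin Λ α x * y₁ ^ γ * y ^ γ := by ring
        _ ≤ gout C γ X₁ y₁ * x ^ γ * y ^ γ := h6
        _ = gout C γ X₁ y₁ * y ^ γ * x ^ γ := by ring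
        _ ≤ gout C γ X₁ y * y₁ ^ γ * x ^ γ := h7
        _ = _ := by ring
    exact le_of_mul_le_mul_right h8 hy1
  · exact absurd (hxy.trans h3) h1
  · exact qout_mono h (not_le.1 h1).le hxy

/-- The barrier increases with the time and with the distance. -/
lemma bar_mono (h : Par ν C α Λ γ y₁ X₁) {T t t' σ σ' : ℝ} (ht : t < T) (htt : t' ≤ t)
    (hσ : 0 < σ') (hσσ : σ' ≤ σ) :
    Bar T C α Λ γ y₁ X₁ t' σ' ≤ Bar T C α Λ γ y₁ X₁ t σ := by
  have hs : 0 < T - t := by linarith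
  have hs' : 0 < T - t' := by linarith
  have hσ0 : 0 < σ := hσ.trans_le hσσ
  have h1 : Bar T C α Λ γ y₁ X₁ t' σ' ≤ Bar T C α Λ γ y₁ X₁ t' σ := by
    unfold Bar
    apply mul_le_mul_of_nonneg_left _ (Real.rpow_nonneg hs'.le _)
    apply gb_mono h (Real.sqrt_nonneg _) (Real.sqrt_nonneg _)
    apply Real.sqrt_le_sqrt
    gcongr
  refine h1.trans ?_
  obtain ⟨x, hx⟩ : ∃ x, x = √(σ / (T - t')) := ⟨_, rfl⟩
  obtain ⟨y, hy⟩ : ∃ y, y = √(σ / (T - t)) := ⟨_, rfl⟩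
  have hx0 : 0 < x := by rw [hx]; exact Real.sqrt_pos.2 (by positivity)
  have hxy : x ≤ y := by
    rw [hx, hy]
    apply Real.sqrt_le_sqrt
    gcongr
  have hy0 : 0 < y := hx0.trans_le hxy
  have key := qb_mono h hx0 hxy
  have e1 : (T - t') ^ (γ / 2) * x ^ γ = σ ^ (γ / 2) := by
    have : x ^ γ = (σ / (T - t')) ^ (γ / 2) := by
      rw [hx, ← sqrt_pow (by positivity) (γ / 2)]
      congr 1
      ring
    rw [this, ← Real.mul_rpow hs'.le (by positivity)]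
    congr 1
    field_simp
  have e2 : (T - t) ^ (γ / 2) * y ^ γ = σ ^ (γ / 2) := by
    have : y ^ γ = (σ / (T - t)) ^ (γ / 2) := by
      rw [hy, ← sqrt_pow (by positivity) (γ / 2)]
      congr 1
      ring
    rw [this, ← Real.mul_rpow hs.le (by positivity)]
    congr 1
    field_simp
  unfold Bar
  rw [← hx, ← hy]
  have hxx : 0 < x ^ γ := Real.rpow_pos_of_pos hx0 _
  have hyy : 0 < y ^ γ := Real.rpow_pos_of_pos hy0 _
  have hP : 0 < (T - t) ^ (γ / 2) := Real.rpow_pos_of_pos hs _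
  have hP' : 0 < (T - t') ^ (γ / 2) := Real.rpow_pos_of_pos hs' _
  have h2 := mul_le_mul_of_nonneg_left key (mul_pos hP hP').le
  have h3 : (T - t') ^ (γ / 2) * gb C α Λ γ y₁ X₁ x * σ ^ (γ / 2)
      ≤ (T - t) ^ (γ / 2) * gb C α Λ γ y₁ X₁ y * σ ^ (γ / 2) := by
    calc (T - t') ^ (γ / 2) * gb C α Λ γ y₁ X₁ x * σ ^ (γ / 2)
        = (T - t') ^ (γ / 2) * gb C α Λ γ y₁ X₁ x * ((T - t) ^ (γ / 2) * y ^ γ) := by rw [e2]
      _ = (T - t) ^ (γ / 2) * (T - t') ^ (γ / 2) * (gb C α Λ γ y₁ X₁ x * y ^ γ) := by ring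
      _ ≤ (T - t) ^ (γ / 2) * (T - t') ^ (γ / 2) * (gb C α Λ γ y₁ X₁ y * x ^ γ) := h2
      _ = (T - t) ^ (γ / 2) * gb C α Λ γ y₁ X₁ y * ((T - t') ^ (γ / 2) * x ^ γ) := by ring
      _ = _ := by rw [e1]
  exact le_of_mul_le_mul_right h3 (Real.rpow_pos_of_pos hσ0 _)

end Pool.Agent.H58.NSP
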