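import Pool.Agent.H58.NSP.Cmp
import Pool.Graph.R_seed8.TH305.AX.BVdef

/-!
Axisymmetric flows (helper58): the derivatives of a product of powers of the distance to the axis
and of the distance to a point of the axis.
-/

set_option autoImplicit false

open MeasureTheory Set Metric Filter Topology
open scoped ContDiff

namespace Pool.Agent.H58.NSP

open H459R3.NS W221.NS Pool.Agent.TH305.DR Pool.Agent.TH305.AX

/-- The logarithm of the weight. -/
noncomputable def Hf (l a : ℝ) (x : V) : ℝ := Real.log (sg x) + l * Real.log (dsq a x)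

/-- Half of the gradient of the logarithm of the weight. -/
noncomputable def gH (l a : ℝ) (j : Fin 3) (x : V) : ℝ :=
  cj j * x j / sg x + l * ((x j - ca a j) / dsq a x)

/-- The weight. -/
noncomputable def Ob (l γ a : ℝ) (x : V) : ℝ := Real.exp (γ * Hf l a x)

section
variable {l γ a c : ℝ} {x : V}

lemma dsq_pos (hx : 0 < sg x) : 0 < dsq a x := hx.trans_le (sg_le_dsq a x)

lemma Ob_pos : 0 < Ob l γ a x := Real.exp_pos _

lemma Hf_hd (hx : 0 < sg x) : HasFDerivAt (Hf l a)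
    ((sg x)⁻¹ • fderiv ℝ sg x + l • ((dsq a x)⁻¹ • fderiv ℝ (dsq a) x)) x := by
  have h1 : HasFDerivAt sg (fderiv ℝ sg x) x := (sg_hd x).differentiableAt.hasFDerivAt
  have h2 : HasFDerivAt (dsq a) (fderiv ℝ (dsq a) x) x := (dsq_hd a x).differentiableAt.hasFDerivAt
  exact (h1.log hx.ne').add ((h2.log (dsq_pos hx).ne').const_mul l)

lemma Hf_cd (hx : 0 < sg x) : ContDiffAt ℝ 2 (Hf l a) x := by
  have h1 : ContDiffAt ℝ 2 sg x := sm_sg.contDiffAt.of_le (by norm_cast)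
  have h2 : ContDiffAt ℝ 2 (dsq a) x := (sm_dsq a).contDiffAt.of_le (by norm_cast)
  exact (h1.log hx.ne').add (contDiffAt_const.mul (h2.log (dsq_pos hx).ne'))

lemma Ob_hd (hx : 0 < sg x) : HasFDerivAt (fun y => c * Ob l γ a y)
    (c • (Real.exp (γ * Hf l a x) • (γ • ((sg x)⁻¹ • fderiv ℝ sg x
      + l • ((dsq a x)⁻¹ • fderiv ℝ (dsq a) x))))) x :=
  (((Hf_hd hx).const_mul γ).exp).const_mul c

lemma Ob_cd (hx : 0 < sg x) : ContDiffAt ℝ 2 (fun y => c * Ob l γ a y) x :=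
  contDiffAt_const.mul ((contDiffAt_const.mul (Hf_cd hx)).exp)

lemma pd_Ob (hx : 0 < sg x) (j : Fin 3) :
    pd j (fun y => c * Ob l γ a y) x = c * Ob l γ a x * (2 * γ * gH l a j x) := by
  have h1 := pd_sg j x
  have h2 := pd_dsq a j x
  unfold pd at h1 h2 ⊢
  rw [(Ob_hd hx).fderiv]
  simp only [smul_apply, add_apply, smul_eq_mul]
  rw [h1, h2]
  unfold gH Ob
  have := hx.ne'
  have := (dsq_pos (a := a) hx).ne'
  field_simp

lemma pd_gH (hx : 0 < sg x) (j : Fin 3) :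
    HasFDerivAt (gH l a j) (fderiv ℝ (gH l a j) x) x ∧ pd j (gH l a j) x
      = cj j * (1 / sg x - 2 * cj j * x j ^ 2 / sg x ^ 2)
        + l * (1 / dsq a x - 2 * (x j - ca a j) ^ 2 / dsq a x ^ 2) := by
  have hd := dsq_pos (a := a) hx
  have hp : HasFDerivAt (fun y : V => y j)
      (ContinuousLinearMap.proj (R := ℝ) (φ := fun _ : Fin 3 => ℝ) j) x :=
    (ContinuousLinearMap.proj (R := ℝ) (φ := fun _ : Fin 3 => ℝ) j).hasFDerivAt
  have hs : HasFDerivAt sg (fderiv ℝ sg x) x := (sg_hd x).differentiableAt.hasFDerivAt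
  have hq : HasFDerivAt (dsq a) (fderiv ℝ (dsq a) x) x := (dsq_hd a x).differentiableAt.hasFDerivAt
  have his : HasFDerivAt (fun y => (sg y)⁻¹) _ x := (hasDerivAt_inv hx.ne').comp_hasFDerivAt x hs
  have hiq : HasFDerivAt (fun y => (dsq a y)⁻¹) _ x :=
    (hasDerivAt_inv hd.ne').comp_hasFDerivAt x hq
  have hg : HasFDerivAt (fun y : V => (cj j * y j) * (sg y)⁻¹
      + l * ((y j - ca a j) * (dsq a y)⁻¹)) _ x :=
    ((hp.const_mul (cj j)).mul his).add (((hp.sub_const (ca a j)).mul hiq).const_mul l)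
  have e : gH l a j = fun y : V => (cj j * y j) * (sg y)⁻¹
      + l * ((y j - ca a j) * (dsq a y)⁻¹) := by
    funext y
    unfold gH
    rw [div_eq_mul_inv, div_eq_mul_inv]
  refine ⟨by rw [e]; exact hg.differentiableAt.hasFDerivAt, ?_⟩
  have h1 := pd_sg j x
  have h2 := pd_dsq a j x
  have e1 : (ContinuousLinearMap.proj (R := ℝ) (φ := fun _ : Fin 3 => ℝ) j)
      (Pi.single j (1 : ℝ) : V) = 1 := by simp
  rw [e]
  unfold pd at h1 h2 ⊢
  rw [hg.fderiv]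
  simp only [smul_apply, add_apply, smul_eq_mul]
  rw [h1, h2, e1]
  have := hx.ne'
  have := hd.ne'
  field_simp
  ring

lemma pd2_Ob (hx : 0 < sg x) (j : Fin 3) :
    pd j (pd j (fun y => c * Ob l γ a y)) x
      = c * Ob l γ a x * (4 * γ ^ 2 * gH l a j x ^ 2 + 2 * γ *
        (cj j * (1 / sg x - 2 * cj j * x j ^ 2 / sg x ^ 2)
        + l * (1 / dsq a x - 2 * (x j - ca a j) ^ 2 / dsq a x ^ 2))) := by
  have hev : pd j (fun y => c * Ob l γ a y) =ᶠ[𝓝 x]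
      fun y => c * Ob l γ a y * (2 * γ * gH l a j y) := by
    have h1 : ∀ᶠ y in 𝓝 x, 0 < sg y := ev_sg (P := fun r => 0 < r) (lt_mem_nhds hx)
    filter_upwards [h1] with y hy
    exact pd_Ob hy j
  rw [Pool.Agent.W349.MF.pd_congr' hev j]
  obtain ⟨hg, hg2⟩ := pd_gH (l := l) (a := a) hx j
  have hW : HasFDerivAt (fun y => c * Ob l γ a y) (fderiv ℝ (fun y => c * Ob l γ a y) x) x :=
    (Ob_hd hx).differentiableAt.hasFDerivAt
  have hm : HasFDerivAt (fun y => c * Ob l γ a y * (2 * γ * gH l a j y)) _ x :=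
    hW.mul (hg.const_mul (2 * γ))
  have h3 := pd_Ob (l := l) (γ := γ) (a := a) (c := c) hx j
  unfold pd at hg2 h3 ⊢
  rw [hm.fderiv]
  simp only [smul_apply, add_apply, smul_eq_mul]
  rw [hg2, h3]
  ring

lemma sum_gH_sq (hx : 0 < sg x) : gH l a 0 x ^ 2 + gH l a 1 x ^ 2 + gH l a 2 x ^ 2
    = 1 / sg x + (2 * l + l ^ 2) / dsq a x := by
  have hd := dsq_pos (a := a) hx
  have e1 : sg x = x 0 ^ 2 + x 1 ^ 2 := rfl
  have e2 : dsq a x = x 0 ^ 2 + x 1 ^ 2 + (x 2 - a) ^ 2 := rfl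
  have c0 : cj 0 = 1 := by simp [cj]
  have c1 : cj 1 = 1 := by simp [cj]
  have c2 : cj 2 = 0 := by simp [cj]
  unfold gH
  rw [ca0, ca1, ca2, c0, c1, c2]
  have k1 : (x 0 ^ 2 + x 1 ^ 2) / sg x ^ 2 = 1 / sg x := by
    rw [← e1]
    field_simp
  have k2 : (x 0 ^ 2 + x 1 ^ 2) / sg x = 1 := by
    rw [← e1]
    field_simp
  have k3 : (x 0 ^ 2 + x 1 ^ 2 + (x 2 - a) ^ 2) / dsq a x ^ 2 = 1 / dsq a x := by
    rw [← e2]
    field_simp
  have : (1 * x 0 / sg x + l * ((x 0 - 0) / dsq a x)) ^ 2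
      + (1 * x 1 / sg x + l * ((x 1 - 0) / dsq a x)) ^ 2
      + (0 * x 2 / sg x + l * ((x 2 - a) / dsq a x)) ^ 2
      = (x 0 ^ 2 + x 1 ^ 2) / sg x ^ 2 + 2 * l * ((x 0 ^ 2 + x 1 ^ 2) / sg x) / dsq a x
        + l ^ 2 * ((x 0 ^ 2 + x 1 ^ 2 + (x 2 - a) ^ 2) / dsq a x ^ 2) := by
    ring
  rw [this, k1, k2, k3]
  ring

lemma lap_Ob (hx : 0 < sg x) : lap (fun y => c * Ob l γ a y) x
    = c * Ob l γ a x * (4 * γ ^ 2 * (1 / sg x + (2 * l + l ^ 2) / dsq a x)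
      + 2 * γ * (l / dsq a x)) := by
  have hd := dsq_pos (a := a) hx
  unfold lap
  rw [Fin.sum_univ_three, pd2_Ob hx, pd2_Ob hx, pd2_Ob hx, ← sum_gH_sq (l := l) (a := a) hx,
    ca0, ca1, ca2]
  have c0 : cj 0 = 1 := by simp [cj]
  have c1 : cj 1 = 1 := by simp [cj]
  have c2 : cj 2 = 0 := by simp [cj]
  rw [c0, c1, c2]
  have e1 : sg x = x 0 ^ 2 + x 1 ^ 2 := rfl
  have e2 : dsq a x = x 0 ^ 2 + x 1 ^ 2 + (x 2 - a) ^ 2 := rfl
  have k1 : (x 0 ^ 2 + x 1 ^ 2) / sg x ^ 2 = 1 / sg x := by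
    rw [← e1]
    field_simp
  have k3 : (x 0 ^ 2 + x 1 ^ 2 + (x 2 - a) ^ 2) / dsq a x ^ 2 = 1 / dsq a x := by
    rw [← e2]
    field_simp
  have k4 : l / dsq a x = l * (1 / dsq a x) := by ring
  rw [k4]
  linear_combination (-(4 * (c * Ob l γ a x) * γ)) * k1
    + (-(4 * (c * Ob l γ a x) * γ * l)) * k3

/-- The part of the equation which contains the derivatives of the weight. -/
lemma op_Ob (hx : 0 < sg x) (v : V) :
    1 * (lap (fun y => c * Ob l γ a y) x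
      - 2 * (x 0 * pd 0 (fun y => c * Ob l γ a y) x + x 1 * pd 1 (fun y => c * Ob l γ a y) x)
        / sg x) - ∑ j, v j * pd j (fun y => c * Ob l γ a y) x
      = c * Ob l γ a x * (γ * (4 * γ * (1 / sg x + (2 * l + l ^ 2) / dsq a x)
        - 4 / sg x - 2 * l / dsq a x
        - 2 * ((x 0 * v 0 + x 1 * v 1) / sg x
          + l * ((x 0 * v 0 + x 1 * v 1 + (x 2 - a) * v 2) / dsq a x)))) := by
  have hd := dsq_pos (a := a) hx
  rw [lap_Ob hx, Fin.sum_univ_three, pd_Ob hx, pd_Ob hx, pd_Ob hx]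
  have c0 : cj 0 = 1 := by simp [cj]
  have c1 : cj 1 = 1 := by simp [cj]
  have c2 : cj 2 = 0 := by simp [cj]
  unfold gH
  rw [ca0, ca1, ca2, c0, c1, c2]
  have e1 : sg x = x 0 ^ 2 + x 1 ^ 2 := rfl
  have k2 : (x 0 ^ 2 + x 1 ^ 2) / sg x = 1 := by
    rw [← e1]
    field_simp
  have k5 : 2 * (x 0 * (c * Ob l γ a x * (2 * γ * (1 * x 0 / sg x + l * ((x 0 - 0) / dsq a x))))
      + x 1 * (c * Ob l γ a x * (2 * γ * (1 * x 1 / sg x + l * ((x 1 - 0) / dsq a x))))) / sg x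
      = c * Ob l γ a x * (4 * γ) * ((x 0 ^ 2 + x 1 ^ 2) / sg x) * (1 / sg x + l / dsq a x) := by
    field_simp
    ring
  rw [k5, k2]
  field_simp
  ring

/-- The time derivative of the weight. -/
lemma Ob_td {a : ℝ → ℝ} {a' t : ℝ} (ha : HasDerivAt a a' t) (hx : 0 < sg x) :
    HasDerivAt (fun τ => Ob l γ (a τ) x)
      (Ob l γ (a t) x * (γ * (l * (-(2 * (x 2 - a t) * a') / dsq (a t) x)))) t := by
  have hd := dsq_pos (a := a t) hx
  have h1 : HasDerivAt (fun τ => dsq (a τ) x) (-(2 * (x 2 - a t) * a')) t := by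
    unfold dsq
    have h2 := ((ha.const_sub (x 2)).pow 2).const_add (x 0 ^ 2 + x 1 ^ 2)
    refine h2.congr_deriv ?_
    push_cast
    ring
  have h3 := (((h1.log hd.ne').const_mul l).const_add (Real.log (sg x))).const_mul γ
  have h4 := h3.exp
  exact h4

end

end Pool.Agent.H58.NSP
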