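import Pool.Agent.H58.NSP.Dsq

/-!
Axisymmetric flows (helper58): the time derivative of the circulation, along a path parallel to the
axis, at a point where the quotient with a barrier depending on the distance to a moving point of
the axis is maximal.
-/

set_option autoImplicit false

open MeasureTheory Set Metric Filter Topology
open scoped ContDiff

namespace Pool.Agent.H58.NSP

open H459R3.NS W221.NS Pool.Agent.TH305.DR Pool.Agent.TH305.AX

variable {ν T : ℝ} {u : ℝ → V → V} {p : ℝ → V → ℝ}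

/-- The time derivative at a maximum, for a time dependent barrier. -/
lemma top_timeS (hν : 0 < ν) (h : AxSol ν T u p) {S : ℝ} {Φ : ℝ → ℝ → ℝ} {a : ℝ → ℝ} {a' : ℝ}
    {t : ℝ} (ht : t ∈ Ioo 0 T) (ha : HasDerivAt a a' t) {x : V} (h0 : 0 < sg x)
    (h1 : dsq (a t) x < S) (hΦ : 0 < Φ t (dsq (a t) x)) (hne : circ (u t) x ≠ 0)
    (htop : ∀ y, 0 < dsq (a t) y → dsq (a t) y ≤ S →
      |circ (u t) y| * Φ t (dsq (a t) x) ≤ |circ (u t) x| * Φ t (dsq (a t) y))
    {β : ℝ} (hmaj : ∀ x', sg x' = sg x → dsq (a t) x' = dsq (a t) x →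
      circ (u t) x' = circ (u t) x →
      ∃ χ χ₁ c₂ d ζ, Maj Φ t (dsq (a t) x) χ χ₁ c₂ d ζ ∧
        4 * ν * dsq (a t) x * c₂
          - 2 * (x' 0 * u t x' 0 + x' 1 * u t x' 1 + (x' 2 - a t) * (u t x' 2 - a') - ν)
            * χ₁ (dsq (a t) x)
          ≤ d + β * Φ t (dsq (a t) x)) :
    ∃ (θ s d d' : ℝ) (ζ : ℝ → ℝ), |s| = 1 ∧ s * circ (u t) x = |circ (u t) x| ∧
      HasDerivAt (fun τ => s * circ (u τ) (rot θ x + (a τ - a t) • e2)) d t ∧
      HasDerivAt ζ d' t ∧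
      ζ t = Φ t (dsq (a t) x) ∧ (∀ᶠ τ in 𝓝[<] t, Φ τ (dsq (a t) x) ≤ ζ τ) ∧
      d * Φ t (dsq (a t) x) ≤ |circ (u t) x| * (d' + β * Φ t (dsq (a t) x)) := by
  have hax := h.axi t (Ioo_subset_Ico_self ht)
  have hq0 : 0 < dsq (a t) x := h0.trans_le (sg_le_dsq _ _)
  obtain ⟨s, hs1, hs2⟩ : ∃ s : ℝ, |s| = 1 ∧ s * circ (u t) x = |circ (u t) x| := by
    rcases le_total 0 (circ (u t) x) with h1 | h1
    · exact ⟨1, by simp, by rw [abs_of_nonneg h1, one_mul]⟩
    · exact ⟨-1, by simp, by rw [abs_of_nonpos h1]; ring⟩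
  have hsc : ∀ v : V → V, ∀ x, s * circ v x ≤ |circ v x| := by
    intro v x
    calc s * circ v x ≤ |s * circ v x| := le_abs_self _
      _ = |circ v x| := by rw [abs_mul, hs1, one_mul]
  obtain ⟨c, hc⟩ : ∃ c : ℝ, c = |circ (u t) x| / Φ t (dsq (a t) x) := ⟨_, rfl⟩
  have hc0 : 0 < c := by rw [hc]; exact div_pos (abs_pos.2 hne) hΦ
  have hcx : c * Φ t (dsq (a t) x) = |circ (u t) x| := by rw [hc]; field_simp
  have hle : ∀ y, 0 < dsq (a t) y → dsq (a t) y ≤ S →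
      |circ (u t) y| ≤ c * Φ t (dsq (a t) y) := by
    intro y hy0 hyS
    have := htop y hy0 hyS
    rw [hc, div_mul_eq_mul_div, le_div_iff₀ hΦ]
    exact this
  obtain ⟨θ, hθ⟩ := rolle (slicep h ht) x
  obtain ⟨x', hx'⟩ : ∃ x', x' = rot θ x := ⟨_, rfl⟩
  rw [← hx'] at hθ
  have hsx : sg x' = sg x := by rw [hx', sg_rot]
  have hqx : dsq (a t) x' = dsq (a t) x := by rw [hx', dsq_rot]
  have hcx' : circ (u t) x' = circ (u t) x := by rw [hx', circ_rot hax]
  obtain ⟨χ, χ₁, c₂, d', ζ, hM, hineq⟩ := hmaj x' hsx hqx hcx'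
  have hW : ContDiffAt ℝ 2 (fun y => c * χ (dsq (a t) y)) x' := by
    have h2 : ContDiffAt ℝ 2 χ (dsq (a t) x') := by rw [hqx]; exact hM.smooth
    exact contDiffAt_const.mul (h2.comp _ ((sm_dsq (a t)).contDiffAt.of_le (by norm_cast)))
  have hlm : IsLocalMax (fun y => s * circ (u t) y - c * χ (dsq (a t) y)) x' := by
    have h2 : ∀ᶠ y in 𝓝 x', dsq (a t) y ∈ Ioo 0 S :=
      ev_dsq (P := fun r => r ∈ Ioo 0 S)
        (by rw [hqx]; exact Ioo_mem_nhds hq0 h1)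
    have h3 : ∀ᶠ y in 𝓝 x', Φ t (dsq (a t) y) ≤ χ (dsq (a t) y) :=
      ev_dsq (P := fun r => Φ t r ≤ χ r) (by rw [hqx]; exact hM.le)
    filter_upwards [h2, h3] with y hy hy3
    rw [hcx', hqx, hs2, hM.eq, hcx, sub_self]
    have h4 := (hsc (u t) y).trans (hle y hy.1 hy.2.le)
    have h5 := mul_le_mul_of_nonneg_left hy3 hc0.le
    linarith
  have hv := slice0 h (Ioo_subset_Ico_self ht)
  have hpd2 : s * pd 2 (circ (u t)) x' = pd 2 (fun y => c * χ (dsq (a t) y)) x' := by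
    have hcs := sm_circ hv
    have hsc' : ContDiff ℝ ∞ (fun y => s * circ (u t) y) := contDiff_const.mul hcs
    have hf : ContDiffAt ℝ 2 (fun y => s * circ (u t) y - c * χ (dsq (a t) y)) x' :=
      (hsc'.contDiffAt.of_le (by norm_cast)).sub hW
    have h1 := (max_pd hf hlm 2).1
    rw [(pd2_sub_at hsc' hW 2).1, pd_cmul] at h1
    linarith
  have htouch := touch hν hv hax
    (d := fun i => deriv (fun τ => u τ x' i) t) (fun i => h.momentum t ht x' i) hθ
    (by rw [hsx]; exact h0) hW hlm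
  refine ⟨θ, s, _, d', ζ, hs1, hs2, (circ_path h ht (rot θ x) ha).const_mul s, hM.td, hM.teq,
    hM.tle, ?_⟩
  rw [← hx']
  have hd1' : ∀ᶠ r in 𝓝 (dsq (a t) x'), HasDerivAt χ (χ₁ r) r := by rw [hqx]; exact hM.hd1
  have hd2' : HasDerivAt χ₁ c₂ (dsq (a t) x') := by rw [hqx]; exact hM.hd2
  have hpd : ∀ j, pd j (fun y => c * χ (dsq (a t) y)) x'
      = c * (χ₁ (dsq (a t) x') * (2 * (x' j - ca (a t) j))) :=
    fun j => pd_majd c hd1'.self_of_nhds j
  rw [lap_majd c hd1' hd2'] at htouch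
  simp only [hpd, Fin.sum_univ_three, ca0, ca1, ca2] at htouch hpd2
  have h0' : 0 < sg x' := by rw [hsx]; exact h0
  have hom : 2 * (x' 0 * (c * (χ₁ (dsq (a t) x') * (2 * (x' 0 - 0))))
      + x' 1 * (c * (χ₁ (dsq (a t) x') * (2 * (x' 1 - 0))))) / sg x'
      = 4 * c * χ₁ (dsq (a t) x') := by
    rw [div_eq_iff h0'.ne']
    have : sg x' = x' 0 ^ 2 + x' 1 ^ 2 := rfl
    linear_combination (-(4 * c * χ₁ (dsq (a t) x'))) * this
  rw [hom, hqx] at htouch
  rw [hqx] at hpd2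
  have h5 := mul_le_mul_of_nonneg_left hineq hc0.le
  have h6 : s * ((x' 0 * deriv (fun s => u s x' 1) t - x' 1 * deriv (fun s => u s x' 0) t)
      + a' * pd 2 (circ (u t)) x') ≤ c * (d' + β * Φ t (dsq (a t) x)) := by
    have e : s * ((x' 0 * deriv (fun s => u s x' 1) t - x' 1 * deriv (fun s => u s x' 0) t)
        + a' * pd 2 (circ (u t)) x')
        = s * (x' 0 * deriv (fun s => u s x' 1) t - x' 1 * deriv (fun s => u s x' 0) t)
          + a' * (s * pd 2 (circ (u t)) x') := by ring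
    rw [e, hpd2]
    linarith
  have h7 := mul_le_mul_of_nonneg_right h6 hΦ.le
  refine h7.trans (le_of_eq ?_)
  rw [← hcx]
  ring

end Pool.Agent.H58.NSP
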